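import Mathlib

/-!
# The number of points of Weierstrass curves with a point of prime order
-/

set_option autoImplicit false

namespace Pool.Agent.R942.ES

open WeierstrassCurve.Affine

section Generic

variable {L : Type} [Field L]

/-- The number of solutions of a Weierstrass equation. -/
noncomputable def cnt (W : WeierstrassCurve L) : ℕ :=
  Nat.card {p : L × L // W.toAffine.Equation p.1 p.2}

lemma eqn_iff (W : WeierstrassCurve L) (x y : L) : W.toAffine.Equation x y ↔
    y ^ 2 + W.a₁ * x * y + W.a₃ * y = x ^ 3 + W.a₂ * x ^ 2 + W.a₄ * x + W.a₆ :=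
  equation_iff _ _

lemma nonsing_iff (W : WeierstrassCurve L) (x y : L) : W.toAffine.Nonsingular x y ↔
    (y ^ 2 + W.a₁ * x * y + W.a₃ * y = x ^ 3 + W.a₂ * x ^ 2 + W.a₄ * x + W.a₆) ∧
      (W.a₁ * y - (3 * x ^ 2 + 2 * W.a₂ * x + W.a₄) ≠ 0 ∨ 2 * y + W.a₁ * x + W.a₃ ≠ 0) := by
  rw [nonsingular_iff', eqn_iff]

/-- There is at most one singular point. -/
lemma sing_unique (W : WeierstrassCurve L) {x y x₁ y₁ : L}
    (h : W.toAffine.Equation x y) (hs : ¬ W.toAffine.Nonsingular x y)
    (h₁ : W.toAffine.Equation x₁ y₁) (hs₁ : ¬ W.toAffine.Nonsingular x₁ y₁) :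
    x = x₁ ∧ y = y₁ := by
  rw [nonsing_iff] at hs hs₁
  rw [eqn_iff] at h h₁
  rw [not_and, not_or, not_not, not_not] at hs hs₁
  obtain ⟨e1, e2⟩ := hs h
  obtain ⟨f1, f2⟩ := hs₁ h₁
  have hX : (x - x₁) ^ 3 = 0 := by
    linear_combination 2 * h - (x - x₁) * e1 - (y - y₁) * e2 - 2 * h₁ - (x - x₁) * f1 -
      (y - y₁) * f2
  have hX' : x = x₁ := sub_eq_zero.1 ((pow_eq_zero_iff (by norm_num)).1 hX)
  refine ⟨hX', ?_⟩
  have hY : (y - y₁) ^ 2 = 0 := by
    rw [hX'] at h
    linear_combination h - h₁ - (y - y₁) * f2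
  exact sub_eq_zero.1 ((pow_eq_zero_iff (by norm_num)).1 hY)

variable [Fintype L]

lemma card_point (W : WeierstrassCurve L) : Nat.card W.toAffine.Point =
    Nat.card {v : L × L // W.toAffine.Nonsingular v.1 v.2} + 1 := by
  classical
  rw [Nat.card_congr (nonsingularPointEquiv W.toAffine)]
  exact Finite.card_option

lemma dvd_point [DecidableEq L] {ℓ : ℕ} [Fact ℓ.Prime] {W : WeierstrassCurve L}
    (P : W.toAffine.Point) (hP : P ≠ 0) (hℓ : ℓ • P = 0) : ℓ ∣ Nat.card W.toAffine.Point := by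
  rw [← addOrderOf_eq_prime hℓ hP]
  exact addOrderOf_dvd_natCard P

/-- Good reduction. -/
lemma cnt_good [DecidableEq L] {ℓ : ℕ} [Fact ℓ.Prime] {W : WeierstrassCurve L}
    (hΔ : W.Δ ≠ 0) (P : W.toAffine.Point) (hP : P ≠ 0) (hℓ : ℓ • P = 0) : ℓ ∣ cnt W + 1 := by
  have h1 : cnt W + 1 = Nat.card W.toAffine.Point := by
    rw [card_point]
    congr 1
    apply Nat.card_congr
    refine Equiv.subtypeEquivRight fun v => ?_
    rw [equation_iff_nonsingular_of_Δ_ne_zero hΔ]
  rw [h1]
  exact dvd_point P hP hℓ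

/-- Bad reduction. -/
lemma cnt_bad [DecidableEq L] {ℓ : ℕ} [Fact ℓ.Prime] {W : WeierstrassCurve L} {x₁ y₁ : L}
    (h₁ : W.toAffine.Equation x₁ y₁) (hs₁ : ¬ W.toAffine.Nonsingular x₁ y₁)
    (P : W.toAffine.Point) (hP : P ≠ 0) (hℓ : ℓ • P = 0) : ℓ ∣ cnt W := by
  classical
  have h1 : cnt W = Nat.card W.toAffine.Point := by
    rw [card_point, cnt]
    rw [Nat.card_eq_fintype_card, Nat.card_eq_fintype_card, Fintype.card_subtype,
      Fintype.card_subtype]
    have h2 : (Finset.univ.filter fun v : L × L => W.toAffine.Equation v.1 v.2) =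
        insert (x₁, y₁) (Finset.univ.filter fun v : L × L => W.toAffine.Nonsingular v.1 v.2) := by
      ext v
      rw [Finset.mem_insert, Finset.mem_filter, Finset.mem_filter]
      simp only [Finset.mem_univ, true_and]
      constructor
      · intro h
        by_cases hs : W.toAffine.Nonsingular v.1 v.2
        · exact Or.inr hs
        · exact Or.inl (Prod.ext_iff.2 (sing_unique W h hs h₁ hs₁))
      · rintro (rfl | h)
        · exact h₁
        · exact h.1
    rw [h2, Finset.card_insert_of_notMem]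
    intro h
    rw [Finset.mem_filter] at h
    exact hs₁ h.2
  rw [h1]
  exact dvd_point P hP hℓ

omit [Fintype L] in
/-- Scaling. -/
lemma cnt_scale (W W' : WeierstrassCurve L) {s : L} (hs : s ≠ 0) (h1 : W'.a₁ = s * W.a₁)
    (h2 : W'.a₂ = s ^ 2 * W.a₂) (h3 : W'.a₃ = s ^ 3 * W.a₃) (h4 : W'.a₄ = s ^ 4 * W.a₄)
    (h6 : W'.a₆ = s ^ 6 * W.a₆) : cnt W' = cnt W := by
  apply Nat.card_congr
  have key : ∀ x y : L, W'.toAffine.Equation (s ^ 2 * x) (s ^ 3 * y) ↔
      W.toAffine.Equation x y := by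
    intro x y
    rw [eqn_iff, eqn_iff, h1, h2, h3, h4, h6]
    constructor
    · intro h
      apply mul_left_cancel₀ (pow_ne_zero 6 hs)
      linear_combination h
    · intro h
      linear_combination s ^ 6 * h
  refine
    { toFun := fun v => ⟨(v.1.1 / s ^ 2, v.1.2 / s ^ 3), ?_⟩
      invFun := fun v => ⟨(s ^ 2 * v.1.1, s ^ 3 * v.1.2), ?_⟩
      left_inv := ?_
      right_inv := ?_ }
  · have h := v.2
    rw [← key]
    have e1 : s ^ 2 * (v.1.1 / s ^ 2) = v.1.1 := by field_simp
    have e2 : s ^ 3 * (v.1.2 / s ^ 3) = v.1.2 := by field_simp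
    change W'.toAffine.Equation (s ^ 2 * (v.1.1 / s ^ 2)) (s ^ 3 * (v.1.2 / s ^ 3))
    rw [e1, e2]
    exact h
  · exact (key _ _).2 v.2
  · intro v
    apply Subtype.ext
    apply Prod.ext
    · change s ^ 2 * (v.1.1 / s ^ 2) = v.1.1
      field_simp
    · change s ^ 3 * (v.1.2 / s ^ 3) = v.1.2
      field_simp
  · intro v
    apply Subtype.ext
    apply Prod.ext
    · change s ^ 2 * v.1.1 / s ^ 2 = v.1.1
      field_simp
    · change s ^ 3 * v.1.2 / s ^ 3 = v.1.2
      field_simp

/-- The nodal curve `y² + x y = x³`. -/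
lemma cnt_one : cnt (⟨1, 0, 0, 0, 0⟩ : WeierstrassCurve L) + 1 = Fintype.card L := by
  classical
  rw [cnt, Nat.card_eq_fintype_card, Fintype.card_subtype]
  have h1 : (Finset.univ.filter fun v : L × L =>
      (⟨1, 0, 0, 0, 0⟩ : WeierstrassCurve L).toAffine.Equation v.1 v.2) =
      (Finset.univ.erase (-1 : L)).image fun u : L => (u ^ 2 + u, (u ^ 2 + u) * u) := by
    ext ⟨x, y⟩
    rw [Finset.mem_filter, Finset.mem_image]
    simp only [Finset.mem_univ, true_and, Finset.mem_erase, ne_eq, and_true, Prod.mk.injEq,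
      eqn_iff]
    constructor
    · intro h
      by_cases hx : x = 0
      · refine ⟨0, by simp, ?_, ?_⟩
        · rw [hx]; ring
        · rw [hx] at h
          have : y ^ 2 = 0 := by linear_combination h
          have hy : y = 0 := by simpa using this
          rw [hy]
          ring
      · have h2 : (y / x) ^ 2 + y / x = x := by
          field_simp
          linear_combination h
        refine ⟨y / x, ?_, h2, ?_⟩
        · intro h3
          rw [h3] at h2
          apply hx
          rw [← h2]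
          ring
        · rw [h2]
          field_simp
    · rintro ⟨u, -, rfl, rfl⟩
      ring
  rw [h1, Finset.card_image_of_injOn, Finset.card_erase_of_mem (Finset.mem_univ _),
    Finset.card_univ]
  · have : 0 < Fintype.card L := Fintype.card_pos
    omega
  · intro u hu w hw h
    rw [Finset.coe_erase, Set.mem_sdiff, Set.mem_singleton_iff] at hu hw
    simp only [Prod.mk.injEq] at h
    obtain ⟨h2, h3⟩ := h
    by_cases hu0 : u = 0
    · rw [hu0] at h2 ⊢
      have h4 : w * (w + 1) = 0 := by linear_combination - h2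
      rcases mul_eq_zero.1 h4 with h5 | h5
      · exact h5.symm
      · exact absurd (eq_neg_of_add_eq_zero_left h5) hw.2
    · have h4 : u ^ 2 + u ≠ 0 := by
        intro h4
        have h5 : u * (u + 1) = 0 := by linear_combination h4
        rcases mul_eq_zero.1 h5 with h6 | h6
        · exact hu0 h6
        · exact hu.2 (eq_neg_of_add_eq_zero_left h6)
      rw [← h2] at h3
      exact mul_left_cancel₀ h4 h3

/-- The nodal curve `y² + w x y = x³`. -/
lemma cnt_split {w : L} (hw : w ≠ 0) :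
    cnt (⟨w, 0, 0, 0, 0⟩ : WeierstrassCurve L) + 1 = Fintype.card L := by
  rw [← cnt_one, cnt_scale ⟨1, 0, 0, 0, 0⟩ ⟨w, 0, 0, 0, 0⟩ hw] <;> simp

end Generic

/-! ### The order two -/

section Two

variable {L : Type} [Field L]

/-- The curves `y² = x³ + u x² + v x`. -/
def curve2 (u v : L) : WeierstrassCurve L := ⟨0, u, 0, v, 0⟩

lemma curve2_disc (u v : L) : (curve2 u v).Δ = 16 * v ^ 2 * (u ^ 2 - 4 * v) := by
  simp only [WeierstrassCurve.Δ, WeierstrassCurve.b₂, WeierstrassCurve.b₄, WeierstrassCurve.b₆,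
    WeierstrassCurve.b₈, curve2]
  ring

/-- A point of order two with `y = 0`. -/
lemma order_two [DecidableEq L] {u v x : L} (h : (curve2 u v).toAffine.Nonsingular x 0) :
    2 • (Point.some x 0 h : (curve2 u v).toAffine.Point) = 0 := by
  rw [two_nsmul, Point.add_self_of_Y_eq]
  simp [negY, curve2]

lemma nonsing2 {u v : L} (hv : v ≠ 0) : (curve2 u v).toAffine.Nonsingular 0 0 := by
  rw [nonsing_iff]
  simp only [curve2]
  refine ⟨by ring, Or.inl ?_⟩
  intro h
  apply hv
  linear_combination - h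

variable [Fintype L]

lemma cnt2_good {u v : L} (h2 : (2 : L) ≠ 0) (hv : v ≠ 0) (hd : u ^ 2 - 4 * v ≠ 0) :
    2 ∣ cnt (curve2 u v) + 1 := by
  classical
  haveI : Fact (Nat.Prime 2) := ⟨Nat.prime_two⟩
  refine cnt_good ?_ (Point.some 0 0 (nonsing2 hv)) (Point.some_ne_zero _) (order_two _)
  rw [curve2_disc]
  have h16 : (16 : L) ≠ 0 := by
    have := pow_ne_zero 4 h2
    norm_num at this
    exact this
  exact mul_ne_zero (mul_ne_zero h16 (pow_ne_zero 2 hv)) hd

lemma cnt2_bad {u v : L} (h2 : (2 : L) ≠ 0) (hv : v ≠ 0) (hd : u ^ 2 - 4 * v = 0) :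
    2 ∣ cnt (curve2 u v) := by
  classical
  haveI : Fact (Nat.Prime 2) := ⟨Nat.prime_two⟩
  have hx : 2 * (-u / 2) = -u := by field_simp
  refine cnt_bad (x₁ := -u / 2) (y₁ := 0) ?_ ?_ (Point.some 0 0 (nonsing2 hv))
    (Point.some_ne_zero _) (order_two _)
  · rw [eqn_iff]
    simp only [curve2]
    field_simp
    linear_combination -u * hd
  · rw [nonsing_iff]
    rintro ⟨-, h | h⟩
    · apply h
      simp only [curve2]
      have h4 : (4 : L) ≠ 0 := by
        have := pow_ne_zero 2 h2
        norm_num at this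
        exact this
      apply mul_left_cancel₀ h4
      rw [mul_zero]
      generalize -u / 2 = x at hx ⊢
      linear_combination (-6 * x - u) * hx + hd
    · apply h
      simp [curve2]

lemma cnt2_zero {u : L} (h2 : (2 : L) ≠ 0) (hu : u ≠ 0) : 2 ∣ cnt (curve2 u 0) := by
  classical
  haveI : Fact (Nat.Prime 2) := ⟨Nat.prime_two⟩
  have h : (curve2 u 0).toAffine.Nonsingular (-u) 0 := by
    rw [nonsing_iff]
    simp only [curve2]
    refine ⟨by ring, Or.inl ?_⟩
    intro h
    apply pow_ne_zero 2 hu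
    linear_combination - h
  refine cnt_bad (x₁ := 0) (y₁ := 0) ?_ ?_ (Point.some (-u) 0 h) (Point.some_ne_zero _)
    (order_two _)
  · rw [eqn_iff]
    simp [curve2]
  · rw [nonsing_iff]
    rintro ⟨-, h | h⟩
    · apply h
      simp [curve2]
    · apply h
      simp [curve2]

end Two

/-! ### The order three -/

section Three

variable {L : Type} [Field L]

/-- The curves `y² + u x y + v y = x³`. -/
def curve3 (u v : L) : WeierstrassCurve L := ⟨u, 0, v, 0, 0⟩

lemma curve3_disc (u v : L) : (curve3 u v).Δ = v ^ 3 * (u ^ 3 - 27 * v) := by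
  simp only [WeierstrassCurve.Δ, WeierstrassCurve.b₂, WeierstrassCurve.b₄, WeierstrassCurve.b₆,
    WeierstrassCurve.b₈, curve3]
  ring

lemma nonsing3 {u v : L} (hv : v ≠ 0) : (curve3 u v).toAffine.Nonsingular 0 0 := by
  rw [nonsing_iff]
  simp only [curve3]
  refine ⟨by ring, Or.inr ?_⟩
  simpa using hv

lemma order_three [DecidableEq L] {u v : L} (hv : v ≠ 0) :
    3 • (Point.some 0 0 (nonsing3 hv) : (curve3 u v).toAffine.Point) = 0 := by
  set P : (curve3 u v).toAffine.Point := Point.some 0 0 (nonsing3 hv) with hP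
  have hy : (0 : L) ≠ (curve3 u v).toAffine.negY 0 0 := by
    simp only [negY, curve3]
    simpa using hv
  have h1 : P + P = -P := by
    rw [hP, Point.add_self_of_Y_ne hy, Point.neg_some]
    have hs : (curve3 u v).toAffine.slope 0 0 0 0 = 0 := by
      rw [slope_of_Y_ne rfl hy]
      simp [curve3]
    rw [Point.some.injEq, hs]
    constructor
    · simp [addX, curve3]
    · simp only [addY, negAddY, negY, addX, curve3]
      ring
  rw [show (3 : ℕ) = 2 + 1 by norm_num, add_smul, two_nsmul, one_smul, h1, neg_add_cancel]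

variable [Fintype L]

lemma cnt3_good {u v : L} (hv : v ≠ 0) (hd : u ^ 3 - 27 * v ≠ 0) :
    3 ∣ cnt (curve3 u v) + 1 := by
  classical
  haveI : Fact (Nat.Prime 3) := ⟨Nat.prime_three⟩
  refine cnt_good ?_ _ (Point.some_ne_zero _) (order_three hv)
  rw [curve3_disc]
  exact mul_ne_zero (pow_ne_zero 3 hv) hd

lemma cnt3_bad {u v : L} (h3 : (3 : L) ≠ 0) (hv : v ≠ 0) (hd : u ^ 3 - 27 * v = 0) :
    3 ∣ cnt (curve3 u v) := by
  classical
  haveI : Fact (Nat.Prime 3) := ⟨Nat.prime_three⟩
  have h27 : (27 : L) ≠ 0 := by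
    have := pow_ne_zero 3 h3
    norm_num at this
    exact this
  have h9 : (9 : L) ≠ 0 := by
    have := pow_ne_zero 2 h3
    norm_num at this
    exact this
  have hv' : v = u ^ 3 / 27 := by
    field_simp
    linear_combination - hd
  refine cnt_bad (x₁ := -u ^ 2 / 9) (y₁ := u ^ 3 / 27) ?_ ?_ _ (Point.some_ne_zero _)
    (order_three hv)
  · rw [eqn_iff]
    simp only [curve3]
    rw [hv']
    have e1 : u ^ 3 / 27 = u ^ 3 / 3 ^ 3 := by norm_num
    have e2 : -u ^ 2 / 9 = -u ^ 2 / 3 ^ 2 := by norm_num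
    rw [e1, e2]
    field_simp
    ring
  · rw [nonsing_iff]
    have e1 : u ^ 3 / 27 = u ^ 3 / 3 ^ 3 := by norm_num
    have e2 : -u ^ 2 / 9 = -u ^ 2 / 3 ^ 2 := by norm_num
    rintro ⟨-, h | h⟩
    · apply h
      simp only [curve3]
      rw [e1, e2]
      field_simp
      ring
    · apply h
      simp only [curve3]
      rw [hv', e1, e2]
      field_simp
      ring

end Three

end Pool.Agent.R942.ES
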