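import Pool.Agent.W63.HS.TR
import Pool.Agent.W804.HS.RD
import Pool.Agent.W111.HS.EC

/-!
# Squarefree characteristic polynomials from traces modulo a prime number
-/

set_option autoImplicit false

namespace Pool.Agent.R942.ES

open Polynomial Pool.Agent.W111.HS.EC

/-! ### Independence of the power functions -/

lemma indep {K : Type} [Field K] (T : Finset K) (c : K → K)
    (h : ∀ n : ℕ, ∑ x ∈ T, c x * x ^ n = 0) : ∀ x ∈ T, c x = 0 := by
  classical
  intro x hx
  have h1 : ∀ p : K[X], ∑ y ∈ T, c y * p.eval y = 0 := by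
    intro p
    induction p using Polynomial.induction_on' with
    | add p q hp hq =>
      simp only [eval_add, mul_add, Finset.sum_add_distrib, hp, hq, add_zero]
    | monomial n a =>
      have h2 : ∀ y, c y * (monomial n a).eval y = a * (c y * y ^ n) := by
        intro y
        rw [eval_monomial]
        ring
      rw [Finset.sum_congr rfl fun y _ => h2 y, ← Finset.mul_sum, h n, mul_zero]
  have h2 := h1 (∏ y ∈ T.erase x, (X - C y))
  rw [Finset.sum_eq_single x] at h2
  · rcases mul_eq_zero.1 h2 with h3 | h3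
    · exact h3
    · exfalso
      rw [eval_prod, Finset.prod_eq_zero_iff] at h3
      obtain ⟨y, hy, hy'⟩ := h3
      rw [eval_sub, eval_X, eval_C, sub_eq_zero] at hy'
      rw [← hy'] at hy
      exact Finset.notMem_erase x T hy
  · intro y hy hyx
    rw [eval_prod, Finset.prod_eq_zero (Finset.mem_erase.2 ⟨hyx, hy⟩), mul_zero]
    rw [eval_sub, eval_X, eval_C, sub_self]
  · intro h
    exact absurd hx h

/-- Sums over a multiset as sums over its elements. -/
lemma sum_count {K : Type} [Field K] [DecidableEq K] (A : Multiset K) (T : Finset K)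
    (hT : ∀ x ∈ A, x ∈ T) (f : K → K) :
    (A.map f).sum = ∑ x ∈ T, (A.count x : K) * f x := by
  rw [Finset.sum_multiset_map_count]
  have h1 : A.toFinset ⊆ T := fun x hx => hT x (Multiset.mem_toFinset.1 hx)
  rw [← Finset.sum_subset h1]
  · refine Finset.sum_congr rfl fun x _ => ?_
    rw [nsmul_eq_mul]
  · intro x _ hx
    rw [Multiset.mem_toFinset] at hx
    rw [Multiset.count_eq_zero_of_notMem hx, Nat.cast_zero, zero_mul]

/-! ### Integrality -/

/-- The shift of sequences. -/
def shift : (ℕ → ℤ) →ₗ[ℤ] (ℕ → ℤ) where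
  toFun s n := s (n + 1)
  map_add' _ _ := rfl
  map_smul' _ _ := rfl

lemma shift_pow (k : ℕ) (s : ℕ → ℤ) (n : ℕ) : (shift ^ k) s n = s (n + k) := by
  induction k generalizing n with
  | zero => rfl
  | succ k ih =>
    rw [pow_succ', Module.End.mul_apply]
    change (shift ^ k) s (n + 1) = _
    rw [ih]
    congr 1
    ring

/-- Numbers whose power sums are integers are algebraic integers. -/
theorem integral_of_sums {E : Type} [Field E] [CharZero E] (A : Multiset E)
    (h : ∀ n : ℕ, 1 ≤ n → ∃ z : ℤ, (A.map fun x => x ^ n).sum = z) :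
    ∀ x ∈ A, IsIntegral ℤ x := by
  classical
  choose! S hS using h
  let s : ℕ → ℤ := fun n => S (n + 1)
  let T := A.toFinset
  have hs : ∀ n, (s n : E) = ∑ x ∈ T, (A.count x : E) * x ^ (n + 1) := fun n => by
    rw [← sum_count A T (fun x hx => Multiset.mem_toFinset.2 hx) fun x => x ^ (n + 1)]
    exact (hS (n + 1) (by omega)).symm
  let P : E[X] := ∏ x ∈ T, (X - C x)
  have hPm : P.Monic := monic_prod_of_monic _ _ fun x _ => monic_X_sub_C x
  have hP0 : ∀ x ∈ T, P.eval x = 0 := by
    intro x hx
    rw [eval_prod]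
    exact Finset.prod_eq_zero hx (by rw [eval_sub, eval_X, eval_C, sub_self])
  -- the sequences satisfying the recurrence
  let Rec : Submodule ℤ (ℕ → ℤ) :=
    { carrier := {m | ∀ n, ∑ k ∈ Finset.range (P.natDegree + 1), P.coeff k * (m (n + k) : E) = 0}
      add_mem' := by
        intro a b ha hb n
        have h1 : ∀ k, P.coeff k * (((a + b) (n + k) : ℤ) : E) =
            P.coeff k * (a (n + k) : E) + P.coeff k * (b (n + k) : E) := by
          intro k
          rw [Pi.add_apply]
          push_cast
          ring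
        rw [Finset.sum_congr rfl fun k _ => h1 k, Finset.sum_add_distrib, ha n, hb n, add_zero]
      zero_mem' := by
        intro n
        apply Finset.sum_eq_zero
        intro k _
        simp
      smul_mem' := by
        intro c a ha n
        have h1 : ∀ k, P.coeff k * (((c • a) (n + k) : ℤ) : E) =
            (c : E) * (P.coeff k * (a (n + k) : E)) := by
          intro k
          rw [Pi.smul_apply, smul_eq_mul]
          push_cast
          ring
        rw [Finset.sum_congr rfl fun k _ => h1 k, ← Finset.mul_sum, ha n, mul_zero] }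
  have hRec : ∀ j, (shift ^ j) s ∈ Rec := by
    intro j n
    have h1 : ∀ k, P.coeff k * (((shift ^ j) s (n + k) : ℤ) : E) =
        ∑ x ∈ T, (A.count x : E) * x ^ (n + j + 1) * (P.coeff k * x ^ k) := by
      intro k
      rw [shift_pow, hs, Finset.mul_sum]
      refine Finset.sum_congr rfl fun x _ => ?_
      ring
    rw [Finset.sum_congr rfl fun k _ => h1 k, Finset.sum_comm]
    apply Finset.sum_eq_zero
    intro x hx
    rw [← Finset.mul_sum, ← eval_eq_sum_range, hP0 x hx, mul_zero]
  let M : Submodule ℤ (ℕ → ℤ) := Submodule.span ℤ (Set.range fun j => (shift ^ j) s)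
  have hM : M ≤ Rec := by
    rw [Submodule.span_le]
    rintro _ ⟨j, rfl⟩
    exact hRec j
  have hshift : ∀ m ∈ M, shift m ∈ M := by
    intro m hm
    have h1 : M ≤ M.comap shift := by
      rw [Submodule.span_le]
      rintro _ ⟨j, rfl⟩
      apply Submodule.subset_span
      refine ⟨j + 1, ?_⟩
      beta_reduce
      rw [pow_succ', Module.End.mul_apply]
    exact h1 hm
  -- `M` is finitely generated
  have hfin : Module.Finite ℤ M := by
    let ρ : M →ₗ[ℤ] (Fin P.natDegree → ℤ) :=
      { toFun := fun m i => (m : ℕ → ℤ) i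
        map_add' := fun _ _ => rfl
        map_smul' := fun _ _ => rfl }
    apply Module.Finite.of_injective ρ
    rw [← LinearMap.ker_eq_bot, LinearMap.ker_eq_bot']
    rintro ⟨m, hm⟩ hρ
    apply Subtype.ext
    funext n
    induction n using Nat.strong_induction_on with
    | _ n ih =>
      by_cases hn : n < P.natDegree
      · exact congrFun hρ ⟨n, hn⟩
      · have h1 := hM hm (n - P.natDegree)
        rw [Finset.sum_range_succ, Finset.sum_eq_zero, zero_add, coeff_natDegree,
          hPm.leadingCoeff, one_mul, show n - P.natDegree + P.natDegree = n by omega] at h1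
        · exact_mod_cast h1
        · intro k hk
          rw [Finset.mem_range] at hk
          have h2 : m (n - P.natDegree + k) = 0 := ih _ (by omega)
          rw [h2, Int.cast_zero, mul_zero]
  -- a monic equation for the shift
  let σ : Module.End ℤ M := shift.restrict hshift
  obtain ⟨g, hg, hg'⟩ := Module.End.isIntegral (R := ℤ) (M := M) |>.isIntegral σ
  have hσ : ∀ (k : ℕ) (m : M), (((σ ^ k) m : M) : ℕ → ℤ) = (shift ^ k) (m : ℕ → ℤ) := by
    intro k m
    induction k with
    | zero => rfl
    | succ k ih =>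
      rw [pow_succ', pow_succ', Module.End.mul_apply, Module.End.mul_apply, ← ih]
      rfl
  have hs0 : s ∈ M := Submodule.subset_span ⟨0, rfl⟩
  have hg1 : ∀ n, ∑ k ∈ Finset.range (g.natDegree + 1), g.coeff k * s (n + k) = 0 := by
    intro n
    rw [← aeval_def, aeval_eq_sum_range] at hg'
    have h1 := congrArg (fun τ : Module.End ℤ M => ((τ ⟨s, hs0⟩ : M) : ℕ → ℤ) n) hg'
    simp only [LinearMap.sum_apply, LinearMap.smul_apply, LinearMap.zero_apply,
      Submodule.coe_zero, Pi.zero_apply, Submodule.coe_sum, Finset.sum_apply,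
      Submodule.coe_smul, Pi.smul_apply, hσ, shift_pow, smul_eq_mul] at h1
    exact h1
  have hg2 : ∀ n : ℕ, ∑ x ∈ T, ((A.count x : E) * x * (g.map (Int.castRingHom E)).eval x) * x ^ n
      = 0 := by
    intro n
    have h1 : ((∑ k ∈ Finset.range (g.natDegree + 1), g.coeff k * s (n + k) : ℤ) : E) = 0 := by
      rw [hg1, Int.cast_zero]
    push_cast at h1
    have h2 : ∀ k, (g.coeff k : E) * (s (n + k) : E) =
        ∑ x ∈ T, (A.count x : E) * x ^ (n + 1) * ((g.coeff k : E) * x ^ k) := by
      intro k
      rw [hs, Finset.mul_sum]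
      refine Finset.sum_congr rfl fun x _ => ?_
      ring
    rw [Finset.sum_congr rfl fun k _ => h2 k, Finset.sum_comm] at h1
    rw [← h1]
    refine Finset.sum_congr rfl fun x _ => ?_
    rw [← Finset.mul_sum]
    have h3 : (g.map (Int.castRingHom E)).eval x =
        ∑ k ∈ Finset.range (g.natDegree + 1), (g.coeff k : E) * x ^ k := by
      rw [eval_map, eval₂_eq_sum_range]
      rfl
    rw [h3]
    ring
  have hg3 := indep T _ hg2
  intro x hx
  by_cases hx0 : x = 0
  · rw [hx0]
    exact isIntegral_zero
  have h1 := hg3 x (Multiset.mem_toFinset.2 hx)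
  have h2 : (A.count x : E) ≠ 0 := Nat.cast_ne_zero.2 (Multiset.count_pos.2 hx).ne'
  have h3 : (g.map (Int.castRingHom E)).eval x = 0 := by
    rcases mul_eq_zero.1 h1 with h3 | h3
    · exact absurd h3 (mul_ne_zero h2 hx0)
    · exact h3
  refine ⟨g, hg, ?_⟩
  rw [eval_map] at h3
  exact h3

/-! ### Reduction -/

/-- Two multisets with the same power sums in a field of positive characteristic. -/
lemma nodup_of_sums {k : Type} [Field k] (A : Multiset k) (B : Finset k) (h0 : (0 : k) ∉ B)
    (hcard : A.card = B.card)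
    (h : ∀ n : ℕ, 1 ≤ n → (A.map fun x => x ^ n).sum = ∑ x ∈ B, x ^ n) : A = B.val := by
  classical
  let T := A.toFinset ∪ B
  have h1 : ∀ n : ℕ, ∑ x ∈ T, (((A.count x : k) - if x ∈ B then 1 else 0) * x) * x ^ n = 0 := by
    intro n
    have h2 : ∀ x, (((A.count x : k) - if x ∈ B then 1 else 0) * x) * x ^ n =
        (A.count x : k) * x ^ (n + 1) - (if x ∈ B then x ^ (n + 1) else 0) := by
      intro x
      split_ifs <;> ring
    rw [Finset.sum_congr rfl fun x _ => h2 x, Finset.sum_sub_distrib,
      ← sum_count A T (fun x hx => Finset.mem_union_left _ (Multiset.mem_toFinset.2 hx))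
        fun x => x ^ (n + 1), h (n + 1) (by omega), Finset.sum_ite_mem,
      Finset.inter_eq_right.2 Finset.subset_union_right, sub_self]
  have h2 := indep T _ h1
  have h3 : B.val ≤ A := by
    rw [Multiset.le_iff_count]
    intro x
    by_cases hx : x ∈ B
    · rw [Multiset.count_eq_one_of_mem B.nodup hx]
      by_contra hcon
      have h4 : A.count x = 0 := by omega
      have h5 := h2 x (Finset.mem_union_right _ hx)
      rw [h4, if_pos hx, Nat.cast_zero, zero_sub, neg_mul, one_mul, neg_eq_zero] at h5
      rw [h5] at hx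
      exact h0 hx
    · rw [Multiset.count_eq_zero_of_notMem hx]
      exact Nat.zero_le _
  exact (Multiset.eq_of_le_of_card_le h3 (by rw [hcard]; exact le_rfl)).symm

/-- Cancellation for logarithmic derivatives. -/
lemma isLog_cancel {R : Type} [CommRing R] [IsDomain R] {W V S T : PowerSeries R}
    (hV : V ≠ 0) (h1 : IsLog (W * V) S) (h2 : IsLog V T) : IsLog W (S - T) := by
  unfold IsLog at *
  rw [Derivation.leibniz, smul_eq_mul, smul_eq_mul] at h1
  apply mul_right_cancel₀ hV
  linear_combination h1 - W * h2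

lemma isLog_inj {R : Type} [CommRing R] [IsDomain R] {W S T : PowerSeries R}
    (hW : W ≠ 0) (h1 : IsLog W S) (h2 : IsLog W T) : S = T := by
  unfold IsLog at *
  apply mul_left_cancel₀ hW
  rw [← h1, ← h2]

lemma isLog_map {R R' : Type} [CommRing R] [CommRing R'] (φ : R →+* R') {W S : PowerSeries R}
    (h : IsLog W S) : IsLog (PowerSeries.map φ W) (PowerSeries.map φ S) := by
  unfold IsLog at *
  have h1 := congrArg (PowerSeries.map φ) h
  rw [map_neg, map_mul, map_mul, PowerSeries.map_X] at h1
  rw [← h1]
  congr 2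
  ext n
  rw [PowerSeries.coeff_derivative, PowerSeries.coeff_map, PowerSeries.coeff_map,
    PowerSeries.coeff_derivative, map_mul]
  simp

/-- A squarefree polynomial with constant coefficient one is the product of factors `1 - x X`. -/
lemma exists_recip {ℓ : ℕ} [Fact ℓ.Prime] {k : Type} [Field k] [IsAlgClosed k] [Algebra (ZMod ℓ) k]
    (R : (ZMod ℓ)[X]) (hR : Squarefree R) (h0 : R.coeff 0 = 1) :
    ∃ B : Finset k, (0 : k) ∉ B ∧ B.card = R.natDegree ∧
      PowerSeries.map (algebraMap (ZMod ℓ) k) (R : PowerSeries (ZMod ℓ)) = gs B.val := by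
  classical
  have hsep : R.Separable := PerfectField.separable_iff_squarefree.2 hR
  set Q : k[X] := R.map (algebraMap (ZMod ℓ) k) with hQ
  have hQsep : Q.Separable := hsep.map
  have hQ0 : Q.coeff 0 = 1 := by rw [hQ, coeff_map, h0, map_one]
  have hQne : Q ≠ 0 := by
    intro h
    rw [h, coeff_zero] at hQ0
    exact zero_ne_one hQ0
  have hdeg : Q.natDegree = R.natDegree := natDegree_map _
  have hnod : Q.roots.Nodup := nodup_roots hQsep
  have hsplit := (IsAlgClosed.splits Q).natDegree_eq_card_roots
  have hrne : ∀ r ∈ Q.roots, r ≠ 0 := by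
    intro r hr h
    rw [mem_roots hQne, IsRoot.def, h, ← coeff_zero_eq_eval_zero, hQ0] at hr
    exact one_ne_zero hr
  have hprod : Q = (Q.roots.map fun r => 1 - C r⁻¹ * X).prod := by
    have h1 := (IsAlgClosed.splits Q).eq_prod_roots
    have h2 : (Q.roots.map fun r => (X - C r : k[X])) =
        Q.roots.map fun r => C (-r) * (1 - C r⁻¹ * X) := by
      refine Multiset.map_congr rfl fun r hr => ?_
      rw [mul_sub, mul_one, ← mul_assoc, ← C_mul, neg_mul, mul_inv_cancel₀ (hrne r hr), C_neg,
        C_neg, C_1]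
      ring
    rw [h2, Multiset.prod_map_mul, ← mul_assoc] at h1
    have h3 : (Q.roots.map fun r => (C (-r) : k[X])).prod = C (Q.roots.map fun r => -r).prod := by
      rw [map_multiset_prod, Multiset.map_map]
      rfl
    rw [h3, ← C_mul] at h1
    have h4 := congrArg (fun P : k[X] => P.coeff 0) h1
    have h5 : ((Q.roots.map fun r => (1 - C r⁻¹ * X : k[X])).prod).coeff 0 = 1 := by
      rw [coeff_zero_eq_eval_zero, eval_multiset_prod, Multiset.map_map]
      apply Multiset.prod_eq_one
      intro x hx
      rw [Multiset.mem_map] at hx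
      obtain ⟨r, _, rfl⟩ := hx
      simp
    simp only [coeff_C_mul, h5, hQ0, mul_one] at h4
    rw [← h4, C_1, one_mul] at h1
    exact h1
  let B : Finset k := ⟨Q.roots.map fun r => r⁻¹, hnod.map inv_injective⟩
  refine ⟨B, ?_, ?_, ?_⟩
  · intro h
    have h1 : (0 : k) ∈ Q.roots.map fun r => r⁻¹ := h
    rw [Multiset.mem_map] at h1
    obtain ⟨r, hr, hr'⟩ := h1
    exact hrne r hr (inv_eq_zero.1 hr')
  · rw [← hdeg, hsplit]
    exact Multiset.card_map _ _
  · have h1 : PowerSeries.map (algebraMap (ZMod ℓ) k) (R : PowerSeries (ZMod ℓ)) =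
        (Q : PowerSeries k) := by
      ext n
      rw [PowerSeries.coeff_map, Polynomial.coeff_coe, Polynomial.coeff_coe, hQ, coeff_map]
    rw [h1]
    conv_lhs => rw [hprod]
    rw [gs]
    have h2 := map_multiset_prod (Polynomial.coeToPowerSeries.ringHom (R := k))
      (Q.roots.map fun r => 1 - C r⁻¹ * X)
    rw [Multiset.map_map] at h2
    refine Eq.trans h2 ?_
    congr 1
    change _ = Multiset.map _ (Q.roots.map fun r => r⁻¹)
    rw [Multiset.map_map]
    refine Multiset.map_congr rfl fun r _ => ?_
    simp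

/-- **Separability from traces modulo `ℓ`.** If the traces of the powers of `Φ` are integers, and
modulo `ℓ` they are the power sums belonging to a squarefree polynomial `R` of degree `dim W`, then
the characteristic polynomial of `Φ` is separable, and so `Φ` is semisimple. -/
theorem separable_of_traces {ℓ : ℕ} [hℓ : Fact ℓ.Prime] {E : Type} [Field E] [CharZero E]
    [IsAlgClosed E] {W : Type} [AddCommGroup W] [Module E W] [FiniteDimensional E W]
    (Φ : Module.End E W) (T : ℕ → ℤ)
    (hT : ∀ n, 1 ≤ n → LinearMap.trace E W (Φ ^ n) = T n)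
    (R : (ZMod ℓ)[X]) (hR : Squarefree R) (h0 : R.coeff 0 = 1)
    (hdim : R.natDegree = Module.finrank E W) (S : PowerSeries (ZMod ℓ))
    (hS : IsLog (R : PowerSeries (ZMod ℓ)) S)
    (hTS : ∀ n, 1 ≤ n → PowerSeries.coeff n S = T n) :
    Φ.charpoly.Separable ∧ Φ.IsSemisimple := by
  classical
  have hA : ∀ n, 1 ≤ n → (Φ.charpoly.roots.map fun x => x ^ n).sum = (T n : E) := fun n hn => by
    rw [← Pool.Agent.W63.HS.TR.main E W Φ n, hT n hn]
  have hint := integral_of_sums Φ.charpoly.roots fun n hn => ⟨T n, hA n hn⟩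
  obtain ⟨k₀, _, _, ⟨θ₀⟩⟩ := Pool.Agent.W804.HS.RD.main E ℓ hℓ.out
  let k := AlgebraicClosure k₀
  haveI : CharP k ℓ := charP_of_injective_algebraMap (algebraMap k₀ k).injective ℓ
  letI : Algebra (ZMod ℓ) k := ZMod.algebra k ℓ
  let θ : (integralClosure ℤ E).toSubring →+* k := (algebraMap k₀ k).comp θ₀
  let A' : Multiset (integralClosure ℤ E).toSubring :=
    Φ.charpoly.roots.pmap (fun x hx => (⟨x, hx⟩ : (integralClosure ℤ E).toSubring)) hint
  have hA' : A'.map Subtype.val = Φ.charpoly.roots := by
    rw [Multiset.map_pmap, Multiset.pmap_eq_map, Multiset.map_id']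
  have hsum : ∀ n, 1 ≤ n → ((A'.map θ).map fun x => x ^ n).sum = ((T n : ℤ) : k) := by
    intro n hn
    have h1 : (A'.map fun x => x ^ n).sum = ((T n : ℤ) : (integralClosure ℤ E).toSubring) := by
      apply Subtype.ext
      have h2 := map_multiset_sum (integralClosure ℤ E).toSubring.subtype (A'.map fun x => x ^ n)
      rw [Multiset.map_map] at h2
      have h3 : (A'.map ((integralClosure ℤ E).toSubring.subtype ∘ fun x => x ^ n)) =
          (Φ.charpoly.roots.map fun x => x ^ n) := by
        rw [← hA', Multiset.map_map]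
        rfl
      rw [h3, hA n hn] at h2
      change (integralClosure ℤ E).toSubring.subtype _ = _
      rw [h2]
      simp
    have h4 := congrArg θ h1
    rw [map_multiset_sum, Multiset.map_map, map_intCast] at h4
    rw [Multiset.map_map, ← h4]
    congr 1
    refine Multiset.map_congr rfl fun x _ => ?_
    simp
  obtain ⟨B, hB0, hBc, hBR⟩ := exists_recip (k := k) R hR h0
  have hlog1 : IsLog (gs B.val) (PowerSeries.map (algebraMap (ZMod ℓ) k) S) := by
    rw [← hBR]
    exact isLog_map _ hS
  have hgs0 : gs B.val ≠ 0 := by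
    intro h
    have h1 := coeff_zero_gs B.val
    rw [h, map_zero] at h1
    exact zero_ne_one h1
  have hSB := isLog_inj hgs0 hlog1 (isLog_gs B.val)
  have hsumB : ∀ n, 1 ≤ n → ∑ x ∈ B, x ^ n = ((T n : ℤ) : k) := by
    intro n hn
    have h1 := congrArg (PowerSeries.coeff n) hSB
    rw [coeff_gs B.val n hn, PowerSeries.coeff_map, hTS n hn, map_intCast] at h1
    rw [h1]
    rfl
  have hcard : (A'.map θ).card = B.card := by
    rw [Multiset.card_map, hBc, hdim, ← Φ.charpoly_natDegree,
      (IsAlgClosed.splits Φ.charpoly).natDegree_eq_card_roots, ← hA', Multiset.card_map]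
  have hmain := nodup_of_sums (A'.map θ) B hB0 hcard fun n hn => by rw [hsum n hn, hsumB n hn]
  have hnod : Φ.charpoly.roots.Nodup := by
    rw [← hA']
    apply Multiset.Nodup.map Subtype.val_injective
    apply Multiset.Nodup.of_map θ
    rw [hmain]
    exact B.nodup
  have hsep : Φ.charpoly.Separable := by
    rw [← nodup_roots_iff_of_splits (LinearMap.charpoly_monic Φ).ne_zero
      (IsAlgClosed.splits _)]
    exact hnod
  refine ⟨hsep, ?_⟩
  exact Module.End.isSemisimple_of_squarefree_aeval_eq_zero hsep.squarefree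
    (LinearMap.aeval_self_charpoly Φ)

end Pool.Agent.R942.ES
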