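import Pool.Agent.R942.ES.Mult

/-!
# Criteria for semisimplicity from traces modulo a prime number
-/

set_option autoImplicit false

namespace Pool.Agent.R942.ES

open Polynomial Pool.Agent.W111.HS.EC Module

section

variable {ℓ : ℕ} [hℓ : Fact ℓ.Prime]

/-- The multiplicity of `y` as a root of `R`. -/
noncomputable def mult (R : (ZMod ℓ)[X]) (y : AlgebraicClosure (ZMod ℓ)) : ℕ :=
  (R.map (algebraMap (ZMod ℓ) (AlgebraicClosure (ZMod ℓ)))).rootMultiplicity y

variable {E : Type} [Field E] [CharZero E]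
    [IsAlgClosed E] {W : Type} [AddCommGroup W] [Module E W] [FiniteDimensional E W]

lemma replicate_le_roots (Φ : Module.End E W) (β : E) :
    Multiset.replicate (finrank E (Φ.maxGenEigenspace β)) β ≤ Φ.charpoly.roots := by
  classical
  rw [← Multiset.le_count_iff_replicate_le, count_roots, LinearMap.finrank_maxGenEigenspace_eq]

lemma mem_roots_of_pos (Φ : Module.End E W) (β : E)
    (h : 0 < finrank E (Φ.maxGenEigenspace β)) : β ∈ Φ.charpoly.roots := by
  classical
  rw [← Multiset.count_pos, count_roots, ← LinearMap.finrank_maxGenEigenspace_eq]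
  exact h

lemma add_le_roots (Φ : Module.End E W) {β γ : E} (h : β ≠ γ) :
    Multiset.replicate (finrank E (Φ.maxGenEigenspace β)) β +
      Multiset.replicate (finrank E (Φ.maxGenEigenspace γ)) γ ≤ Φ.charpoly.roots := by
  classical
  rw [Multiset.le_iff_count]
  intro x
  rw [Multiset.count_add, Multiset.count_replicate, Multiset.count_replicate, count_roots,
    ← LinearMap.finrank_maxGenEigenspace_eq]
  by_cases h1 : β = x
  · rw [if_pos h1, if_neg fun h2 => h (h1.trans h2.symm), h1, add_zero]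
  · rw [if_neg h1, zero_add]
    split_ifs with h2
    · rw [h2]
    · exact Nat.zero_le _

lemma add_add_le_roots (Φ : Module.End E W) {β γ δ : E} (h : β ≠ γ) (h' : β ≠ δ) (h'' : γ ≠ δ) :
    Multiset.replicate (finrank E (Φ.maxGenEigenspace β)) β +
      Multiset.replicate (finrank E (Φ.maxGenEigenspace γ)) γ +
      Multiset.replicate (finrank E (Φ.maxGenEigenspace δ)) δ ≤ Φ.charpoly.roots := by
  classical
  rw [Multiset.le_iff_count]
  intro x
  rw [Multiset.count_add, Multiset.count_add, Multiset.count_replicate, Multiset.count_replicate,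
    Multiset.count_replicate, count_roots, ← LinearMap.finrank_maxGenEigenspace_eq]
  by_cases h1 : β = x
  · rw [if_pos h1, if_neg fun h2 => h (h1.trans h2.symm),
      if_neg fun h2 => h' (h1.trans h2.symm), h1, add_zero, add_zero]
  · rw [if_neg h1, zero_add]
    by_cases h2 : γ = x
    · rw [if_pos h2, if_neg fun h3 => h'' (h2.trans h3.symm), h2, add_zero]
    · rw [if_neg h2, zero_add]
      split_ifs with h3
      · rw [h3]
      · exact Nat.zero_le _

/-- **Semisimplicity.** All roots of `R` are simple, except possibly `± 1 / q`. -/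
theorem semisimple_criterion (Φ : Module.End E W) (T : ℕ → ℤ)
    (hT : ∀ n, 1 ≤ n → LinearMap.trace E W (Φ ^ n) = T n)
    (R : (ZMod ℓ)[X]) (h0 : R.coeff 0 = 1)
    (hdim : R.natDegree = Module.finrank E W) (S : PowerSeries (ZMod ℓ))
    (hS : IsLog (R : PowerSeries (ZMod ℓ)) S)
    (hTS : ∀ n, 1 ≤ n → PowerSeries.coeff n S = T n) (q : ℕ) (hq : q ≠ 0)
    (B : W →ₗ[E] W →ₗ[E] E) (hB : ∀ x y, B (Φ x) (Φ y) = (q : E) ^ 2 * B x y)
    (hs : ∀ x y, B x y = B y x) (hnd : ∀ x, (∀ y, B x y = 0) → x = 0)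
    (N : Submodule E W) (hN : ∀ x ∈ N, Φ x = (q : E) • x)
    (hNd : ∀ x ∈ N, (∀ y ∈ N, B x y = 0) → x = 0)
    (hmult : ∀ y : AlgebraicClosure (ZMod ℓ), 1 < mult R y → (q * y) ^ 2 = 1 ∧ mult R y < ℓ ∧
      (q * y ≠ 1 → mult R y ≤ 2) ∧ mult R y ≤ 2 + finrank E N) :
    Φ.IsSemisimple := by
  classical
  have hlt : ∀ y : AlgebraicClosure (ZMod ℓ), mult R y < ℓ := by
    intro y
    by_cases h : 1 < mult R y
    · exact (hmult y h).2.1
    · have := hℓ.out.two_le
      omega
  obtain ⟨k, _, _, j, red, hred1, hred2, hred3⟩ :=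
    exists_red Φ T hT R h0 hdim S hS hTS hlt
  have hqE : (q : E) ≠ 0 := Nat.cast_ne_zero.2 hq
  have h2E : (2 : E) ≠ 0 := two_ne_zero
  have hNV : finrank E N ≤ finrank E (Φ.maxGenEigenspace (q : E)) := by
    apply Submodule.finrank_mono
    intro x hx
    rw [Module.End.mem_maxGenEigenspace]
    refine ⟨1, ?_⟩
    rw [pow_one, LinearMap.sub_apply, hN x hx]
    simp
  apply isSemisimple_of_eigen
  intro β
  set m := finrank E (Φ.maxGenEigenspace β) with hm
  by_cases hm1 : m ≤ 1
  · exact eigen_of_one Φ β hm1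
  have hβr : β ∈ Φ.charpoly.roots := mem_roots_of_pos Φ β (by omega)
  obtain ⟨z, hz1, hz2⟩ := hred3 β hβr
  have hmz : m ≤ mult R z := by
    have h1 := hz2 _ (replicate_le_roots Φ β) fun y hy => by
      rw [Multiset.eq_of_mem_replicate hy]
    rwa [Multiset.card_replicate] at h1
  obtain ⟨hz3, hz4, hz5, hz6⟩ := hmult z (by omega)
  have hβ0 : β ≠ 0 := by
    intro h
    rw [h, ← Nat.cast_zero, hred2, Nat.cast_zero, mul_zero] at hz1
    exact zero_ne_one hz1
  have hjz : (j z) ≠ 0 := left_ne_zero_of_mul_eq_one hz1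
  have hredβ : (red β) ^ 2 = (q : k) ^ 2 := by
    have h1 := congrArg j hz3
    rw [map_pow, map_mul, map_natCast, map_one] at h1
    have h2 : (j z) ^ 2 * (red β) ^ 2 = (j z) ^ 2 * (q : k) ^ 2 := by
      rw [← mul_pow, hz1, one_pow, ← mul_pow, mul_comm (j z) (q : k), h1]
    exact mul_left_cancel₀ (pow_ne_zero 2 hjz) h2
  by_cases hβq : β = q
  · rw [hβq]
    refine eigen_of_defect h2E hB hs hnd (by ring) hqE N hN hNd ?_
    rw [← hβq]
    omega
  -- the multiplicities of `β`
  set γ : E := (q : E) ^ 2 / β with hγ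
  have hβγ : β * γ = (q : E) ^ 2 := by
    rw [hγ]
    field_simp
  have hmγ : m ≤ finrank E (Φ.maxGenEigenspace γ) := finrank_le_dual hB hnd hβγ hβ0
  have hγr : γ ∈ Φ.charpoly.roots := mem_roots_of_pos Φ γ (by omega)
  have hredγ : red γ = red β := by
    have h1 := hred1 β hβr γ hγr (q ^ 2) (by rw [hβγ]; push_cast; rfl)
    push_cast at h1
    have h2 : red β ≠ 0 := right_ne_zero_of_mul_eq_one hz1
    apply mul_left_cancel₀ h2
    rw [h1, ← hredβ, pow_two]
  -- the case that the reduction of `β` is that of `q`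
  have hcase : q * z = 1 → red (q : E) = red β := by
    intro h1
    rw [hred2]
    have h2 := congrArg j h1
    rw [map_mul, map_natCast, map_one] at h2
    apply mul_left_cancel₀ hjz
    rw [hz1, mul_comm, h2]
  have hγq : γ ≠ q := by
    intro h1
    rw [h1] at hβγ
    apply hβq
    apply mul_right_cancel₀ hqE
    rw [hβγ, pow_two]
  have hm2 : m ≤ 2 := by
    by_cases h1 : q * z = 1
    · have h2 := hz2 _ (add_le_roots Φ hβq) fun y hy => by
        rcases Multiset.mem_add.1 hy with h3 | h3
        · rw [Multiset.eq_of_mem_replicate h3]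
        · rw [Multiset.eq_of_mem_replicate h3, hcase h1]
      rw [Multiset.card_add, Multiset.card_replicate, Multiset.card_replicate] at h2
      change m + _ ≤ mult R z at h2
      omega
    · exact hmz.trans (hz5 h1)
  have hββ : β = γ := by
    by_contra hne
    by_cases h1 : q * z = 1
    · have h2 := hz2 _ (add_add_le_roots Φ hne hβq hγq) fun y hy => by
        rcases Multiset.mem_add.1 hy with h3 | h3
        · rcases Multiset.mem_add.1 h3 with h4 | h4
          · rw [Multiset.eq_of_mem_replicate h4]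
          · rw [Multiset.eq_of_mem_replicate h4, hredγ]
        · rw [Multiset.eq_of_mem_replicate h3, hcase h1]
      rw [Multiset.card_add, Multiset.card_add, Multiset.card_replicate,
        Multiset.card_replicate, Multiset.card_replicate] at h2
      change m + _ + _ ≤ mult R z at h2
      omega
    · have h2 := hz2 _ (add_le_roots Φ hne) fun y hy => by
        rcases Multiset.mem_add.1 hy with h3 | h3
        · rw [Multiset.eq_of_mem_replicate h3]
        · rw [Multiset.eq_of_mem_replicate h3, hredγ]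
      rw [Multiset.card_add, Multiset.card_replicate, Multiset.card_replicate] at h2
      change m + _ ≤ mult R z at h2
      have := hz5 h1
      omega
  rw [← hββ] at hβγ
  refine eigen_of_defect h2E hB hs hnd hβγ hβ0 ⊥ ?_ ?_ ?_
  · intro x hx
    rw [(Submodule.mem_bot E).1 hx, map_zero, smul_zero]
  · intro x hx _
    exact (Submodule.mem_bot E).1 hx
  · rw [finrank_bot]
    exact hm2

/-- **Semisimplicity of the eigenvalue `q`.** -/
theorem tate_criterion (Φ : Module.End E W) (T : ℕ → ℤ)
    (hT : ∀ n, 1 ≤ n → LinearMap.trace E W (Φ ^ n) = T n)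
    (R : (ZMod ℓ)[X]) (h0 : R.coeff 0 = 1)
    (hdim : R.natDegree = Module.finrank E W) (S : PowerSeries (ZMod ℓ))
    (hS : IsLog (R : PowerSeries (ZMod ℓ)) S)
    (hTS : ∀ n, 1 ≤ n → PowerSeries.coeff n S = T n) (q : ℕ) (hq : q ≠ 0)
    (B : W →ₗ[E] W →ₗ[E] E) (hB : ∀ x y, B (Φ x) (Φ y) = (q : E) ^ 2 * B x y)
    (hs : ∀ x y, B x y = B y x) (hnd : ∀ x, (∀ y, B x y = 0) → x = 0)
    (N : Submodule E W) (hN : ∀ x ∈ N, Φ x = (q : E) • x)
    (hNd : ∀ x ∈ N, (∀ y ∈ N, B x y = 0) → x = 0)
    (hlt : ∀ y : AlgebraicClosure (ZMod ℓ), mult R y < ℓ)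
    (hmult : ∀ y : AlgebraicClosure (ZMod ℓ), q * y = 1 → mult R y ≤ 2 + finrank E N) :
    Φ.maxGenEigenspace q = Φ.eigenspace q := by
  classical
  obtain ⟨k, _, _, j, red, hred1, hred2, hred3⟩ :=
    exists_red Φ T hT R h0 hdim S hS hTS hlt
  have hqE : (q : E) ≠ 0 := Nat.cast_ne_zero.2 hq
  apply le_antisymm
  · intro x hx
    rw [Module.End.mem_eigenspace_iff]
    refine eigen_of_defect two_ne_zero hB hs hnd (by ring) hqE N hN hNd ?_ x hx
    rcases Nat.eq_zero_or_pos (finrank E (Φ.maxGenEigenspace (q : E))) with h | h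
    · rw [h]
      exact Nat.zero_le _
    have hr := mem_roots_of_pos Φ _ h
    obtain ⟨z, hz1, hz2⟩ := hred3 _ hr
    have h1 := hz2 _ (replicate_le_roots Φ (q : E)) fun y hy => by
      rw [Multiset.eq_of_mem_replicate hy]
    rw [Multiset.card_replicate] at h1
    refine h1.trans (hmult z ?_)
    rw [hred2] at hz1
    apply j.injective
    rw [map_mul, map_natCast, map_one, mul_comm]
    exact hz1
  · exact Module.End.eigenspace_le_maxGenEigenspace

end

end Pool.Agent.R942.ES
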