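import Pool.Agent.R942.ES.Curves

/-!
# The number of points of Weierstrass curves with a point of order five or seven
-/

set_option autoImplicit false

namespace Pool.Agent.R942.ES

open WeierstrassCurve.Affine

/-! ### The order five -/

section Five

variable {L : Type} [Field L]

/-- The curves `y² + (v - u) x y - u v² y = x³ - u v x²`. -/
def curve5 (u v : L) : WeierstrassCurve L := ⟨v - u, -(u * v), -(u * v ^ 2), 0, 0⟩

/-- The curve `y² + (1 - c) x y - c y = x³ - c x²`. -/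
def w5 (c : L) : WeierstrassCurve L := ⟨1 - c, -c, -c, 0, 0⟩

lemma curve5_disc (u v : L) :
    (curve5 u v).Δ = u ^ 5 * v ^ 5 * (u ^ 2 - 11 * u * v - v ^ 2) := by
  simp only [WeierstrassCurve.Δ, WeierstrassCurve.b₂, WeierstrassCurve.b₄, WeierstrassCurve.b₆,
    WeierstrassCurve.b₈, curve5]
  ring

lemma w5_disc (c : L) : (w5 c).Δ = c ^ 5 * (c ^ 2 - 11 * c - 1) := by
  simp only [WeierstrassCurve.Δ, WeierstrassCurve.b₂, WeierstrassCurve.b₄, WeierstrassCurve.b₆,
    WeierstrassCurve.b₈, w5]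
  ring

lemma nonsing_w5 {c : L} (hc : c ≠ 0) : (w5 c).toAffine.Nonsingular 0 0 := by
  rw [nonsing_iff]
  simp only [w5]
  refine ⟨by ring, Or.inr ?_⟩
  simpa using hc

/-- The point of order five. -/
lemma order_five [DecidableEq L] {c : L} (hc : c ≠ 0) :
    5 • (Point.some 0 0 (nonsing_w5 hc) : (w5 c).toAffine.Point) = 0 := by
  have h1 : (w5 c).toAffine.Nonsingular c (c ^ 2) := by
    rw [nonsing_iff]
    simp only [w5]
    refine ⟨by ring, Or.inr ?_⟩
    have : 2 * c ^ 2 + (1 - c) * c + -c = c ^ 2 := by ring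
    rw [this]
    exact pow_ne_zero 2 hc
  have h2 : (w5 c).toAffine.Nonsingular c 0 := by
    rw [nonsing_iff]
    simp only [w5]
    refine ⟨by ring, Or.inr ?_⟩
    have : 2 * 0 + (1 - c) * c + -c = - c ^ 2 := by ring
    rw [this]
    exact neg_ne_zero.2 (pow_ne_zero 2 hc)
  set P : (w5 c).toAffine.Point := Point.some 0 0 (nonsing_w5 hc) with hP
  have hy : (0 : L) ≠ (w5 c).toAffine.negY 0 0 := by
    simp only [negY, w5]
    simpa using hc.symm
  have hPP : P + P = Point.some c (c ^ 2) h1 := by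
    rw [hP, Point.add_self_of_Y_ne hy]
    have hs : (w5 c).toAffine.slope 0 0 0 0 = 0 := by
      rw [slope_of_Y_ne rfl hy]
      simp [w5]
    rw [Point.some.injEq, hs]
    constructor
    · simp [addX, w5]
    · simp only [addY, negAddY, negY, addX, w5]
      ring
  have hPPP : P + (P + P) = Point.some c 0 h2 := by
    rw [hPP]
    have hx : (0 : L) ≠ c := hc.symm
    rw [hP, Point.add_of_X_ne hx]
    have hs : (w5 c).toAffine.slope 0 c 0 (c ^ 2) = c := by
      rw [slope_of_X_ne hx]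
      field_simp
      ring
    rw [Point.some.injEq, hs]
    constructor
    · simp only [addX, w5]
      ring
    · simp only [addY, negAddY, negY, addX, w5]
      ring
  have hneg : -(P + P) = Point.some c 0 h2 := by
    rw [hPP, Point.neg_some, Point.some.injEq]
    refine ⟨rfl, ?_⟩
    simp only [negY, w5]
    ring
  have h5 : (5 : ℕ) • P = P + (P + P) + (P + P) := by
    rw [show (5 : ℕ) = 1 + (1 + 1) + (1 + 1) by norm_num, add_smul, add_smul, add_smul, one_smul]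
  rw [h5, hPPP, ← hneg, neg_add_cancel]

lemma curve5_scale [Fintype L] {u v : L} (hv : v ≠ 0) : cnt (curve5 u v) = cnt (w5 (u / v)) := by
  refine cnt_scale (w5 (u / v)) (curve5 u v) hv ?_ ?_ ?_ ?_ ?_ <;> simp only [curve5, w5] <;>
    field_simp <;> ring

variable [Fintype L]

lemma cnt5_good {u v : L} (hu : u ≠ 0) (hv : v ≠ 0) (hd : u ^ 2 - 11 * u * v - v ^ 2 ≠ 0) :
    5 ∣ cnt (curve5 u v) + 1 := by
  classical
  haveI : Fact (Nat.Prime 5) := ⟨Nat.prime_five⟩
  rw [curve5_scale hv]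
  refine cnt_good ?_ _ (Point.some_ne_zero _) (order_five (div_ne_zero hu hv))
  rw [w5_disc]
  refine mul_ne_zero (pow_ne_zero 5 (div_ne_zero hu hv)) ?_
  intro h
  apply hd
  field_simp at h
  linear_combination h

lemma cnt5_bad {u v : L} (h5 : (5 : L) ≠ 0) (hu : u ≠ 0) (hv : v ≠ 0)
    (hd : u ^ 2 - 11 * u * v - v ^ 2 = 0) : 5 ∣ cnt (curve5 u v) := by
  classical
  haveI : Fact (Nat.Prime 5) := ⟨Nat.prime_five⟩
  rw [curve5_scale hv]
  have hc := div_ne_zero hu hv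
  have hd' : (u / v) ^ 2 - 11 * (u / v) - 1 = 0 := by
    field_simp
    linear_combination hd
  generalize u / v = c at hc hd'
  have h125 : (125 : L) ≠ 0 := by
    have := pow_ne_zero 3 h5
    norm_num at this
    exact this
  have h25 : (25 : L) ≠ 0 := by
    have := pow_ne_zero 2 h5
    norm_num at this
    exact this
  obtain ⟨x, hx⟩ : ∃ x : L, 5 * x + 3 * c + 1 = 0 := ⟨-(3 * c + 1) / 5, by field_simp; ring⟩
  obtain ⟨y, hy⟩ : ∃ y : L, 5 * y + 13 * c + 1 = 0 := ⟨-(13 * c + 1) / 5, by field_simp; ring⟩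
  refine cnt_bad (x₁ := x) (y₁ := y) ?_ ?_ _ (Point.some_ne_zero _) (order_five hc)
  · rw [eqn_iff]
    simp only [w5]
    rw [← sub_eq_zero]
    apply (mul_eq_zero.1 (?_ : (125 : L) * _ = 0)).resolve_left h125
    linear_combination (5 * (5 * y + 13 * c + 1) + 5 * (1 - c) * (5 * x + 3 * c + 1) +
      15 * (c ^ 2 - 11 * c - 1)) * hy + (-(5 * x + 3 * c + 1) ^ 2 +
      (14 * c + 3) * (5 * x + 3 * c + 1) + 8 * (c ^ 2 - 11 * c - 1)) * hx +
      (-123 * c - 11) * hd'
  · rw [nonsing_iff]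
    rintro ⟨-, h | h⟩
    · apply h
      simp only [w5]
      apply (mul_eq_zero.1 (?_ : (25 : L) * _ = 0)).resolve_left h25
      linear_combination 5 * (1 - c) * hy + (-3 * (5 * x + 3 * c + 1) + 2 * (14 * c + 3)) * hx +
        8 * hd'
    · apply h
      simp only [w5]
      apply (mul_eq_zero.1 (?_ : (5 : L) * _ = 0)).resolve_left h5
      linear_combination 2 * hy + (1 - c) * hx + 3 * hd'

lemma cnt5_zero {u v : L} (h : u ≠ 0 ∨ v ≠ 0) (huv : u * v = 0) :
    cnt (curve5 u v) + 1 = Fintype.card L := by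
  rcases mul_eq_zero.1 huv with h0 | h0
  · have hv : v ≠ 0 := by
      rcases h with h | h
      · exact absurd h0 h
      · exact h
    have h1 : curve5 u v = ⟨v, 0, 0, 0, 0⟩ := by
      rw [h0]
      simp [curve5]
    rw [h1]
    exact cnt_split hv
  · have hu : u ≠ 0 := by
      rcases h with h | h
      · exact h
      · exact absurd h0 h
    have h1 : curve5 u v = ⟨-u, 0, 0, 0, 0⟩ := by
      rw [h0]
      simp [curve5]
    rw [h1]
    exact cnt_split (neg_ne_zero.2 hu)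

end Five

/-! ### The order seven -/

section Seven

variable {L : Type} [Field L]

/-- The curves `y² + (v² + u v - u²) x y + u² v³ (v - u) y = x³ + u² v (v - u) x²`. -/
def curve7 (u v : L) : WeierstrassCurve L :=
  ⟨v ^ 2 + u * v - u ^ 2, u ^ 2 * v * (v - u), u ^ 2 * v ^ 3 * (v - u), 0, 0⟩

/-- The curve `y² + (1 + c - c²) x y + (c² - c³) y = x³ + (c² - c³) x²`. -/
def w7 (c : L) : WeierstrassCurve L := ⟨1 + c - c ^ 2, c ^ 2 - c ^ 3, c ^ 2 - c ^ 3, 0, 0⟩

lemma curve7_disc (u v : L) :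
    (curve7 u v).Δ = u ^ 7 * v ^ 7 * (u - v) ^ 7 *
      (u ^ 3 - 8 * u ^ 2 * v + 5 * u * v ^ 2 + v ^ 3) := by
  simp only [WeierstrassCurve.Δ, WeierstrassCurve.b₂, WeierstrassCurve.b₄, WeierstrassCurve.b₆,
    WeierstrassCurve.b₈, curve7]
  ring

lemma w7_disc (c : L) : (w7 c).Δ = c ^ 7 * (c - 1) ^ 7 * (c ^ 3 - 8 * c ^ 2 + 5 * c + 1) := by
  simp only [WeierstrassCurve.Δ, WeierstrassCurve.b₂, WeierstrassCurve.b₄, WeierstrassCurve.b₆,
    WeierstrassCurve.b₈, w7]
  ring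

lemma nonsing_w7 {c : L} (hc : c ≠ 0) (hc1 : c - 1 ≠ 0) : (w7 c).toAffine.Nonsingular 0 0 := by
  rw [nonsing_iff]
  simp only [w7]
  refine ⟨by ring, Or.inr ?_⟩
  intro h
  have h1 : c ^ 2 * (c - 1) = 0 := by linear_combination - h
  exact mul_ne_zero (pow_ne_zero 2 hc) hc1 h1

/-- The point of order seven. -/
lemma order_seven [DecidableEq L] {c : L} (hc : c ≠ 0) (hc1 : c - 1 ≠ 0) :
    7 • (Point.some 0 0 (nonsing_w7 hc hc1) : (w7 c).toAffine.Point) = 0 := by
  have hb : c ^ 3 - c ^ 2 ≠ 0 := by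
    have : c ^ 3 - c ^ 2 = c ^ 2 * (c - 1) := by ring
    rw [this]
    exact mul_ne_zero (pow_ne_zero 2 hc) hc1
  have he : c ^ 2 - c ≠ 0 := by
    have : c ^ 2 - c = c * (c - 1) := by ring
    rw [this]
    exact mul_ne_zero hc hc1
  -- `2 P`, `3 P`, `4 P`
  have h2 : (w7 c).toAffine.Nonsingular (c ^ 3 - c ^ 2) (c ^ 3 * (c - 1) ^ 2) := by
    rw [nonsing_iff]
    simp only [w7]
    refine ⟨by ring, Or.inr ?_⟩
    have : 2 * (c ^ 3 * (c - 1) ^ 2) + (1 + c - c ^ 2) * (c ^ 3 - c ^ 2) + (c ^ 2 - c ^ 3) =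
      c ^ 3 * (c - 1) ^ 2 * 1 := by ring
    rw [this]
    exact mul_ne_zero (mul_ne_zero (pow_ne_zero 3 hc) (pow_ne_zero 2 hc1)) one_ne_zero
  have h3 : (w7 c).toAffine.Nonsingular (c ^ 2 - c) (c * (c - 1) ^ 2) := by
    rw [nonsing_iff]
    simp only [w7]
    refine ⟨by ring, Or.inr ?_⟩
    have : 2 * (c * (c - 1) ^ 2) + (1 + c - c ^ 2) * (c ^ 2 - c) + (c ^ 2 - c ^ 3) =
      - (c * (c - 1) ^ 3) := by ring
    rw [this]
    exact neg_ne_zero.2 (mul_ne_zero hc (pow_ne_zero 3 hc1))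
  have h4 : (w7 c).toAffine.Nonsingular (c ^ 2 - c) ((c ^ 2 - c) ^ 2) := by
    rw [nonsing_iff]
    simp only [w7]
    refine ⟨by ring, Or.inr ?_⟩
    have : 2 * (c ^ 2 - c) ^ 2 + (1 + c - c ^ 2) * (c ^ 2 - c) + (c ^ 2 - c ^ 3) =
      c * (c - 1) ^ 3 := by ring
    rw [this]
    exact mul_ne_zero hc (pow_ne_zero 3 hc1)
  set P : (w7 c).toAffine.Point := Point.some 0 0 (nonsing_w7 hc hc1) with hP
  have hy : (0 : L) ≠ (w7 c).toAffine.negY 0 0 := by
    simp only [negY, w7]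
    intro h
    apply hb
    linear_combination -h
  have hPP : P + P = Point.some (c ^ 3 - c ^ 2) (c ^ 3 * (c - 1) ^ 2) h2 := by
    rw [hP, Point.add_self_of_Y_ne hy]
    have hs : (w7 c).toAffine.slope 0 0 0 0 = 0 := by
      rw [slope_of_Y_ne rfl hy]
      simp [w7]
    rw [Point.some.injEq, hs]
    constructor
    · simp only [addX, w7]
      ring
    · simp only [addY, negAddY, negY, addX, w7]
      ring
  have hPPP : P + (P + P) = Point.some (c ^ 2 - c) (c * (c - 1) ^ 2) h3 := by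
    rw [hPP]
    have hx : (0 : L) ≠ c ^ 3 - c ^ 2 := hb.symm
    rw [hP, Point.add_of_X_ne hx]
    have hs : (w7 c).toAffine.slope 0 (c ^ 3 - c ^ 2) 0 (c ^ 3 * (c - 1) ^ 2) = c ^ 2 - c := by
      rw [slope_of_X_ne hx, zero_sub, zero_sub, neg_div_neg_eq, div_eq_iff hb]
      ring
    rw [Point.some.injEq, hs]
    constructor
    · simp only [addX, w7]
      ring
    · simp only [addY, negAddY, negY, addX, w7]
      ring
  have hPPPP : P + (P + (P + P)) = Point.some (c ^ 2 - c) ((c ^ 2 - c) ^ 2) h4 := by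
    rw [hPPP]
    have hx : (0 : L) ≠ c ^ 2 - c := he.symm
    rw [hP, Point.add_of_X_ne hx]
    have hs : (w7 c).toAffine.slope 0 (c ^ 2 - c) 0 (c * (c - 1) ^ 2) = c - 1 := by
      rw [slope_of_X_ne hx, zero_sub, zero_sub, neg_div_neg_eq, div_eq_iff he]
      ring
    rw [Point.some.injEq, hs]
    constructor
    · simp only [addX, w7]
      ring
    · simp only [addY, negAddY, negY, addX, w7]
      ring
  have hneg : -(P + (P + P)) = Point.some (c ^ 2 - c) ((c ^ 2 - c) ^ 2) h4 := by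
    rw [hPPP, Point.neg_some, Point.some.injEq]
    refine ⟨rfl, ?_⟩
    simp only [negY, w7]
    ring
  have h7 : (7 : ℕ) • P = P + (P + (P + P)) + (P + (P + P)) := by
    rw [show (7 : ℕ) = 1 + (1 + (1 + 1)) + (1 + (1 + 1)) by norm_num, add_smul, add_smul,
      add_smul, add_smul, one_smul]
  rw [h7, hPPPP, ← hneg, neg_add_cancel]

lemma curve7_scale [Fintype L] {u v : L} (hv : v ≠ 0) : cnt (curve7 u v) = cnt (w7 (u / v)) := by
  refine cnt_scale (w7 (u / v)) (curve7 u v) (pow_ne_zero 2 hv) ?_ ?_ ?_ ?_ ?_ <;>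
    simp only [curve7, w7] <;> field_simp <;> ring

variable [Fintype L]

lemma cnt7_good {u v : L} (hu : u ≠ 0) (hv : v ≠ 0) (huv : u - v ≠ 0)
    (hd : u ^ 3 - 8 * u ^ 2 * v + 5 * u * v ^ 2 + v ^ 3 ≠ 0) :
    7 ∣ cnt (curve7 u v) + 1 := by
  classical
  haveI : Fact (Nat.Prime 7) := ⟨by norm_num⟩
  rw [curve7_scale hv]
  have hc := div_ne_zero hu hv
  have hc1 : u / v - 1 ≠ 0 := by
    intro h
    apply huv
    field_simp at h
    linear_combination h
  refine cnt_good ?_ _ (Point.some_ne_zero _) (order_seven hc hc1)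
  rw [w7_disc]
  refine mul_ne_zero (mul_ne_zero (pow_ne_zero 7 hc) (pow_ne_zero 7 hc1)) ?_
  intro h
  apply hd
  field_simp at h
  linear_combination h

lemma cnt7_bad {u v : L} (h7 : (7 : L) ≠ 0) (hu : u ≠ 0) (hv : v ≠ 0) (huv : u - v ≠ 0)
    (hd : u ^ 3 - 8 * u ^ 2 * v + 5 * u * v ^ 2 + v ^ 3 = 0) : 7 ∣ cnt (curve7 u v) := by
  classical
  haveI : Fact (Nat.Prime 7) := ⟨by norm_num⟩
  rw [curve7_scale hv]
  have hc := div_ne_zero hu hv
  have hc1 : u / v - 1 ≠ 0 := by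
    intro h
    apply huv
    field_simp at h
    linear_combination h
  have hd' : (u / v) ^ 3 - 8 * (u / v) ^ 2 + 5 * (u / v) + 1 = 0 := by
    field_simp
    linear_combination hd
  generalize u / v = c at hc hc1 hd'
  have h343 : (7 : L) ^ 3 ≠ 0 := pow_ne_zero 3 h7
  have h49 : (7 : L) ^ 2 ≠ 0 := pow_ne_zero 2 h7
  obtain ⟨x, hx⟩ : ∃ x : L, 7 * x = 1 + 8 * c - 12 * c ^ 2 :=
    ⟨(1 + 8 * c - 12 * c ^ 2) / 7, by field_simp⟩
  obtain ⟨y, hy⟩ : ∃ y : L, 7 * y = 34 + 174 * c - 247 * c ^ 2 :=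
    ⟨(34 + 174 * c - 247 * c ^ 2) / 7, by field_simp⟩
  refine cnt_bad (x₁ := x) (y₁ := y) ?_ ?_ _ (Point.some_ne_zero _) (order_seven hc hc1)
  · rw [eqn_iff]
    simp only [w7]
    rw [← sub_eq_zero]
    apply (mul_eq_zero.1 (?_ : (7 : L) ^ 3 * _ = 0)).resolve_left h343
    have e : (7 : L) ^ 3 * (y ^ 2 + (1 + c - c ^ 2) * x * y + (c ^ 2 - c ^ 3) * y -
        (x ^ 3 + (c ^ 2 - c ^ 3) * x ^ 2 + 0 * x + 0)) =
        7 * (7 * y) ^ 2 + 7 * (1 + c - c ^ 2) * (7 * x) * (7 * y) +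
          49 * (c ^ 2 - c ^ 3) * (7 * y) - (7 * x) ^ 3 - 7 * (c ^ 2 - c ^ 3) * (7 * x) ^ 2 := by
      ring
    rw [e, hx, hy]
    linear_combination (8329 + 44515 * c - 52037 * c ^ 2 - 13308 * c ^ 3 + 1008 * c ^ 4) * hd'
  · rw [nonsing_iff]
    rintro ⟨-, h | h⟩
    · apply h
      simp only [w7]
      apply (mul_eq_zero.1 (?_ : (7 : L) ^ 2 * _ = 0)).resolve_left h49
      have e : (7 : L) ^ 2 * ((1 + c - c ^ 2) * y -
          (3 * x ^ 2 + 2 * (c ^ 2 - c ^ 3) * x + 0)) =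
          7 * (1 + c - c ^ 2) * (7 * y) - (3 * (7 * x) ^ 2 + 14 * (c ^ 2 - c ^ 3) * (7 * x)) := by
        ring
      rw [e, hx, hy]
      linear_combination (235 + 233 * c - 168 * c ^ 2) * hd'
    · apply h
      simp only [w7]
      apply (mul_eq_zero.1 (?_ : (7 : L) * _ = 0)).resolve_left h7
      linear_combination 2 * hy + (1 + c - c ^ 2) * hx + (69 + 12 * c) * hd'

lemma cnt7_zero {u v : L} (h : u ≠ 0 ∨ v ≠ 0) (huv : u * v * (u - v) = 0) :
    cnt (curve7 u v) + 1 = Fintype.card L := by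
  rcases mul_eq_zero.1 huv with h0 | h0
  · rcases mul_eq_zero.1 h0 with h0 | h0
    · have hv : v ≠ 0 := by
        rcases h with h | h
        · exact absurd h0 h
        · exact h
      have h1 : curve7 u v = ⟨v ^ 2, 0, 0, 0, 0⟩ := by
        rw [h0]
        simp [curve7]
      rw [h1]
      exact cnt_split (pow_ne_zero 2 hv)
    · have hu : u ≠ 0 := by
        rcases h with h | h
        · exact h
        · exact absurd h0 h
      have h1 : curve7 u v = ⟨-u ^ 2, 0, 0, 0, 0⟩ := by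
        rw [h0]
        simp [curve7]
      rw [h1]
      exact cnt_split (neg_ne_zero.2 (pow_ne_zero 2 hu))
  · have h2 : u = v := sub_eq_zero.1 h0
    have hv : v ≠ 0 := by
      rcases h with h | h
      · rwa [h2] at h
      · exact h
    have h1 : curve7 u v = ⟨v ^ 2, 0, 0, 0, 0⟩ := by
      rw [h2]
      simp only [curve7, WeierstrassCurve.mk.injEq]
      refine ⟨by ring, by ring, by ring, trivial, trivial⟩
    rw [h1]
    exact cnt_split (pow_ne_zero 2 hv)

end Seven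

end Pool.Agent.R942.ES
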