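import Pool.Agent.R942.ES.Places
import Pool.Agent.R942.ES.Curves2

/-!
# Elliptic surfaces over the projective line with a section of prime order: definitions
-/

set_option autoImplicit false

namespace Pool.Agent.R942.ES

open Polynomial Module

section

variable {κ : Type} [Field κ]

/-- A family of Weierstrass curves over the projective line over `κ`, with the section `P = (0, 0)` of
order `ℓ`.

* `fibre L t` is the Weierstrass equation of the fibre over the point `t` of the projective line over
  the extension `L` (`none` is the point at infinity);
* `a` is the family of the degrees of the closed points of the projective line over which the section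
  `P` meets the singular point of the fibre;
* `b` is the family of the degrees of the closed points over which the fibre is singular and the
  section `P` does not meet the singular point. -/
structure Surface (κ : Type) [Field κ] : Type 1 where
  ℓ : ℕ
  fibre : ∀ (L : Type) [Field L] [Algebra κ L], Option L → WeierstrassCurve L
  a : Multiset ℕ
  b : Multiset ℕ

/-- `u` and `v` are forms of degree `n` and `k` in two variables, written as polynomials in one
variable, without common zeros on the projective line. -/
structure IsFormPair (n k : ℕ) (u v : κ[X]) : Prop where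
  degree_u : u.natDegree ≤ n
  degree_v : v.natDegree ≤ k
  coprime : IsCoprime u v
  infinity : u.coeff n ≠ 0 ∨ v.coeff k ≠ 0

/-- The surface `y² = x³ + u x² + v x`, with the section `(0, 0)` of order two. -/
noncomputable def order2 (m : ℕ) (u v : κ[X]) : Surface κ where
  ℓ := 2
  fibre L _ _ t := curve2 (value (2 * m) u L t) (value (4 * m) v L t)
  a := places (4 * m) v
  b := places (4 * m) (u ^ 2 - 4 * v)

/-- The surface `y² + u x y + v y = x³`, with the section `(0, 0)` of order three. -/
noncomputable def order3 (m : ℕ) (u v : κ[X]) : Surface κ where
  ℓ := 3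
  fibre L _ _ t := curve3 (value m u L t) (value (3 * m) v L t)
  a := places (3 * m) v
  b := places (3 * m) (u ^ 3 - 27 * v)

/-- The surface `y² + (v - u) x y - u v² y = x³ - u v x²`, with the section `(0, 0)` of order five. -/
noncomputable def order5 (m : ℕ) (u v : κ[X]) : Surface κ where
  ℓ := 5
  fibre L _ _ t := curve5 (value m u L t) (value m v L t)
  a := places (2 * m) (u * v)
  b := places (2 * m) (u ^ 2 - 11 * (u * v) - v ^ 2)

/-- The surface `y² + (v² + u v - u²) x y + u² v³ (v - u) y = x³ + u² v (v - u) x²`, with the section
`(0, 0)` of order seven. -/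
noncomputable def order7 (m : ℕ) (u v : κ[X]) : Surface κ where
  ℓ := 7
  fibre L _ _ t := curve7 (value m u L t) (value m v L t)
  a := places (3 * m) (u * v * (u - v))
  b := places (3 * m) (u ^ 3 - 8 * (u ^ 2 * v) + 5 * (u * v ^ 2) + v ^ 3)

/-- The semistable elliptic surfaces over the projective line with a section of prime order `ℓ`
different from the characteristic, in the normal form of Tate. All prime orders that are possible for
surfaces that are not constant occur, and for `ℓ ≥ 5` the surface is always semistable. -/
inductive HasSection : Surface κ → Prop
  | two (m : ℕ) (u v : κ[X]) (hp : (2 : κ) ≠ 0) (h : IsFormPair (2 * m) (4 * m) u v)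
      (hv : v ≠ 0) (hd : u ^ 2 - 4 * v ≠ 0) : HasSection (order2 m u v)
  | three (m : ℕ) (u v : κ[X]) (hp : (3 : κ) ≠ 0) (h : IsFormPair m (3 * m) u v)
      (hv : v ≠ 0) (hd : u ^ 3 - 27 * v ≠ 0) : HasSection (order3 m u v)
  | five (m : ℕ) (u v : κ[X]) (hp : (5 : κ) ≠ 0) (h : IsFormPair m m u v)
      (hv : u * v ≠ 0) (hd : u ^ 2 - 11 * (u * v) - v ^ 2 ≠ 0) : HasSection (order5 m u v)
  | seven (m : ℕ) (u v : κ[X]) (hp : (7 : κ) ≠ 0) (h : IsFormPair m m u v)
      (hv : u * v * (u - v) ≠ 0)
      (hd : u ^ 3 - 8 * (u ^ 2 * v) + 5 * (u * v ^ 2) + v ^ 3 ≠ 0) : HasSection (order7 m u v)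

/-- The number of points over `L` of the Weierstrass model outside of the zero section. -/
noncomputable def Surface.points (S : Surface κ) (L : Type) [Field L] [Algebra κ L] : ℕ :=
  Nat.card {x : Option L × L × L // (S.fibre L x.1).toAffine.Equation x.2.1 x.2.2}

/-- The number of geometric points of the projective line with a singular fibre. -/
noncomputable def Surface.singularFibres (S : Surface κ) : ℕ :=
  {t : Option (AlgebraicClosure κ) | (S.fibre (AlgebraicClosure κ) t).Δ = 0}.ncard

/-- `W` is the part of the second `ℓ'`-adic cohomology of the (minimal, smooth, projective) elliptic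
surface that is orthogonal to the classes of the zero section and of the components of the fibres,
with coefficients extended to the algebraically closed field `E`; `Φ` is the Frobenius of `κ` on it and
`B` the cup product.

* `lefschetz`: the trace formula of Grothendieck and Lefschetz. The number of points over `L` of the
  elliptic surface is `1 + |L|² + tr (Φ | H²)`. The contributions of the components of the fibres that
  do not meet the zero section cancel, and one obtains
  `tr (Φ ^ [L : κ] | W) = points - |L| (|L| + 1)`, where `points` is the number of points of the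
  Weierstrass model outside of the zero section.
* `dimension`: the Euler characteristic of the surface is the degree of the discriminant, so that
  `dim W + 4` is the number of singular fibres (all of them are multiplicative).
* the cup product is symmetric, nondegenerate, and multiplied by `q²` by the Frobenius. -/
structure IsCohomology [Fintype κ] (S : Surface κ) {E W : Type} [Field E] [AddCommGroup W]
    [Module E W] (Φ : Module.End E W) (B : W →ₗ[E] W →ₗ[E] E) : Prop where
  lefschetz : ∀ (L : Type) [Field L] [Fintype L] [Algebra κ L],
    LinearMap.trace E W (Φ ^ finrank κ L) =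
      (S.points L : E) - (Fintype.card L : E) * ((Fintype.card L : E) + 1)
  dimension : finrank E W + 4 = S.singularFibres
  similitude : ∀ x y, B (Φ x) (Φ y) = (Fintype.card κ : E) ^ 2 * B x y
  symmetric : ∀ x y, B x y = B y x
  nondegenerate : ∀ x, (∀ y, B x y = 0) → x = 0

/-- `R` is the polynomial
`∏_{v of type a} (1 - (q T) ^ deg v) ∏_{v of type b} (1 - T ^ deg v) / ((1 - T) (1 - q T)² (1 - q² T))`
over the field with `ℓ` elements: the `L`-function of the elliptic surface modulo `ℓ`. -/
def IsLFunction [Fintype κ] (S : Surface κ) (R : (ZMod S.ℓ)[X]) : Prop :=
  R * ((1 - X) * (1 - (Fintype.card κ : (ZMod S.ℓ)[X]) * X) ^ 2 *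
      (1 - (Fintype.card κ : (ZMod S.ℓ)[X]) ^ 2 * X)) =
    (S.a.map fun d => 1 - ((Fintype.card κ : (ZMod S.ℓ)[X]) * X) ^ d).prod *
      (S.b.map fun d => (1 - X ^ d : (ZMod S.ℓ)[X])).prod

end

end Pool.Agent.R942.ES
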