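import Pool.Agent.R942.ES.Global

/-!
# Elliptic surfaces with a section of prime order: explicit conditions on the degrees
-/

set_option autoImplicit false

namespace Pool.Agent.R942.ES

open Polynomial Module

/-- The numbers in `a` are odd, not divisible by `ℓ`, and pairwise coprime. -/
def IsSpread (ℓ : ℕ) (a : Multiset ℕ) : Prop :=
  (∀ d ∈ a, Odd d ∧ ¬ ℓ ∣ d) ∧ a.Pairwise Nat.Coprime

/-- Conditions on the degrees of the closed points with singular fibres:

* `ℓ = 2`, there are four or five such points, with odd pairwise coprime degrees, or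
* `ℓ` is odd and `q ≡ -1` modulo `ℓ`, and there are two, three or four points of each of the two
  types, with odd degrees, pairwise coprime for each type, and prime to `ℓ`, or
* `ℓ` is odd and `q² ≡ -1` modulo `ℓ`, there are two, three or four points of type `a`, with
  degrees as before, and one or two points of type `b`, the halves of whose degrees are odd, coprime
  and prime to `ℓ`. -/
def IsAdmissible (q ℓ : ℕ) (a b : Multiset ℕ) : Prop :=
  (ℓ = 2 ∧ IsSpread ℓ (a + b) ∧ 4 ≤ (a + b).card ∧ (a + b).card ≤ 5) ∨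
  (ℓ ≠ 2 ∧ ℓ ∣ q + 1 ∧ IsSpread ℓ a ∧ IsSpread ℓ b ∧ 2 ≤ a.card ∧ a.card ≤ 4 ∧
    2 ≤ b.card ∧ b.card ≤ 4) ∨
  (ℓ ≠ 2 ∧ ℓ ∣ q ^ 2 + 1 ∧ IsSpread ℓ a ∧ 2 ≤ a.card ∧ a.card ≤ 4 ∧
    ∃ c : Multiset ℕ, b = c.map (fun d => 2 * d) ∧ IsSpread ℓ c ∧ 1 ≤ c.card ∧ c.card ≤ 2)

section

variable {ℓ : ℕ} [hℓ : Fact ℓ.Prime]

lemma mult_mul {R Q : (ZMod ℓ)[X]} (hR : R ≠ 0) (hQ : Q ≠ 0) (y : AlgebraicClosure (ZMod ℓ)) :
    mult (R * Q) y = mult R y + mult Q y := by
  have h1 := (algebraMap (ZMod ℓ) (AlgebraicClosure (ZMod ℓ))).injective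
  rw [mult, Polynomial.map_mul, rootMultiplicity_mul]
  · rfl
  · exact mul_ne_zero ((Polynomial.map_ne_zero_iff h1).2 hR) ((Polynomial.map_ne_zero_iff h1).2 hQ)

lemma factor_ne_zero {c : ZMod ℓ} {d : ℕ} (hd : d ≠ 0) :
    (1 - C (c ^ d) * X ^ d : (ZMod ℓ)[X]) ≠ 0 := by
  intro h
  have h1 := congrArg (fun P : (ZMod ℓ)[X] => P.eval 0) h
  simp [hd] at h1

open Classical in
lemma mult_factor {c : ZMod ℓ} (hc : c ≠ 0) {d : ℕ} (hd : ¬ ℓ ∣ d)
    (y : AlgebraicClosure (ZMod ℓ)) :
    mult (1 - C (c ^ d) * X ^ d : (ZMod ℓ)[X]) y =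
      if (algebraMap (ZMod ℓ) (AlgebraicClosure (ZMod ℓ)) c * y) ^ d = 1 then 1 else 0 := by
  have hd0 : d ≠ 0 := by
    rintro rfl
    exact hd (dvd_zero ℓ)
  have h1 := (algebraMap (ZMod ℓ) (AlgebraicClosure (ZMod ℓ))).injective
  have hne : (1 - C (c ^ d) * X ^ d : (ZMod ℓ)[X]).map (algebraMap (ZMod ℓ) (AlgebraicClosure (ZMod ℓ))) ≠ 0 :=
    (Polynomial.map_ne_zero_iff h1).2 (factor_ne_zero hd0)
  have heval : ∀ y : AlgebraicClosure (ZMod ℓ), ((1 - C (c ^ d) * X ^ d : (ZMod ℓ)[X]).map (algebraMap (ZMod ℓ) (AlgebraicClosure (ZMod ℓ)))).eval y =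
      1 - (algebraMap (ZMod ℓ) (AlgebraicClosure (ZMod ℓ)) c * y) ^ d := by
    intro y
    simp [mul_pow]
  by_cases h : (algebraMap (ZMod ℓ) (AlgebraicClosure (ZMod ℓ)) c * y) ^ d = 1
  · rw [if_pos h]
    apply le_antisymm
    · by_contra hcon
      rw [not_le, mult, one_lt_rootMultiplicity_iff_isRoot hne] at hcon
      have h2 := hcon.2
      rw [IsRoot.def, derivative_map, eval_map] at h2
      have h3 : derivative (1 - C (c ^ d) * X ^ d : (ZMod ℓ)[X]) =
          - (C (c ^ d * d) * X ^ (d - 1)) := by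
        rw [derivative_sub, derivative_one, derivative_C_mul_X_pow, zero_sub]
      rw [h3, eval₂_neg, eval₂_mul, eval₂_C, eval₂_pow, eval₂_X, neg_eq_zero, mul_eq_zero] at h2
      rcases h2 with h2 | h2
      · rw [map_eq_zero_iff _ h1, mul_eq_zero] at h2
        rcases h2 with h2 | h2
        · exact pow_ne_zero d hc h2
        · exact hd ((ZMod.natCast_eq_zero_iff _ _).1 h2)
      · have h4 : y = 0 := by
          by_contra hy
          exact pow_ne_zero _ hy h2
        rw [h4, mul_zero, zero_pow hd0] at h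
        exact zero_ne_one h
    · rw [Nat.one_le_iff_ne_zero, ← Nat.pos_iff_ne_zero, mult, rootMultiplicity_pos hne,
        IsRoot.def, heval, h, sub_self]
  · rw [if_neg h, mult]
    apply rootMultiplicity_eq_zero
    rw [IsRoot.def, heval, sub_eq_zero]
    exact fun h2 => h h2.symm

open Classical in
/-- The multiplicity of a root of the product over the places. -/
lemma mult_fac {c : ZMod ℓ} (hc : c ≠ 0) {a : Multiset ℕ} (ha : ∀ d ∈ a, ¬ ℓ ∣ d)
    (y : AlgebraicClosure (ZMod ℓ)) : mult (fac c a) y =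
      (a.filter fun d => (algebraMap (ZMod ℓ) (AlgebraicClosure (ZMod ℓ)) c * y) ^ d = 1).card := by
  induction a using Multiset.induction_on with
  | empty =>
    rw [fac, Multiset.map_zero, Multiset.prod_zero, Multiset.filter_zero, Multiset.card_zero, mult,
      Polynomial.map_one]
    apply rootMultiplicity_eq_zero
    rw [IsRoot.def, eval_one]
    exact one_ne_zero
  | cons d a ih =>
    have hpos : ∀ e : ℕ, ¬ ℓ ∣ e → 1 ≤ e := by
      intro e he
      by_contra hcon
      apply he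
      have : e = 0 := by omega
      rw [this]
      exact dvd_zero ℓ
    have h1 : fac c (d ::ₘ a) = (1 - C (c ^ d) * X ^ d) * fac c a := by
      rw [fac, Multiset.map_cons, Multiset.prod_cons]
      rfl
    have hd := ha d (Multiset.mem_cons_self d a)
    have ha' : ∀ e ∈ a, ¬ ℓ ∣ e := fun e he => ha e (Multiset.mem_cons_of_mem he)
    have hd1 := hpos d hd
    rw [h1, mult_mul (factor_ne_zero (by omega))
      (fac_ne_zero c fun e he => hpos e (ha' e he)), mult_factor hc hd, ih ha',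
      Multiset.filter_cons]
    split_ifs
    · rw [Multiset.card_add, Multiset.card_singleton]
    · simp

/-- If `z ≠ 1` then `z ^ d = 1` for at most one of several pairwise coprime numbers `d`. -/
lemma filter_le_one {k : Type} [Field k] {z : k} (hz : z ≠ 1) {a : Multiset ℕ}
    (ha : a.Pairwise Nat.Coprime) (p : ℕ → Prop) [DecidablePred p] (hp : ∀ d, p d → z ^ d = 1) :
    (a.filter p).card ≤ 1 := by
  obtain ⟨l, rfl, hl⟩ := ha
  rw [Multiset.filter_coe, Multiset.coe_card]
  induction l with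
  | nil => simp
  | cons d l ih =>
    rw [List.pairwise_cons] at hl
    by_cases hd : p d
    · have h1 : l.filter (fun e => p e) = [] := by
        rw [List.filter_eq_nil_iff]
        intro e he he'
        have he'' : p e := by simpa using he'
        apply hz
        have h2 := hl.1 e he
        have h3 : orderOf z ∣ Nat.gcd d e :=
          Nat.dvd_gcd (orderOf_dvd_of_pow_eq_one (hp d hd)) (orderOf_dvd_of_pow_eq_one (hp e he''))
        rw [h2] at h3
        exact orderOf_eq_one_iff.1 (Nat.dvd_one.1 h3)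
      rw [List.filter_cons_of_pos (by simpa using hd), h1]
      simp
    · rw [List.filter_cons_of_neg (by simpa using hd)]
      exact ih hl.2

lemma dvd_fac (c : ZMod ℓ) (a : Multiset ℕ) : (fac c {1}) ^ a.card ∣ fac c a := by
  induction a using Multiset.induction_on with
  | empty => simp [fac]
  | cons d a ih =>
    have h1 : fac c (d ::ₘ a) = (1 - C (c ^ d) * X ^ d) * fac c a := by
      rw [fac, Multiset.map_cons, Multiset.prod_cons]
      rfl
    have h2 : fac c {1} = 1 - C c * X := by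
      simp [fac]
    rw [Multiset.card_cons, pow_succ', h1]
    refine mul_dvd_mul ?_ ih
    rw [h2, C_pow, ← mul_pow]
    exact one_sub_dvd_one_sub_pow _ d

lemma fac_dvd_pow (c : ZMod ℓ) {a : Multiset ℕ} {n : ℕ} (h : n ≤ a.card) :
    (fac c {1}) ^ n ∣ fac c a :=
  (pow_dvd_pow _ h).trans (dvd_fac c a)

lemma fac_add (c : ZMod ℓ) (a b : Multiset ℕ) : fac c (a + b) = fac c a * fac c b := by
  rw [fac, Multiset.map_add, Multiset.prod_add]
  rfl

open Classical in
/-- The multiplicity of a root of the denominator. -/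
lemma mult_den {c : ZMod ℓ} (hc : c ≠ 0) (y : AlgebraicClosure (ZMod ℓ)) :
    mult (den c) y = (if y = 1 then 1 else 0) +
      2 * (if algebraMap (ZMod ℓ) (AlgebraicClosure (ZMod ℓ)) c * y = 1 then 1 else 0) +
      (if algebraMap (ZMod ℓ) (AlgebraicClosure (ZMod ℓ)) c ^ 2 * y = 1 then 1 else 0) := by
  have h0 : ∀ d ∈ ({1} : Multiset ℕ), ¬ ℓ ∣ d := by
    intro d hd
    rw [Multiset.mem_singleton.1 hd]
    exact hℓ.out.one_lt.ne' ∘ Nat.dvd_one.1
  have h1 : ∀ x : ZMod ℓ, fac x {1} ≠ 0 := fun x => fac_ne_zero x (by simp)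
  have h2 : ∀ x : ZMod ℓ, x ≠ 0 → mult (fac x {1}) y =
      if algebraMap (ZMod ℓ) (AlgebraicClosure (ZMod ℓ)) x * y = 1 then 1 else 0 := by
    intro x hx
    rw [mult_fac hx h0, Multiset.filter_singleton]
    simp only [pow_one]
    split_ifs
    · rfl
    · rfl
  rw [den, mult_mul (mul_ne_zero (h1 _) (pow_ne_zero 2 (h1 _))) (h1 _),
    mult_mul (h1 _) (pow_ne_zero 2 (h1 _)), pow_two, mult_mul (h1 _) (h1 _), h2 1 one_ne_zero,
    h2 c hc, h2 (c ^ 2) (pow_ne_zero 2 hc), map_one, one_mul, map_pow]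
  ring

end

end Pool.Agent.R942.ES
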