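import Pool.Agent.R942.ES.Explicit

/-!
# Elliptic surfaces with a section of prime order: the final theorems
-/

set_option autoImplicit false

namespace Pool.Agent.R942.ES

open Polynomial Module

lemma zmod_two : ∀ x : ZMod 2, x ≠ 0 → x = 1 := by decide

lemma zmod_three : ∀ x : ZMod 3, x ^ 2 ≠ -1 := by decide

section

variable {ℓ : ℕ} [hℓ : Fact ℓ.Prime]

lemma two_ne (h : ℓ ≠ 2) : (2 : AlgebraicClosure (ZMod ℓ)) ≠ 0 := by
  intro h2
  have h1 : ((2 : ℕ) : ZMod ℓ) = 0 := by
    apply (algebraMap (ZMod ℓ) (AlgebraicClosure (ZMod ℓ))).injective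
    rw [map_natCast, map_zero]
    exact_mod_cast h2
  rw [ZMod.natCast_eq_zero_iff] at h1
  exact h ((Nat.prime_dvd_prime_iff_eq hℓ.out Nat.prime_two).1 h1)

lemma neg_one_ne (h : ℓ ≠ 2) : (-1 : AlgebraicClosure (ZMod ℓ)) ≠ 1 := by
  intro h1
  apply two_ne h
  linear_combination - h1

lemma mult_eq_of_dvd {R D P : (ZMod ℓ)[X]} (h : R * D = P) (hP : P ≠ 0)
    (y : AlgebraicClosure (ZMod ℓ)) : mult R y + mult D y = mult P y := by
  have hR : R ≠ 0 := by
    rintro rfl
    rw [zero_mul] at h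
    exact hP h.symm
  have hD : D ≠ 0 := by
    rintro rfl
    rw [mul_zero] at h
    exact hP h.symm
  rw [← h, mult_mul hR hD]

lemma IsSpread.pos {a : Multiset ℕ} (h : IsSpread ℓ a) : ∀ d ∈ a, 1 ≤ d := by
  intro d hd
  have := (h.1 d hd).1.pos
  omega

lemma odd_of_coe {z : AlgebraicClosure (ZMod ℓ)} {d : ℕ} (hd : Odd d)
    (h : (-z) ^ d = 1) : z ^ d = -1 := by
  rw [hd.neg_pow] at h
  rw [← h, neg_neg]

/-- The polynomial `R` for admissible degrees. -/
theorem exists_poly {q : ℕ} (hq : (q : ZMod ℓ) ≠ 0) {a b : Multiset ℕ}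
    (h : IsAdmissible q ℓ a b) :
    ∃ R : (ZMod ℓ)[X], R * den (q : ZMod ℓ) = fac (q : ZMod ℓ) a * fac 1 b ∧
      ∀ y : AlgebraicClosure (ZMod ℓ), 1 < mult R y →
        (q * y) ^ 2 = 1 ∧ mult R y < ℓ ∧ mult R y ≤ 2 := by
  classical
  rcases h with ⟨h2, hs, h4, h5⟩ | ⟨h2, hq1, ha, hb, ha1, ha2, hb1, hb2⟩ |
    ⟨h2, hq1, ha, ha1, ha2, c, hbc, hcs, hc1, hc2⟩
  · -- `ℓ = 2`
    subst h2
    have hq1 : (q : ZMod 2) = 1 := zmod_two _ hq
    rw [hq1]
    have hden : den (1 : ZMod 2) = fac 1 {1} ^ 4 := by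
      rw [den, one_pow]
      ring
    have hprod : fac (1 : ZMod 2) a * fac 1 b = fac 1 (a + b) := (fac_add 1 a b).symm
    rw [hprod, hden]
    obtain ⟨R, hR⟩ := fac_dvd_pow (1 : ZMod 2) h4
    refine ⟨R, by rw [hR, mul_comm], fun y hy => ?_⟩
    exfalso
    have h6 := mult_eq_of_dvd (R := R) (D := den (1 : ZMod 2)) (P := fac 1 (a + b))
      (by rw [hden, hR, mul_comm]) (fac_ne_zero 1 hs.pos) y
    rw [mult_den one_ne_zero, mult_fac one_ne_zero (fun d hd => (hs.1 d hd).2), map_one, one_mul,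
      one_pow, one_mul] at h6
    by_cases hy1 : y = 1
    · rw [if_pos hy1] at h6
      have h7 := Multiset.card_le_card
        (Multiset.filter_le (fun d => y ^ d = 1) (a + b))
      omega
    · rw [if_neg hy1] at h6
      have h7 := filter_le_one hy1 hs.2 (fun d => y ^ d = 1) fun d hd => hd
      omega
  · -- `q = -1`
    have hℓ3 : 3 ≤ ℓ := by
      have := hℓ.out.two_le
      omega
    have hqc : (q : ZMod ℓ) = -1 := by
      have h3 := (ZMod.natCast_eq_zero_iff _ _).2 hq1
      push_cast at h3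
      linear_combination h3
    have hqk : (q : AlgebraicClosure (ZMod ℓ)) = -1 := by
      have h3 := congrArg (algebraMap (ZMod ℓ) (AlgebraicClosure (ZMod ℓ))) hqc
      rwa [map_natCast, map_neg, map_one] at h3
    have hmap : algebraMap (ZMod ℓ) (AlgebraicClosure (ZMod ℓ)) (q : ZMod ℓ) = -1 := by
      rw [map_natCast, hqk]
    have hden : den (q : ZMod ℓ) = fac (q : ZMod ℓ) {1} ^ 2 * fac 1 {1} ^ 2 := by
      rw [den]
      have h3 : (q : ZMod ℓ) ^ 2 = 1 := by
        rw [hqc]
        ring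
      rw [h3]
      ring
    obtain ⟨R, hR⟩ := mul_dvd_mul (fac_dvd_pow (q : ZMod ℓ) ha1) (fac_dvd_pow (1 : ZMod ℓ) hb1)
    have hR' : R * den (q : ZMod ℓ) = fac (q : ZMod ℓ) a * fac 1 b := by
      rw [hR, hden, mul_comm]
    refine ⟨R, hR', fun y hy => ?_⟩
    have h6 := mult_eq_of_dvd hR' (mul_ne_zero (fac_ne_zero _ ha.pos) (fac_ne_zero _ hb.pos)) y
    rw [mult_den hq, mult_mul (fac_ne_zero _ ha.pos) (fac_ne_zero _ hb.pos),
      mult_fac hq (fun d hd => (ha.1 d hd).2), mult_fac one_ne_zero (fun d hd => (hb.1 d hd).2),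
      map_one, hmap] at h6
    simp only [neg_mul, one_mul] at h6
    have e1 : (-1 : AlgebraicClosure (ZMod ℓ)) ^ 2 * y = y := by ring
    rw [e1] at h6
    have hca := Multiset.card_le_card (Multiset.filter_le (fun d => (-y) ^ d = 1) a)
    have hcb := Multiset.card_le_card (Multiset.filter_le (fun d => y ^ d = 1) b)
    have hqy : q * y = -y := by rw [hqk, neg_one_mul]
    by_cases hy1 : y = 1
    · have hay : (a.filter fun d => (-y) ^ d = 1) = 0 := by
        rw [Multiset.filter_eq_nil]
        intro d hd h7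
        rw [hy1, (ha.1 d hd).1.neg_pow, one_pow] at h7
        exact neg_one_ne h2 h7
      rw [hay, Multiset.card_zero, if_pos hy1] at h6
      refine ⟨?_, ?_, ?_⟩
      · rw [hqy, hy1]
        ring
      · omega
      · omega
    · by_cases hy2 : -y = 1
      · have hby : (b.filter fun d => y ^ d = 1) = 0 := by
          rw [Multiset.filter_eq_nil]
          intro d hd h7
          have h8 : y = -1 := by rw [← hy2, neg_neg]
          rw [h8, (hb.1 d hd).1.neg_one_pow] at h7
          exact neg_one_ne h2 h7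
        rw [hby, Multiset.card_zero, if_pos hy2] at h6
        refine ⟨?_, ?_, ?_⟩
        · rw [hqy, hy2]
          ring
        · omega
        · omega
      · exfalso
        rw [if_neg hy1, if_neg hy2] at h6
        have h7 := filter_le_one hy2 ha.2 (fun d => (-y) ^ d = 1) fun d hd => hd
        have h8 := filter_le_one hy1 hb.2 (fun d => y ^ d = 1) fun d hd => hd
        have h9 : 0 < (a.filter fun d => (-y) ^ d = 1).card := by omega
        have h10 : 0 < (b.filter fun d => y ^ d = 1).card := by omega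
        obtain ⟨d, hd⟩ := Multiset.card_pos_iff_exists_mem.1 h9
        obtain ⟨e, he⟩ := Multiset.card_pos_iff_exists_mem.1 h10
        rw [Multiset.mem_filter] at hd he
        have h11 := odd_of_coe (ha.1 d hd.1).1 hd.2
        have h12 : (-1 : AlgebraicClosure (ZMod ℓ)) = 1 := by
          have h13 : (y ^ d) ^ e = 1 := by rw [← pow_mul, mul_comm, pow_mul, he.2, one_pow]
          rwa [h11, (hb.1 e he.1).1.neg_one_pow] at h13
        exact neg_one_ne h2 h12
  · -- `q ^ 2 = -1`
    have hℓ3 : 3 ≤ ℓ := by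
      have := hℓ.out.two_le
      omega
    have hqc : (q : ZMod ℓ) ^ 2 = -1 := by
      have h3 := (ZMod.natCast_eq_zero_iff _ _).2 hq1
      push_cast at h3
      linear_combination h3
    have hqk : (q : AlgebraicClosure (ZMod ℓ)) ^ 2 = -1 := by
      have h3 := congrArg (algebraMap (ZMod ℓ) (AlgebraicClosure (ZMod ℓ))) hqc
      rwa [map_pow, map_natCast, map_neg, map_one] at h3
    have hqk1 : (q : AlgebraicClosure (ZMod ℓ)) ≠ 1 := by
      intro h3
      rw [h3, one_pow] at hqk
      exact neg_one_ne h2 hqk.symm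
    have hqk2 : (q : AlgebraicClosure (ZMod ℓ)) ≠ -1 := by
      intro h3
      rw [h3] at hqk
      apply neg_one_ne h2
      rw [← hqk]
      ring
    have hqk0 : (q : AlgebraicClosure (ZMod ℓ)) ≠ 0 := by
      intro h3
      rw [h3] at hqk
      have h4 : (1 : AlgebraicClosure (ZMod ℓ)) = 0 := by linear_combination hqk
      exact one_ne_zero h4
    -- four is not three
    have hℓ4 : ℓ ≠ 3 := by
      rintro rfl
      exact zmod_three _ hqc
    have hmap : algebraMap (ZMod ℓ) (AlgebraicClosure (ZMod ℓ)) (q : ZMod ℓ) = q := map_natCast _ _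
    have hbpos : ∀ d ∈ b, 1 ≤ d := by
      intro d hd
      rw [hbc, Multiset.mem_map] at hd
      obtain ⟨e, he, rfl⟩ := hd
      have := hcs.pos e he
      omega
    have hbℓ : ∀ d ∈ b, ¬ ℓ ∣ d := by
      intro d hd
      rw [hbc, Multiset.mem_map] at hd
      obtain ⟨e, he, rfl⟩ := hd
      intro h3
      rcases hℓ.out.dvd_mul.1 h3 with h4 | h4
      · exact h2 ((Nat.prime_dvd_prime_iff_eq hℓ.out Nat.prime_two).1 h4)
      · exact (hcs.1 e he).2 h4
    have hdenb : fac (1 : ZMod ℓ) {1} * fac ((q : ZMod ℓ) ^ 2) {1} ∣ fac 1 b := by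
      obtain ⟨e, he⟩ := Multiset.card_pos_iff_exists_mem.1 (show 0 < c.card by omega)
      obtain ⟨c', hc'⟩ := Multiset.exists_cons_of_mem he
      have h3 : fac (1 : ZMod ℓ) b = (1 - X ^ (2 * e)) * fac 1 (c'.map fun d => 2 * d) := by
        rw [hbc, hc', Multiset.map_cons, fac, Multiset.map_cons, Multiset.prod_cons, one_pow,
          C_1, one_mul]
        rfl
      rw [h3]
      refine Dvd.dvd.mul_right ?_ _
      have h4 : fac (1 : ZMod ℓ) {1} * fac ((q : ZMod ℓ) ^ 2) {1} = 1 - X ^ 2 := by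
        rw [hqc]
        simp only [fac, Multiset.map_singleton, Multiset.prod_singleton, pow_one, C_1, one_mul,
          C_neg, neg_mul]
        ring
      rw [h4, pow_mul]
      exact one_sub_dvd_one_sub_pow _ e
    obtain ⟨R, hR⟩ := mul_dvd_mul (fac_dvd_pow (q : ZMod ℓ) ha1) hdenb
    have hR' : R * den (q : ZMod ℓ) = fac (q : ZMod ℓ) a * fac 1 b := by
      rw [hR, den]
      ring
    refine ⟨R, hR', fun y hy => ?_⟩
    have h6 := mult_eq_of_dvd hR' (mul_ne_zero (fac_ne_zero _ ha.pos) (fac_ne_zero _ hbpos)) y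
    rw [mult_den hq, mult_mul (fac_ne_zero _ ha.pos) (fac_ne_zero _ hbpos),
      mult_fac hq (fun d hd => (ha.1 d hd).2), mult_fac one_ne_zero hbℓ,
      map_one, hmap] at h6
    simp only [one_mul] at h6
    rw [hqk] at h6
    have hca := Multiset.card_le_card (Multiset.filter_le (fun d => (q * y) ^ d = 1) a)
    have hcb := Multiset.card_le_card (Multiset.filter_le (fun d => y ^ d = 1) b)
    have hbcard : b.card = c.card := by rw [hbc, Multiset.card_map]
    -- the odd powers
    have hodd : ∀ (z : AlgebraicClosure (ZMod ℓ)) (d : ℕ), Odd d → z ^ 2 = -1 → z ^ d ≠ 1 := by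
      intro z d hd hz h7
      obtain ⟨k, rfl⟩ := hd
      rw [pow_succ, pow_mul, hz] at h7
      have h8 : z ^ 2 = 1 := by
        have h9 := congrArg (fun x => x ^ 2) h7
        simp only [one_pow] at h9
        rw [mul_pow, ← pow_mul, mul_comm k 2, pow_mul, neg_one_sq, one_pow, one_mul] at h9
        exact h9
      rw [hz] at h8
      exact neg_one_ne h2 h8
    by_cases hy1 : y = 1
    · exfalso
      have hay : (a.filter fun d => (q * y) ^ d = 1) = 0 := by
        rw [Multiset.filter_eq_nil]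
        intro d hd h7
        rw [hy1, mul_one] at h7
        exact hodd _ d (ha.1 d hd).1 hqk h7
      have e2 : ¬ (q : AlgebraicClosure (ZMod ℓ)) * y = 1 := by
        rw [hy1, mul_one]
        exact hqk1
      have e3 : ¬ (-1 : AlgebraicClosure (ZMod ℓ)) * y = 1 := by
        rw [hy1, mul_one]
        exact neg_one_ne h2
      rw [hay, Multiset.card_zero, if_pos hy1, if_neg e2, if_neg e3] at h6
      omega
    by_cases hy2 : -1 * y = 1
    · exfalso
      have hy3 : y = -1 := by
        rw [← hy2]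
        ring
      have hay : (a.filter fun d => (q * y) ^ d = 1) = 0 := by
        rw [Multiset.filter_eq_nil]
        intro d hd h7
        refine hodd _ d (ha.1 d hd).1 ?_ h7
        rw [hy3, mul_pow, hqk]
        ring
      have e2 : ¬ (q : AlgebraicClosure (ZMod ℓ)) * y = 1 := by
        intro h7
        apply hqk2
        rw [hy3] at h7
        linear_combination - h7
      rw [hay, Multiset.card_zero, if_neg hy1, if_neg e2, if_pos hy2] at h6
      omega
    by_cases hy4 : q * y = 1
    · have hby : (b.filter fun d => y ^ d = 1) = 0 := by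
        rw [Multiset.filter_eq_nil]
        intro d hd h7
        rw [hbc, Multiset.mem_map] at hd
        obtain ⟨e, he, rfl⟩ := hd
        have h8 : (q * y) ^ (2 * e) = 1 := by rw [hy4, one_pow]
        rw [mul_pow, h7, mul_one, pow_mul, hqk, (hcs.1 e he).1.neg_one_pow] at h8
        exact neg_one_ne h2 h8
      rw [hby, Multiset.card_zero, if_neg hy1, if_neg hy2, if_pos hy4] at h6
      refine ⟨by rw [hy4, one_pow], ?_, ?_⟩
      · omega
      · omega
    · exfalso
      rw [if_neg hy1, if_neg hy2, if_neg hy4] at h6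
      have h7 := filter_le_one hy4 ha.2 (fun d => (q * y) ^ d = 1) fun d hd => hd
      have hysq : y ^ 2 ≠ 1 := by
        intro h8
        rw [pow_two] at h8
        rcases mul_self_eq_one_iff.1 h8 with h9 | h9
        · exact hy1 h9
        · apply hy2
          rw [h9]
          ring
      have h8 : (b.filter fun d => y ^ d = 1).card ≤ 1 := by
        rw [hbc, Multiset.filter_map, Multiset.card_map]
        exact filter_le_one hysq hcs.2 _ fun d hd => by
          rw [← pow_mul]
          exact hd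
      have h9 : 0 < (a.filter fun d => (q * y) ^ d = 1).card := by omega
      have h10 : 0 < (b.filter fun d => y ^ d = 1).card := by omega
      obtain ⟨d, hd⟩ := Multiset.card_pos_iff_exists_mem.1 h9
      obtain ⟨e, he⟩ := Multiset.card_pos_iff_exists_mem.1 h10
      rw [Multiset.mem_filter] at hd he
      obtain ⟨he1, he2⟩ := he
      rw [hbc, Multiset.mem_map] at he1
      obtain ⟨e, he, rfl⟩ := he1
      have h11 : ((q : AlgebraicClosure (ZMod ℓ)) * y) ^ (d * (2 * e)) = 1 := by
        rw [pow_mul, hd.2, one_pow]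
      have h12 : ((q : AlgebraicClosure (ZMod ℓ)) * y) ^ (d * (2 * e)) = -1 := by
        rw [mul_pow, mul_comm d (2 * e), pow_mul, pow_mul y, he2, one_pow, mul_one, pow_mul _ 2 e,
          hqk, ← pow_mul]
        exact ((hcs.1 e he).1.mul (ha.1 d hd.1).1).neg_one_pow
      exact neg_one_ne h2 (h12.symm.trans h11)

end

section

variable {κ : Type} [Field κ] [Fintype κ]

/-- **Semisimplicity, by the `L`-function modulo `ℓ`.** -/
theorem semisimple_of_double {S : Surface κ} (hS : HasSection S) [Fact S.ℓ.Prime]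
    {E W : Type} [Field E] [CharZero E] [IsAlgClosed E] [AddCommGroup W] [Module E W]
    [FiniteDimensional E W] {Φ : Module.End E W} {B : W →ₗ[E] W →ₗ[E] E}
    (hC : IsCohomology S Φ B) (N : Submodule E W)
    (hN : ∀ x ∈ N, Φ x = (Fintype.card κ : E) • x)
    (hNd : ∀ x ∈ N, (∀ y ∈ N, B x y = 0) → x = 0)
    {R : (ZMod S.ℓ)[X]} (hR : IsLFunction S R)
    (hm : ∀ y : AlgebraicClosure (ZMod S.ℓ), 1 < mult R y →
      ((Fintype.card κ : AlgebraicClosure (ZMod S.ℓ)) * y) ^ 2 = 1 ∧ mult R y < S.ℓ ∧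
      ((Fintype.card κ : AlgebraicClosure (ZMod S.ℓ)) * y ≠ 1 → mult R y ≤ 2) ∧
      mult R y ≤ 2 + finrank E N) : Φ.IsSemisimple := by
  obtain ⟨_, _, _, _, h⟩ := exists_local hS
  obtain ⟨h0, hdim, T, U, hT, hU, hTU⟩ := exists_traces h hC hR
  exact semisimple_criterion Φ T hT R h0 hdim U hU hTU (Fintype.card κ) Fintype.card_ne_zero B
    hC.similitude hC.symmetric hC.nondegenerate N hN hNd hm

/-- **Semisimplicity of the eigenvalue `q`, by the `L`-function modulo `ℓ`.** -/
theorem tate_of_small {S : Surface κ} (hS : HasSection S) [Fact S.ℓ.Prime]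
    {E W : Type} [Field E] [CharZero E] [IsAlgClosed E] [AddCommGroup W] [Module E W]
    [FiniteDimensional E W] {Φ : Module.End E W} {B : W →ₗ[E] W →ₗ[E] E}
    (hC : IsCohomology S Φ B) (N : Submodule E W)
    (hN : ∀ x ∈ N, Φ x = (Fintype.card κ : E) • x)
    (hNd : ∀ x ∈ N, (∀ y ∈ N, B x y = 0) → x = 0)
    {R : (ZMod S.ℓ)[X]} (hR : IsLFunction S R)
    (hlt : ∀ y : AlgebraicClosure (ZMod S.ℓ), mult R y < S.ℓ)
    (hm : ∀ y : AlgebraicClosure (ZMod S.ℓ),
      (Fintype.card κ : AlgebraicClosure (ZMod S.ℓ)) * y = 1 → mult R y ≤ 2 + finrank E N) :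
    Φ.maxGenEigenspace (Fintype.card κ) = Φ.eigenspace (Fintype.card κ) := by
  obtain ⟨_, _, _, _, h⟩ := exists_local hS
  obtain ⟨h0, hdim, T, U, hT, hU, hTU⟩ := exists_traces h hC hR
  exact tate_criterion Φ T hT R h0 hdim U hU hTU (Fintype.card κ) Fintype.card_ne_zero B
    hC.similitude hC.symmetric hC.nondegenerate N hN hNd hlt hm

/-- **Semisimplicity, by the degrees.** -/
theorem semisimple_of_admissible {S : Surface κ} (hS : HasSection S)
    {E W : Type} [Field E] [CharZero E] [IsAlgClosed E] [AddCommGroup W] [Module E W]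
    [FiniteDimensional E W] {Φ : Module.End E W} {B : W →ₗ[E] W →ₗ[E] E}
    (hC : IsCohomology S Φ B) (h : IsAdmissible (Fintype.card κ) S.ℓ S.a S.b) :
    Φ.IsSemisimple := by
  obtain ⟨_, _, _, _, hL⟩ := exists_local hS
  have hprime : Fact S.ℓ.Prime := ⟨hL.prime⟩
  obtain ⟨R, hR, hm⟩ := exists_poly hL.card_ne h
  refine semisimple_of_double hS hC ⊥ ?_ ?_ ((isLFunction_iff S R).2 hR) ?_
  · intro x hx
    rw [(Submodule.mem_bot E).1 hx, map_zero, smul_zero]
  · intro x hx _
    exact (Submodule.mem_bot E).1 hx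
  · intro y hy
    obtain ⟨h1, h2, h3⟩ := hm y hy
    exact ⟨h1, h2, fun _ => h3, h3.trans (Nat.le_add_right _ _)⟩

end

end Pool.Agent.R942.ES
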