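import Pool.Agent.R942.ES.Local
import Pool.Agent.R942.ES.Crit

/-!
# Elliptic surfaces with a section of prime order: traces modulo the order
-/

set_option autoImplicit false

namespace Pool.Agent.R942.ES

open Polynomial Module Pool.Agent.W111.HS.EC

section

variable {κ : Type} [Field κ]

/-- The degree sum. -/
def dsum (n : ℕ) (a : Multiset ℕ) : ℕ := (a.map fun d => if d ∣ n then d else 0).sum

/-- The number of points modulo `ℓ`. -/
theorem points_mod [Fintype κ] {S : Surface κ} {N M : ℕ} {F G : κ[X]} (h : LocalData S N M F G)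
    (L : Type) [Field L] [Fintype L] [Algebra κ L] :
    ((S.points L : ℕ) : ZMod S.ℓ) = (Fintype.card L : ZMod S.ℓ) * (dsum (finrank κ L) S.a : ZMod S.ℓ) +
      (dsum (finrank κ L) S.b : ZMod S.ℓ) - ((Fintype.card L : ZMod S.ℓ) + 1) := by
  classical
  have h1 : S.points L = ∑ t : Option L, cnt (S.fibre L t) := by
    have h2 : Nat.card (Σ t : Option L, {p : L × L //
        (S.fibre L t).toAffine.Equation p.1 p.2}) = ∑ t : Option L, cnt (S.fibre L t) := by
      rw [Nat.card_sigma]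
      rfl
    rw [← h2]
    apply Nat.card_congr
    exact
      { toFun := fun v => ⟨v.1.1, ⟨v.1.2, v.2⟩⟩
        invFun := fun v => ⟨(v.1, v.2.1), v.2.2⟩
        left_inv := fun v => rfl
        right_inv := fun v => rfl }
  rw [h1, Nat.cast_sum]
  have h2 : ∀ t : Option L, ((cnt (S.fibre L t) : ℕ) : ZMod S.ℓ) =
      (Fintype.card L : ZMod S.ℓ) * ((if value N F L t = 0 then 1 else 0 : ℕ) : ZMod S.ℓ) +
        ((if value M G L t = 0 then 1 else 0 : ℕ) : ZMod S.ℓ) - 1 := by
    intro t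
    have h3 := h.count L t
    rw [h3]
    congr 2
    · congr 1
      split_ifs <;> simp
    · split_ifs <;> simp
  rw [Finset.sum_congr rfl fun t _ => h2 t, Finset.sum_sub_distrib, Finset.sum_add_distrib,
    ← Finset.mul_sum, ← Nat.cast_sum, ← Nat.cast_sum, Finset.sum_const, Finset.card_univ,
    Fintype.card_option]
  have h4 : (∑ t : Option L, if value N F L t = 0 then 1 else 0) = dsum (finrank κ L) S.a := by
    have h5 := card_zeros (L := L) (N := N) h.hF
    rw [dsum, h.ha, ← h5]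
  have h5 : (∑ t : Option L, if value M G L t = 0 then 1 else 0) = dsum (finrank κ L) S.b := by
    have h5 := card_zeros (L := L) (N := M) h.hG
    rw [dsum, h.hb, ← h5]
  rw [h4, h5]
  push_cast
  ring

/-- The zeros of a form are finite in number. -/
lemma finite_zeros (L : Type) [Field L] [Algebra κ L] (N : ℕ) {F : κ[X]} (hF : F ≠ 0) :
    {t : Option L | value N F L t = 0}.Finite := by
  have h2 : {t : Option L | value N F L t = 0} ⊆ insert none (some '' (F.rootSet L)) := by
    intro t ht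
    cases t with
    | none => exact Set.mem_insert _ _
    | some t =>
      right
      refine ⟨t, ?_, rfl⟩
      rw [mem_rootSet]
      exact ⟨hF, ht⟩
  exact (((rootSet_finite F _).image _).insert _).subset h2

/-- The number of singular fibres. -/
theorem singular_eq [Finite κ] {S : Surface κ} {N M : ℕ} {F G : κ[X]}
    (h : LocalData S N M F G) : S.singularFibres = S.a.sum + S.b.sum := by
  rw [Surface.singularFibres, h.ha, h.hb, ← ncard_zeros h.hF, ← ncard_zeros h.hG,
    ← Set.ncard_union_eq (hs := finite_zeros _ _ h.hF) (ht := finite_zeros _ _ h.hG)]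
  · congr 1
    ext t
    exact h.disc (AlgebraicClosure κ) t
  · rw [Set.disjoint_left]
    intro t h1 h2
    exact h.disj (AlgebraicClosure κ) t ⟨h1, h2⟩

lemma LocalData.pos_a {S : Surface κ} {N M : ℕ} {F G : κ[X]}
    (h : LocalData S N M F G) : ∀ d ∈ S.a, 1 ≤ d := by
  rw [h.ha]
  exact places_pos

lemma LocalData.pos_b {S : Surface κ} {N M : ℕ} {F G : κ[X]}
    (h : LocalData S N M F G) : ∀ d ∈ S.b, 1 ≤ d := by
  rw [h.hb]
  exact places_pos

lemma LocalData.card_ne [Fintype κ] {S : Surface κ} {N M : ℕ} {F G : κ[X]}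
    (h : LocalData S N M F G) : (Fintype.card κ : ZMod S.ℓ) ≠ 0 := by
  intro h1
  rw [ZMod.natCast_eq_zero_iff] at h1
  obtain ⟨p, hpc⟩ := CharP.exists κ
  have := hpc
  obtain ⟨n, hp', hn⟩ := FiniteField.card κ p
  rw [hn] at h1
  have h2 := (Nat.prime_dvd_prime_iff_eq h.prime hp').1 (h.prime.dvd_of_dvd_pow h1)
  apply h.char
  rw [h2]
  exact CharP.cast_eq_zero κ p

/-! ### Logarithmic derivatives -/

lemma isLog_multiset_mem {R : Type} [CommRing R] {ι : Type} (A : Multiset ι)
    (W S : ι → PowerSeries R) (h : ∀ i ∈ A, IsLog (W i) (S i)) :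
    IsLog (A.map W).prod (A.map S).sum := by
  classical
  induction A using Multiset.induction_on with
  | empty => simpa using isLog_one
  | cons a A ih =>
    rw [Multiset.map_cons, Multiset.map_cons, Multiset.prod_cons, Multiset.sum_cons]
    exact isLog_mul (h a (Multiset.mem_cons_self a A))
      (ih fun i hi => h i (Multiset.mem_cons_of_mem hi))

lemma coeff_lg_pow {R : Type} [CommRing R] (d : ℕ) (y : R) (n : ℕ) (hn : 1 ≤ n) :
    PowerSeries.coeff n (lg d (y ^ d)) = y ^ n * ((if d ∣ n then d else 0 : ℕ) : R) := by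
  simp only [lg, PowerSeries.coeff_mk]
  by_cases h : d ∣ n
  · rw [if_pos ⟨by omega, h⟩, if_pos h, ← pow_mul, Nat.mul_div_cancel' h]
    ring
  · rw [if_neg (fun h1 => h h1.2), if_neg h, Nat.cast_zero, mul_zero]

lemma coeff_lg_sum {R : Type} [CommRing R] (a : Multiset ℕ) (y : R) (n : ℕ) (hn : 1 ≤ n) :
    PowerSeries.coeff n (a.map fun d => lg d (y ^ d)).sum = y ^ n * (dsum n a : R) := by
  rw [dsum, map_multiset_sum, Multiset.map_map]
  induction a using Multiset.induction_on with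
  | empty => simp
  | cons d a ih =>
    rw [Multiset.map_cons, Multiset.sum_cons, ih, Multiset.map_cons, Multiset.sum_cons]
    simp only [Function.comp_apply]
    rw [coeff_lg_pow d y n hn]
    push_cast
    ring

variable {ℓ : ℕ}

/-- The product over the places. -/
noncomputable def fac (c : (ZMod ℓ)) (a : Multiset ℕ) : (ZMod ℓ)[X] :=
  (a.map fun d => 1 - C (c ^ d) * X ^ d).prod

lemma coe_fac (c : ZMod ℓ) (a : Multiset ℕ) : ((fac c a : (ZMod ℓ)[X]) : PowerSeries (ZMod ℓ)) =
    (a.map fun d => 1 - PowerSeries.C (c ^ d) * PowerSeries.X ^ d).prod := by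
  have h1 := map_multiset_prod (Polynomial.coeToPowerSeries.ringHom (R := ZMod ℓ))
    (a.map fun d => 1 - C (c ^ d) * X ^ d)
  rw [Multiset.map_map] at h1
  refine Eq.trans h1 ?_
  congr 1
  refine Multiset.map_congr rfl fun d _ => ?_
  simp

lemma isLog_fac (c : ZMod ℓ) (a : Multiset ℕ) (ha : ∀ d ∈ a, 1 ≤ d) :
    IsLog ((fac c a : (ZMod ℓ)[X]) : PowerSeries (ZMod ℓ)) (a.map fun d => lg d (c ^ d)).sum := by
  rw [coe_fac]
  exact isLog_multiset_mem a _ _ fun d hd => isLog_lg d (ha d hd) _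

/-- The denominator. -/
noncomputable def den (c : ZMod ℓ) : (ZMod ℓ)[X] := fac 1 {1} * fac c {1} ^ 2 * fac (c ^ 2) {1}

lemma isLog_den (c : ZMod ℓ) : ∃ T, IsLog ((den c : (ZMod ℓ)[X]) : PowerSeries (ZMod ℓ)) T ∧
    ∀ n, 1 ≤ n → PowerSeries.coeff n T = (c ^ n + 1) ^ 2 := by
  have h1 := isLog_fac (ℓ := ℓ) 1 {1} (by simp)
  have h2 := isLog_fac (ℓ := ℓ) c {1} (by simp)
  have h3 := isLog_fac (ℓ := ℓ) (c ^ 2) {1} (by simp)
  have h5 := isLog_mul (isLog_mul h1 (isLog_pow h2 2)) h3
  rw [← Polynomial.coe_pow, ← Polynomial.coe_mul, ← Polynomial.coe_mul] at h5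
  refine ⟨_, h5, ?_⟩
  · intro n hn
    rw [map_add, map_add, map_nsmul, coeff_lg_sum _ _ n hn, coeff_lg_sum _ _ n hn,
      coeff_lg_sum _ _ n hn]
    have h4 : dsum n {1} = 1 := by simp [dsum]
    rw [h4]
    simp only [one_pow, Nat.cast_one, mul_one, nsmul_eq_mul, Nat.cast_ofNat]
    ring

lemma coeff_zero_fac (c : ZMod ℓ) (a : Multiset ℕ) (ha : ∀ d ∈ a, 1 ≤ d) :
    (fac c a).coeff 0 = 1 := by
  rw [coeff_zero_eq_eval_zero, fac, eval_multiset_prod, Multiset.map_map]
  have h1 : a.map (eval 0 ∘ fun d => 1 - C (c ^ d) * X ^ d) = a.map fun _ => (1 : ZMod ℓ) := by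
    refine Multiset.map_congr rfl fun d hd => ?_
    have h2 : d ≠ 0 := by
      have := ha d hd
      omega
    simp [h2]
  rw [h1]
  simp

lemma coeff_zero_den (c : ZMod ℓ) : (den c).coeff 0 = 1 := by
  rw [den, mul_coeff_zero, mul_coeff_zero, coeff_zero_fac _ _ (by simp),
    coeff_zero_fac _ _ (by simp), pow_two, mul_coeff_zero, coeff_zero_fac _ _ (by simp)]
  ring

lemma natDegree_factor [Fact ℓ.Prime] {c : ZMod ℓ} (hc : c ≠ 0) {d : ℕ} (hd : 1 ≤ d) :
    (1 - C (c ^ d) * X ^ d : (ZMod ℓ)[X]).natDegree = d := by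
  have h1 : (C (c ^ d) * X ^ d : (ZMod ℓ)[X]).natDegree = d :=
    natDegree_C_mul_X_pow d _ (pow_ne_zero d hc)
  rw [natDegree_sub_eq_right_of_natDegree_lt, h1]
  rw [h1, natDegree_one]
  omega

lemma natDegree_fac [Fact ℓ.Prime] {c : ZMod ℓ} (hc : c ≠ 0) {a : Multiset ℕ}
    (ha : ∀ d ∈ a, 1 ≤ d) : (fac c a).natDegree = a.sum := by
  rw [fac, natDegree_multiset_prod, Multiset.map_map]
  · congr 1
    conv_rhs => rw [← Multiset.map_id a]
    refine Multiset.map_congr rfl fun d hd => ?_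
    exact natDegree_factor hc (ha d hd)
  · intro h
    rw [Multiset.mem_map] at h
    obtain ⟨d, hd, h1⟩ := h
    have h2 := natDegree_factor hc (ha d hd)
    rw [h1, natDegree_zero] at h2
    have := ha d hd
    omega

lemma fac_ne_zero [Fact ℓ.Prime] (c : ZMod ℓ) {a : Multiset ℕ}
    (ha : ∀ d ∈ a, 1 ≤ d) : fac c a ≠ 0 := by
  intro h
  have h1 := coeff_zero_fac c a ha
  rw [h, coeff_zero] at h1
  exact zero_ne_one h1

lemma natDegree_den [Fact ℓ.Prime] {c : ZMod ℓ} (hc : c ≠ 0) : (den c).natDegree = 4 := by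
  have h1 : ∀ x : ZMod ℓ, fac x {1} ≠ 0 := fun x => fac_ne_zero x (by simp)
  rw [den, natDegree_mul (mul_ne_zero (h1 _) (pow_ne_zero 2 (h1 _))) (h1 _),
    natDegree_mul (h1 _) (pow_ne_zero 2 (h1 _)), natDegree_pow, natDegree_fac one_ne_zero (by simp),
    natDegree_fac hc (by simp), natDegree_fac (pow_ne_zero 2 hc) (by simp)]
  simp

/-- The equation of the `L`-function. -/
lemma isLFunction_iff [Fintype κ] (S : Surface κ) (R : (ZMod S.ℓ)[X]) :
    IsLFunction S R ↔ R * den (Fintype.card κ : ZMod S.ℓ) =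
      fac (Fintype.card κ : ZMod S.ℓ) S.a * fac 1 S.b := by
  have h1 : den (Fintype.card κ : ZMod S.ℓ) = ((1 - X) *
      (1 - (Fintype.card κ : (ZMod S.ℓ)[X]) * X) ^ 2 *
      (1 - (Fintype.card κ : (ZMod S.ℓ)[X]) ^ 2 * X)) := by
    simp [den, fac]
  have h2 : fac (Fintype.card κ : ZMod S.ℓ) S.a =
      (S.a.map fun d => 1 - ((Fintype.card κ : (ZMod S.ℓ)[X]) * X) ^ d).prod := by
    rw [fac]
    congr 1
    refine Multiset.map_congr rfl fun d _ => ?_
    rw [map_pow, map_natCast, mul_pow]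
  have h3 : fac 1 S.b = (S.b.map fun d => (1 - X ^ d : (ZMod S.ℓ)[X])).prod := by
    rw [fac]
    congr 1
    refine Multiset.map_congr rfl fun d _ => ?_
    rw [one_pow, C_1, one_mul]
  rw [IsLFunction, ← h1, ← h2, ← h3]

/-- The traces and the polynomial `R`. -/
theorem exists_traces [Fintype κ] {S : Surface κ} {N M : ℕ} {F G : κ[X]}
    (h : LocalData S N M F G) {E W : Type} [Field E] [CharZero E] [AddCommGroup W]
    [Module E W] {Φ : Module.End E W} {B : W →ₗ[E] W →ₗ[E] E} (hC : IsCohomology S Φ B)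
    {R : (ZMod S.ℓ)[X]} (hR : IsLFunction S R) :
    R.coeff 0 = 1 ∧ R.natDegree = finrank E W ∧
    ∃ (T : ℕ → ℤ) (U : PowerSeries (ZMod S.ℓ)),
      (∀ n, 1 ≤ n → LinearMap.trace E W (Φ ^ n) = T n) ∧
      IsLog (R : PowerSeries (ZMod S.ℓ)) U ∧ ∀ n, 1 ≤ n → PowerSeries.coeff n U = T n := by
  have hprime : Fact S.ℓ.Prime := ⟨h.prime⟩
  have hq := h.card_ne
  rw [isLFunction_iff] at hR
  set q : ZMod S.ℓ := (Fintype.card κ : ZMod S.ℓ) with hq'
  have hden0 : den q ≠ 0 := by
    intro h1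
    have h2 := coeff_zero_den q
    rw [h1, coeff_zero] at h2
    exact zero_ne_one h2
  have hprod0 : fac q S.a * fac 1 S.b ≠ 0 :=
    mul_ne_zero (fac_ne_zero _ h.pos_a) (fac_ne_zero _ h.pos_b)
  have hR0 : R ≠ 0 := by
    intro h1
    rw [h1, zero_mul] at hR
    exact hprod0 hR.symm
  refine ⟨?_, ?_, ?_⟩
  · have h1 := congrArg (fun P : (ZMod S.ℓ)[X] => P.coeff 0) hR
    simp only [mul_coeff_zero] at h1
    rw [coeff_zero_den, coeff_zero_fac _ _ h.pos_a, coeff_zero_fac _ _ h.pos_b, mul_one,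
      mul_one] at h1
    exact h1
  · have h1 := congrArg natDegree hR
    rw [natDegree_mul hR0 hden0, natDegree_mul (fac_ne_zero _ h.pos_a) (fac_ne_zero _ h.pos_b),
      natDegree_den hq, natDegree_fac hq h.pos_a, natDegree_fac one_ne_zero h.pos_b,
      ← singular_eq h, ← hC.dimension] at h1
    omega
  · -- the traces
    obtain ⟨p, hpc⟩ := CharP.exists κ
    have := hpc
    have hp : Fact p.Prime := ⟨CharP.char_is_prime κ p⟩
    have hex : ∀ n : ℕ, 1 ≤ n → ∃ z : ℤ, LinearMap.trace E W (Φ ^ n) = z ∧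
        ((z : ℤ) : ZMod S.ℓ) = q ^ n * (dsum n S.a : ZMod S.ℓ) + 1 ^ n * (dsum n S.b : ZMod S.ℓ) -
          (q ^ n + 1) ^ 2 := by
      intro n hn
      have hn0 : NeZero n := ⟨by omega⟩
      let L := FiniteField.Extension κ p n
      have hfr : finrank κ L = n := FiniteField.finrank_extension κ p n
      have hfin : Finite L := inferInstance
      letI : Fintype L := Fintype.ofFinite L
      have hcard : Fintype.card L = Fintype.card κ ^ n := by
        have h1 := FiniteField.natCard_extension κ p n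
        rw [Nat.card_eq_fintype_card, Nat.card_eq_fintype_card] at h1
        exact h1
      refine ⟨(S.points L : ℤ) - (Fintype.card L : ℤ) * ((Fintype.card L : ℤ) + 1), ?_, ?_⟩
      · have h1 := hC.lefschetz L
        rw [hfr] at h1
        rw [h1]
        push_cast
        rfl
      · have h1 := points_mod h L
        rw [hfr] at h1
        push_cast
        rw [h1, hcard]
        push_cast
        rw [← hq']
        ring
    choose! T hT using hex
    obtain ⟨D, hD, hD'⟩ := isLog_den (ℓ := S.ℓ) q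
    have hlog : IsLog ((R * den q : (ZMod S.ℓ)[X]) : PowerSeries (ZMod S.ℓ))
        ((S.a.map fun d => lg d (q ^ d)).sum + (S.b.map fun d => lg d ((1 : ZMod S.ℓ) ^ d)).sum) := by
      rw [hR, Polynomial.coe_mul]
      exact isLog_mul (isLog_fac q S.a h.pos_a) (isLog_fac 1 S.b h.pos_b)
    rw [Polynomial.coe_mul] at hlog
    have hden1 : ((den q : (ZMod S.ℓ)[X]) : PowerSeries (ZMod S.ℓ)) ≠ 0 := by
      intro h1
      apply hden0
      exact Polynomial.coe_injective _ (h1.trans (Polynomial.coe_zero).symm)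
    refine ⟨T, _, fun n hn => (hT n hn).1, isLog_cancel hden1 hlog hD, fun n hn => ?_⟩
    rw [(hT n hn).2, map_sub, map_add, coeff_lg_sum _ _ n hn, coeff_lg_sum _ _ n hn, hD' n hn]

end

end Pool.Agent.R942.ES
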