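import Pool.Agent.R942.ES.Defs

/-!
# Elliptic surfaces with a section of prime order: the fibres
-/

set_option autoImplicit false

namespace Pool.Agent.R942.ES

open Polynomial Module

section

variable {κ : Type} [Field κ]

open Classical in
/-- The properties of the fibres. -/
structure LocalData (S : Surface κ) (N M : ℕ) (F G : κ[X]) : Prop where
  prime : S.ℓ.Prime
  char : (S.ℓ : κ) ≠ 0
  hF : F ≠ 0
  hG : G ≠ 0
  ha : S.a = places N F
  hb : S.b = places M G
  disj : ∀ (L : Type) [Field L] [Algebra κ L] (t : Option L),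
    ¬ (value N F L t = 0 ∧ value M G L t = 0)
  disc : ∀ (L : Type) [Field L] [Algebra κ L] (t : Option L),
    (S.fibre L t).Δ = 0 ↔ value N F L t = 0 ∨ value M G L t = 0
  count : ∀ (L : Type) [Field L] [Fintype L] [Algebra κ L] (t : Option L),
    ((cnt (S.fibre L t) : ℕ) : ZMod S.ℓ) =
      (Fintype.card L : ZMod S.ℓ) * (if value N F L t = 0 then 1 else 0) +
        (if value M G L t = 0 then 1 else 0) - 1

lemma cast_of_dvd {ℓ n : ℕ} (h : ℓ ∣ n) : ((n : ℕ) : ZMod ℓ) = 0 :=
  (ZMod.natCast_eq_zero_iff _ _).2 h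

lemma cast_of_dvd_succ {ℓ n : ℕ} (h : ℓ ∣ n + 1) : ((n : ℕ) : ZMod ℓ) = -1 := by
  have h1 := (ZMod.natCast_eq_zero_iff _ _).2 h
  push_cast at h1
  linear_combination h1

lemma cast_of_succ {ℓ n c : ℕ} (h : n + 1 = c) : ((n : ℕ) : ZMod ℓ) = (c : ZMod ℓ) - 1 := by
  rw [← h]
  push_cast
  ring

lemma map_ne {L : Type} [Field L] [Algebra κ L] {n : ℕ} (h : (n : κ) ≠ 0) : (n : L) ≠ 0 := by
  have h1 := (map_ne_zero_iff _ (algebraMap κ L).injective).2 h
  rwa [map_natCast] at h1

/-- The cases. -/
lemma count_cases {L : Type} [Fintype L] {ℓ c : ℕ} (P Q : Prop) [Decidable P] [Decidable Q]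
    (h : ¬ (P ∧ Q)) (h1 : P → ((c : ℕ) : ZMod ℓ) = (Fintype.card L : ZMod ℓ) - 1)
    (h2 : ¬ P → Q → ((c : ℕ) : ZMod ℓ) = 0) (h3 : ¬ P → ¬ Q → ((c : ℕ) : ZMod ℓ) = -1) :
    ((c : ℕ) : ZMod ℓ) = (Fintype.card L : ZMod ℓ) * (if P then 1 else 0) +
      (if Q then 1 else 0) - 1 := by
  by_cases hP : P
  · rw [if_pos hP, if_neg (fun hQ => h ⟨hP, hQ⟩), h1 hP]
    ring
  · rw [if_neg hP]
    by_cases hQ : Q
    · rw [if_pos hQ, h2 hP hQ]
      ring
    · rw [if_neg hQ, h3 hP hQ]
      ring

lemma local2 (m : ℕ) (u v : κ[X]) (hp : (2 : κ) ≠ 0) (h : IsFormPair (2 * m) (4 * m) u v)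
    (hv : v ≠ 0) (hd : u ^ 2 - 4 * v ≠ 0) :
    LocalData (order2 m u v) (4 * m) (4 * m) v (u ^ 2 - 4 * v) := by
  have h2L : ∀ (L : Type) [Field L] [Algebra κ L], (2 : L) ≠ 0 := fun L _ _ => by
    have := map_ne (κ := κ) (L := L) (n := 2) (by exact_mod_cast hp)
    exact_mod_cast this
  have hval : ∀ (L : Type) [Field L] [Algebra κ L] (t : Option L),
      value (4 * m) (u ^ 2 - 4 * v) L t =
        value (2 * m) u L t ^ 2 - 4 * value (4 * m) v L t := by
    intro L _ _ t
    have e := value_natCast_mul (N := 4 * m) 4 v t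
    push_cast at e
    rw [value_sub, e, ← value_pow h.degree_u, show 2 * (2 * m) = 4 * m by ring]
  have hnc : ∀ (L : Type) [Field L] [Algebra κ L] (t : Option L),
      value (2 * m) u L t ≠ 0 ∨ value (4 * m) v L t ≠ 0 := fun L _ _ t =>
    no_common h.coprime h.infinity t
  have hdisj : ∀ (L : Type) [Field L] [Algebra κ L] (t : Option L),
      ¬ (value (4 * m) v L t = 0 ∧ value (4 * m) (u ^ 2 - 4 * v) L t = 0) := by
    rintro L _ _ t ⟨h1, h2⟩
    rw [hval, h1, mul_zero, sub_zero] at h2
    rcases hnc L t with h3 | h3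
    · exact h3 ((pow_eq_zero_iff (by norm_num)).1 h2)
    · exact h3 h1
  refine
    { prime := Nat.prime_two
      char := by exact_mod_cast hp
      hF := hv
      hG := hd
      ha := rfl
      hb := rfl
      disj := hdisj
      disc := ?_
      count := ?_ }
  · intro L _ _ t
    change (curve2 _ _).Δ = 0 ↔ _
    rw [curve2_disc, hval]
    have h16 : (16 : L) ≠ 0 := by
      have := pow_ne_zero 4 (h2L L)
      norm_num at this
      exact this
    rw [mul_eq_zero, mul_eq_zero, pow_eq_zero_iff (by norm_num)]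
    constructor
    · rintro ((h1 | h1) | h1)
      · exact absurd h1 h16
      · exact Or.inl h1
      · exact Or.inr h1
    · rintro (h1 | h1)
      · exact Or.inl (Or.inr h1)
      · exact Or.inr h1
  · intro L _ _ _ t
    classical
    refine count_cases _ _ (hdisj L t) ?_ ?_ ?_
    · intro h1
      have hu : value (2 * m) u L t ≠ 0 := by
        rcases hnc L t with h3 | h3
        · exact h3
        · exact absurd h1 h3
      have h4 : cnt ((order2 m u v).fibre L t) = cnt (curve2 (value (2 * m) u L t) 0) := by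
        change cnt (curve2 _ _) = _
        rw [h1]
      rw [h4]
      -- the cardinality of `L` is odd
      have h5 : ((Fintype.card L : ℕ) : ZMod 2) = 1 := by
        have h6 : ¬ 2 ∣ Fintype.card L := by
          intro h7
          obtain ⟨p, hpc⟩ := CharP.exists L
          haveI := hpc
          obtain ⟨n, hp', hn⟩ := FiniteField.card L p
          rw [hn] at h7
          have h8 := (Nat.prime_dvd_prime_iff_eq Nat.prime_two hp').1
            (Nat.prime_two.dvd_of_dvd_pow h7)
          apply h2L L
          have h9 := CharP.cast_eq_zero L p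
          rw [← h8] at h9
          exact_mod_cast h9
        have h7 : Fintype.card L % 2 = 1 := Nat.two_dvd_ne_zero.1 h6
        rw [← ZMod.natCast_mod, h7]
        rfl
      change ((cnt (curve2 (value (2 * m) u L t) 0) : ℕ) : ZMod 2) =
        ((Fintype.card L : ℕ) : ZMod 2) - 1
      rw [h5, cast_of_dvd (ℓ := 2) (cnt2_zero (h2L L) hu)]
      rfl
    · intro h1 h2
      rw [hval] at h2
      exact cast_of_dvd (cnt2_bad (h2L L) h1 h2)
    · intro h1 h2
      rw [hval] at h2
      exact cast_of_dvd_succ (cnt2_good (h2L L) h1 h2)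

lemma local3 (m : ℕ) (u v : κ[X]) (hp : (3 : κ) ≠ 0) (h : IsFormPair m (3 * m) u v)
    (hv : v ≠ 0) (hd : u ^ 3 - 27 * v ≠ 0) :
    LocalData (order3 m u v) (3 * m) (3 * m) v (u ^ 3 - 27 * v) := by
  have h3L : ∀ (L : Type) [Field L] [Algebra κ L], (3 : L) ≠ 0 := fun L _ _ => by
    have := map_ne (κ := κ) (L := L) (n := 3) (by exact_mod_cast hp)
    exact_mod_cast this
  have hval : ∀ (L : Type) [Field L] [Algebra κ L] (t : Option L),
      value (3 * m) (u ^ 3 - 27 * v) L t =
        value m u L t ^ 3 - 27 * value (3 * m) v L t := by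
    intro L _ _ t
    have e := value_natCast_mul (N := 3 * m) 27 v t
    push_cast at e
    rw [value_sub, e, ← value_pow h.degree_u]
  have hnc : ∀ (L : Type) [Field L] [Algebra κ L] (t : Option L),
      value m u L t ≠ 0 ∨ value (3 * m) v L t ≠ 0 := fun L _ _ t =>
    no_common h.coprime h.infinity t
  have hdisj : ∀ (L : Type) [Field L] [Algebra κ L] (t : Option L),
      ¬ (value (3 * m) v L t = 0 ∧ value (3 * m) (u ^ 3 - 27 * v) L t = 0) := by
    rintro L _ _ t ⟨h1, h2⟩
    rw [hval, h1, mul_zero, sub_zero] at h2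
    rcases hnc L t with h3 | h3
    · exact h3 ((pow_eq_zero_iff (by norm_num)).1 h2)
    · exact h3 h1
  refine
    { prime := Nat.prime_three
      char := by exact_mod_cast hp
      hF := hv
      hG := hd
      ha := rfl
      hb := rfl
      disj := hdisj
      disc := ?_
      count := ?_ }
  · intro L _ _ t
    change (curve3 _ _).Δ = 0 ↔ _
    rw [curve3_disc, hval, mul_eq_zero, pow_eq_zero_iff (by norm_num)]
  · intro L _ _ _ t
    classical
    refine count_cases _ _ (hdisj L t) ?_ ?_ ?_
    · intro h1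
      have hu : value m u L t ≠ 0 := by
        rcases hnc L t with h3 | h3
        · exact h3
        · exact absurd h1 h3
      have h4 : cnt ((order3 m u v).fibre L t) = cnt (⟨value m u L t, 0, 0, 0, 0⟩ :
          WeierstrassCurve L) := by
        change cnt (curve3 _ _) = _
        rw [h1]
        rfl
      rw [h4]
      exact cast_of_succ (cnt_split hu)
    · intro h1 h2
      rw [hval] at h2
      exact cast_of_dvd (cnt3_bad (h3L L) h1 h2)
    · intro h1 h2
      rw [hval] at h2
      exact cast_of_dvd_succ (cnt3_good h1 h2)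

lemma local5 (m : ℕ) (u v : κ[X]) (hp : (5 : κ) ≠ 0) (h : IsFormPair m m u v)
    (hv : u * v ≠ 0) (hd : u ^ 2 - 11 * (u * v) - v ^ 2 ≠ 0) :
    LocalData (order5 m u v) (2 * m) (2 * m) (u * v) (u ^ 2 - 11 * (u * v) - v ^ 2) := by
  have h5L : ∀ (L : Type) [Field L] [Algebra κ L], (5 : L) ≠ 0 := fun L _ _ => by
    have := map_ne (κ := κ) (L := L) (n := 5) (by exact_mod_cast hp)
    exact_mod_cast this
  have hvalA : ∀ (L : Type) [Field L] [Algebra κ L] (t : Option L),
      value (2 * m) (u * v) L t = value m u L t * value m v L t := by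
    intro L _ _ t
    rw [← value_mul h.degree_u h.degree_v, two_mul]
  have hvalB : ∀ (L : Type) [Field L] [Algebra κ L] (t : Option L),
      value (2 * m) (u ^ 2 - 11 * (u * v) - v ^ 2) L t =
        value m u L t ^ 2 - 11 * value m u L t * value m v L t - value m v L t ^ 2 := by
    intro L _ _ t
    have e := value_natCast_mul (N := 2 * m) 11 (u * v) t
    push_cast at e
    rw [value_sub, value_sub, e, hvalA, ← value_pow h.degree_u, ← value_pow h.degree_v]
    ring
  have hnc : ∀ (L : Type) [Field L] [Algebra κ L] (t : Option L),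
      value m u L t ≠ 0 ∨ value m v L t ≠ 0 := fun L _ _ t =>
    no_common h.coprime h.infinity t
  have hdisj : ∀ (L : Type) [Field L] [Algebra κ L] (t : Option L),
      ¬ (value (2 * m) (u * v) L t = 0 ∧
        value (2 * m) (u ^ 2 - 11 * (u * v) - v ^ 2) L t = 0) := by
    rintro L _ _ t ⟨h1, h2⟩
    rw [hvalA] at h1
    rw [hvalB] at h2
    rcases mul_eq_zero.1 h1 with h3 | h3
    · rw [h3] at h2
      have h4 : value m v L t ^ 2 = 0 := by linear_combination - h2
      rcases hnc L t with h5 | h5
      · exact h5 h3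
      · exact h5 ((pow_eq_zero_iff (by norm_num)).1 h4)
    · rw [h3] at h2
      have h4 : value m u L t ^ 2 = 0 := by linear_combination h2
      rcases hnc L t with h5 | h5
      · exact h5 ((pow_eq_zero_iff (by norm_num)).1 h4)
      · exact h5 h3
  refine
    { prime := Nat.prime_five
      char := by exact_mod_cast hp
      hF := hv
      hG := hd
      ha := rfl
      hb := rfl
      disj := hdisj
      disc := ?_
      count := ?_ }
  · intro L _ _ t
    change (curve5 _ _).Δ = 0 ↔ _
    rw [curve5_disc, hvalA, hvalB, mul_eq_zero, ← mul_pow, pow_eq_zero_iff (by norm_num)]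
  · intro L _ _ _ t
    classical
    refine count_cases _ _ (hdisj L t) ?_ ?_ ?_
    · intro h1
      rw [hvalA] at h1
      exact cast_of_succ (cnt5_zero (hnc L t) h1)
    · intro h1 h2
      rw [hvalA] at h1
      rw [hvalB] at h2
      exact cast_of_dvd (cnt5_bad (h5L L) (left_ne_zero_of_mul h1) (right_ne_zero_of_mul h1) h2)
    · intro h1 h2
      rw [hvalA] at h1
      rw [hvalB] at h2
      exact cast_of_dvd_succ
        (cnt5_good (left_ne_zero_of_mul h1) (right_ne_zero_of_mul h1) h2)

lemma local7 (m : ℕ) (u v : κ[X]) (hp : (7 : κ) ≠ 0) (h : IsFormPair m m u v)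
    (hv : u * v * (u - v) ≠ 0)
    (hd : u ^ 3 - 8 * (u ^ 2 * v) + 5 * (u * v ^ 2) + v ^ 3 ≠ 0) :
    LocalData (order7 m u v) (3 * m) (3 * m) (u * v * (u - v))
      (u ^ 3 - 8 * (u ^ 2 * v) + 5 * (u * v ^ 2) + v ^ 3) := by
  have h7L : ∀ (L : Type) [Field L] [Algebra κ L], (7 : L) ≠ 0 := fun L _ _ => by
    have := map_ne (κ := κ) (L := L) (n := 7) (by exact_mod_cast hp)
    exact_mod_cast this
  have huv : (u * v).natDegree ≤ m + m :=
    natDegree_mul_le.trans (add_le_add h.degree_u h.degree_v)
  have huv' : (u - v).natDegree ≤ m :=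
    (natDegree_sub_le u v).trans (max_le h.degree_u h.degree_v)
  have hvalA : ∀ (L : Type) [Field L] [Algebra κ L] (t : Option L),
      value (3 * m) (u * v * (u - v)) L t =
        value m u L t * value m v L t * (value m u L t - value m v L t) := by
    intro L _ _ t
    rw [show 3 * m = m + m + m by ring, value_mul huv huv', value_mul h.degree_u h.degree_v,
      value_sub]
  have hvalB : ∀ (L : Type) [Field L] [Algebra κ L] (t : Option L),
      value (3 * m) (u ^ 3 - 8 * (u ^ 2 * v) + 5 * (u * v ^ 2) + v ^ 3) L t =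
        value m u L t ^ 3 - 8 * value m u L t ^ 2 * value m v L t +
          5 * value m u L t * value m v L t ^ 2 + value m v L t ^ 3 := by
    intro L _ _ t
    have e := value_natCast_mul (N := 3 * m) 8 (u ^ 2 * v) t
    have e' := value_natCast_mul (N := 3 * m) 5 (u * v ^ 2) t
    push_cast at e e'
    have f : value (3 * m) (u ^ 2 * v) L t = value m u L t ^ 2 * value m v L t := by
      rw [show 3 * m = 2 * m + m by ring, value_mul _ h.degree_v, value_pow h.degree_u]
      exact natDegree_pow_le.trans (Nat.mul_le_mul_left 2 h.degree_u)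
    have f' : value (3 * m) (u * v ^ 2) L t = value m u L t * value m v L t ^ 2 := by
      rw [show 3 * m = m + 2 * m by ring, value_mul h.degree_u, value_pow h.degree_v]
      exact natDegree_pow_le.trans (Nat.mul_le_mul_left 2 h.degree_v)
    rw [value_add, value_add, value_sub, e, e', f, f', value_pow h.degree_u 3 t,
      value_pow h.degree_v 3 t]
    ring
  have hnc : ∀ (L : Type) [Field L] [Algebra κ L] (t : Option L),
      value m u L t ≠ 0 ∨ value m v L t ≠ 0 := fun L _ _ t =>
    no_common h.coprime h.infinity t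
  have hdisj : ∀ (L : Type) [Field L] [Algebra κ L] (t : Option L),
      ¬ (value (3 * m) (u * v * (u - v)) L t = 0 ∧
        value (3 * m) (u ^ 3 - 8 * (u ^ 2 * v) + 5 * (u * v ^ 2) + v ^ 3) L t = 0) := by
    rintro L _ _ t ⟨h1, h2⟩
    rw [hvalA] at h1
    rw [hvalB] at h2
    rcases mul_eq_zero.1 h1 with h3 | h3
    · rcases mul_eq_zero.1 h3 with h3 | h3
      · rw [h3] at h2
        have h4 : value m v L t ^ 3 = 0 := by linear_combination h2
        rcases hnc L t with h5 | h5
        · exact h5 h3
        · exact h5 ((pow_eq_zero_iff (by norm_num)).1 h4)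
      · rw [h3] at h2
        have h4 : value m u L t ^ 3 = 0 := by linear_combination h2
        rcases hnc L t with h5 | h5
        · exact h5 ((pow_eq_zero_iff (by norm_num)).1 h4)
        · exact h5 h3
    · have h3' := sub_eq_zero.1 h3
      rw [h3'] at h2
      have h4 : value m v L t ^ 3 = 0 := by linear_combination - h2
      have h6 := (pow_eq_zero_iff (by norm_num)).1 h4
      rcases hnc L t with h5 | h5
      · exact h5 (h3'.trans h6)
      · exact h5 h6
  refine
    { prime := by
        change Nat.Prime 7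
        norm_num
      char := by exact_mod_cast hp
      hF := hv
      hG := hd
      ha := rfl
      hb := rfl
      disj := hdisj
      disc := ?_
      count := ?_ }
  · intro L _ _ t
    change (curve7 _ _).Δ = 0 ↔ _
    rw [curve7_disc, hvalA, hvalB, mul_eq_zero, ← mul_pow, ← mul_pow,
      pow_eq_zero_iff (by norm_num)]
  · intro L _ _ _ t
    classical
    refine count_cases _ _ (hdisj L t) ?_ ?_ ?_
    · intro h1
      rw [hvalA] at h1
      exact cast_of_succ (cnt7_zero (hnc L t) h1)
    · intro h1 h2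
      rw [hvalA] at h1
      rw [hvalB] at h2
      have h3 := left_ne_zero_of_mul h1
      exact cast_of_dvd (cnt7_bad (h7L L) (left_ne_zero_of_mul h3) (right_ne_zero_of_mul h3)
        (right_ne_zero_of_mul h1) h2)
    · intro h1 h2
      rw [hvalA] at h1
      rw [hvalB] at h2
      have h3 := left_ne_zero_of_mul h1
      exact cast_of_dvd_succ (cnt7_good (left_ne_zero_of_mul h3) (right_ne_zero_of_mul h3)
        (right_ne_zero_of_mul h1) h2)

/-- All families have local data. -/
theorem exists_local {S : Surface κ} (h : HasSection S) :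
    ∃ (N M : ℕ) (F G : κ[X]), LocalData S N M F G := by
  cases h with
  | two m u v hp h hv hd => exact ⟨_, _, _, _, local2 m u v hp h hv hd⟩
  | three m u v hp h hv hd => exact ⟨_, _, _, _, local3 m u v hp h hv hd⟩
  | five m u v hp h hv hd => exact ⟨_, _, _, _, local5 m u v hp h hv hd⟩
  | seven m u v hp h hv hd => exact ⟨_, _, _, _, local7 m u v hp h hv hd⟩

end

end Pool.Agent.R942.ES
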