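import Mathlib

/-!
# Small generalized eigenspaces of similitudes
-/

set_option autoImplicit false

namespace Pool.Agent.R942.ES

open Module

section

variable {E W : Type} [Field E] [AddCommGroup W] [Module E W]

/-- Generalized eigenspaces of a similitude are orthogonal. -/
lemma orth_aux {Φ : End E W} {B : W →ₗ[E] W →ₗ[E] E} {c : E}
    (hB : ∀ x y, B (Φ x) (Φ y) = c * B x y) {β γ : E} (hne : β * γ ≠ c) :
    ∀ (n a b : ℕ), a + b ≤ n → ∀ x y, ((Φ - algebraMap E (End E W) β) ^ a) x = 0 →
      ((Φ - algebraMap E (End E W) γ) ^ b) y = 0 → B x y = 0 := by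
  intro n
  induction n with
  | zero =>
    intro a b hab x y hx _
    have ha : a = 0 := by omega
    rw [ha, pow_zero, End.one_apply] at hx
    rw [hx, map_zero, LinearMap.zero_apply]
  | succ n ih =>
    intro a b hab x y hx hy
    rcases Nat.eq_zero_or_pos a with ha | ha
    · rw [ha, pow_zero, End.one_apply] at hx
      rw [hx, map_zero, LinearMap.zero_apply]
    rcases Nat.eq_zero_or_pos b with hb | hb
    · rw [hb, pow_zero, End.one_apply] at hy
      rw [hy, map_zero]
    obtain ⟨a, rfl⟩ : ∃ k, a = k + 1 := ⟨a - 1, by omega⟩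
    obtain ⟨b, rfl⟩ : ∃ k, b = k + 1 := ⟨b - 1, by omega⟩
    set x' := (Φ - algebraMap E (End E W) β) x with hx'
    set y' := (Φ - algebraMap E (End E W) γ) y with hy'
    have hx1 : ((Φ - algebraMap E (End E W) β) ^ a) x' = 0 := by
      rw [hx', ← End.mul_apply, ← pow_succ]
      exact hx
    have hy1 : ((Φ - algebraMap E (End E W) γ) ^ b) y' = 0 := by
      rw [hy', ← End.mul_apply, ← pow_succ]
      exact hy
    have e1 : Φ x = β • x + x' := by
      rw [hx', LinearMap.sub_apply, Module.algebraMap_end_apply]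
      abel
    have e2 : Φ y = γ • y + y' := by
      rw [hy', LinearMap.sub_apply, Module.algebraMap_end_apply]
      abel
    have h1 := hB x y
    rw [e1, e2] at h1
    simp only [map_add, map_smul, LinearMap.add_apply, LinearMap.smul_apply, smul_eq_mul] at h1
    rw [ih (a + 1) b (by omega) x y' hx hy1, ih a (b + 1) (by omega) x' y hx1 hy,
      ih a b (by omega) x' y' hx1 hy1] at h1
    have h2 : (β * γ - c) * B x y = 0 := by linear_combination h1
    exact (mul_eq_zero.1 h2).resolve_left (sub_ne_zero.2 hne)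

lemma orth {Φ : End E W} {B : W →ₗ[E] W →ₗ[E] E} {c : E}
    (hB : ∀ x y, B (Φ x) (Φ y) = c * B x y) {β γ : E} (hne : β * γ ≠ c) {x y : W}
    (hx : x ∈ Φ.maxGenEigenspace β) (hy : y ∈ Φ.maxGenEigenspace γ) : B x y = 0 := by
  rw [Module.End.mem_maxGenEigenspace] at hx hy
  obtain ⟨a, ha⟩ := hx
  obtain ⟨b, hb⟩ := hy
  refine orth_aux hB hne (a + b) a b le_rfl x y ?_ ?_
  · rw [← ha]
    rfl
  · rw [← hb]
    rfl

variable [FiniteDimensional E W] [IsAlgClosed E]

/-- An element orthogonal to the dual generalized eigenspace is zero. -/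
lemma eq_zero_of_orth {Φ : End E W} {B : W →ₗ[E] W →ₗ[E] E} {c : E}
    (hB : ∀ x y, B (Φ x) (Φ y) = c * B x y) (hnd : ∀ x, (∀ y, B x y = 0) → x = 0) {β γ : E}
    (hβγ : β * γ = c) (hβ : β ≠ 0) {x : W} (hx : x ∈ Φ.maxGenEigenspace β)
    (h : ∀ y ∈ Φ.maxGenEigenspace γ, B x y = 0) : x = 0 := by
  apply hnd
  intro y
  have hy : y ∈ (⊤ : Submodule E W) := Submodule.mem_top
  rw [← Module.End.iSup_maxGenEigenspace_eq_top Φ] at hy
  induction hy using Submodule.iSup_induction' with
  | mem δ z hz =>
    by_cases hδ : δ = γ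
    · rw [hδ] at hz
      exact h z hz
    · refine orth hB ?_ hx hz
      intro h1
      exact hδ (mul_left_cancel₀ hβ (h1.trans hβγ.symm))
  | zero => rw [map_zero]
  | add y z _ _ h1 h2 => rw [map_add, h1, h2, add_zero]

/-- The dual generalized eigenspaces have the same dimension. -/
lemma finrank_le_dual {Φ : End E W} {B : W →ₗ[E] W →ₗ[E] E} {c : E}
    (hB : ∀ x y, B (Φ x) (Φ y) = c * B x y) (hnd : ∀ x, (∀ y, B x y = 0) → x = 0) {β γ : E}
    (hβγ : β * γ = c) (hβ : β ≠ 0) :
    finrank E (Φ.maxGenEigenspace β) ≤ finrank E (Φ.maxGenEigenspace γ) := by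
  let f : Φ.maxGenEigenspace β →ₗ[E] (Module.Dual E (Φ.maxGenEigenspace γ)) :=
    { toFun := fun x => (B x).comp (Φ.maxGenEigenspace γ).subtype
      map_add' := fun x y => by
        ext z
        simp
      map_smul' := fun a x => by
        ext z
        simp }
  have hf : Function.Injective f := by
    rw [← LinearMap.ker_eq_bot, LinearMap.ker_eq_bot']
    intro x hx
    apply Subtype.ext
    refine eq_zero_of_orth hB hnd hβγ hβ x.2 fun y hy => ?_
    exact LinearMap.congr_fun hx ⟨y, hy⟩
  have h1 := LinearMap.finrank_le_finrank_of_injective hf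
  rwa [Subspace.dual_finrank_eq] at h1

/-- **Small defect.** If the generalized eigenspace for `β`, `β² = c`, has at most two dimensions more
than a nondegenerate space of eigenvectors, then `β` is a semisimple eigenvalue. -/
theorem eigen_of_defect {Φ : End E W} {B : W →ₗ[E] W →ₗ[E] E} {c : E} (h2 : (2 : E) ≠ 0)
    (hB : ∀ x y, B (Φ x) (Φ y) = c * B x y) (hs : ∀ x y, B x y = B y x)
    (hnd : ∀ x, (∀ y, B x y = 0) → x = 0) {β : E} (hβ : β * β = c) (hβ0 : β ≠ 0)
    (N : Submodule E W) (hN : ∀ x ∈ N, Φ x = β • x)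
    (hNd : ∀ x ∈ N, (∀ y ∈ N, B x y = 0) → x = 0)
    (hdim : finrank E (Φ.maxGenEigenspace β) ≤ 2 + finrank E N) :
    ∀ x ∈ Φ.maxGenEigenspace β, Φ x = β • x := by
  classical
  -- the orthogonal complement of `N`
  let P : Submodule E W :=
    { carrier := {x | ∀ y ∈ N, B x y = 0}
      add_mem' := fun {a b} ha hb y hy => by
        rw [map_add, LinearMap.add_apply, ha y hy, hb y hy, add_zero]
      zero_mem' := fun y _ => by rw [map_zero, LinearMap.zero_apply]
      smul_mem' := fun a x hx y hy => by
        rw [map_smul, LinearMap.smul_apply, hx y hy, smul_zero] }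
  have hP : ∀ x, x ∈ P ↔ ∀ y ∈ N, B x y = 0 := fun x => Iff.rfl
  set V := Φ.maxGenEigenspace β with hV
  have hNV : N ≤ V := by
    intro x hx
    rw [hV, Module.End.mem_maxGenEigenspace]
    refine ⟨1, ?_⟩
    rw [pow_one, LinearMap.sub_apply, hN x hx]
    simp
  -- each element of `W` is a sum of elements of `N` and of `P`
  have hsplit : ∀ x : W, ∃ y ∈ N, x - y ∈ P := by
    intro x
    let f : N →ₗ[E] Module.Dual E N :=
      { toFun := fun y => (B y).comp N.subtype
        map_add' := fun y z => by
          ext w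
          simp
        map_smul' := fun a y => by
          ext w
          simp }
    have hf : Function.Injective f := by
      rw [← LinearMap.ker_eq_bot, LinearMap.ker_eq_bot']
      intro y hy
      apply Subtype.ext
      exact hNd y y.2 fun z hz => LinearMap.congr_fun hy ⟨z, hz⟩
    have hf' : Function.Surjective f := by
      rwa [← LinearMap.injective_iff_surjective_of_finrank_eq_finrank
        (Subspace.dual_finrank_eq (K := E) (V := N)).symm]
    obtain ⟨y, hy⟩ := hf' ((B x).comp N.subtype)
    refine ⟨y, y.2, ?_⟩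
    rw [hP]
    intro z hz
    have h1 := LinearMap.congr_fun hy ⟨z, hz⟩
    change B y z = B x z at h1
    rw [map_sub, LinearMap.sub_apply, h1, sub_self]
  have hdisj : ∀ x ∈ N, x ∈ P → x = 0 := fun x hx hx' => hNd x hx hx'
  let U : Submodule E W := V ⊓ P
  have hUdim : finrank E U ≤ 2 := by
    have h1 : finrank E (N ⊔ U : Submodule E W) + finrank E (N ⊓ U : Submodule E W) =
        finrank E N + finrank E U := Submodule.finrank_sup_add_finrank_inf_eq N U
    have h2 : (N ⊓ U : Submodule E W) = ⊥ := by
      rw [Submodule.eq_bot_iff]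
      rintro x ⟨hx, -, hx'⟩
      exact hdisj x hx hx'
    have h3 : finrank E (N ⊔ U : Submodule E W) ≤ finrank E V :=
      Submodule.finrank_mono (sup_le hNV inf_le_left)
    rw [h2, finrank_bot] at h1
    omega
  -- the nilpotent part
  let n : End E W := Φ - algebraMap E (End E W) β
  have hΦ : ∀ x, Φ x = β • x + n x := fun x => by
    change Φ x = β • x + (Φ x - (algebraMap E (End E W) β) x)
    rw [Module.algebraMap_end_apply]
    abel
  have hn : ∀ x y, β * (B (n x) y + B x (n y)) + B (n x) (n y) = 0 := by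
    intro x y
    have h1 := hB x y
    rw [hΦ x, hΦ y] at h1
    simp only [map_add, map_smul, LinearMap.add_apply, LinearMap.smul_apply, smul_eq_mul] at h1
    linear_combination h1 - B x y * hβ
  have hnV : ∀ x ∈ V, n x ∈ V := by
    intro x hx
    rw [hV, Module.End.mem_maxGenEigenspace] at hx ⊢
    obtain ⟨k, hk⟩ := hx
    refine ⟨k, ?_⟩
    have h1 : ((Φ - β • (1 : End E W)) ^ k) (n x) = n (((Φ - β • (1 : End E W)) ^ k) x) := by
      have h2 : n = Φ - β • (1 : End E W) := by
        change Φ - algebraMap E (End E W) β = _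
        rw [Algebra.algebraMap_eq_smul_one]
      rw [h2, ← End.mul_apply, ← End.mul_apply, ← pow_succ, ← pow_succ']
    rw [h1, hk, map_zero]
  have hnN : ∀ y ∈ N, n y = 0 := by
    intro y hy
    have h1 := hΦ y
    rw [hN y hy] at h1
    exact left_eq_add.1 h1
  have hnP : ∀ x ∈ P, n x ∈ P := by
    intro x hx y hy
    have h1 := hn x y
    rw [hnN y hy, map_zero, map_zero, add_zero, add_zero] at h1
    exact (mul_eq_zero.1 h1).resolve_left hβ0
  have hnU : ∀ x ∈ U, n x ∈ U := fun x hx => ⟨hnV x hx.1, hnP x hx.2⟩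
  have hnil : ∀ x ∈ U, n (n x) = 0 := by
    let m : End E U := n.restrict hnU
    have hm : IsNilpotent m := by
      rw [Module.End.isNilpotent_iff_of_finite]
      intro x
      have hx : (x : W) ∈ V := x.2.1
      rw [hV, Module.End.mem_maxGenEigenspace] at hx
      obtain ⟨k, hk⟩ := hx
      refine ⟨k, ?_⟩
      apply Subtype.ext
      have h1 : ∀ (j : ℕ) (z : U), (((m ^ j) z : U) : W) = (n ^ j) (z : W) := by
        intro j
        induction j with
        | zero => intro z; rfl
        | succ j ih =>
          intro z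
          rw [pow_succ', pow_succ', End.mul_apply, End.mul_apply, ← ih]
          rfl
      rw [h1]
      have h2 : n = Φ - β • (1 : End E W) := by
        change Φ - algebraMap E (End E W) β = _
        rw [Algebra.algebraMap_eq_smul_one]
      rw [h2, hk]
      rfl
    have hm2 : m ^ 2 = 0 := by
      have h1 := hm.charpoly_eq_X_pow_finrank
      have h3 := LinearMap.aeval_self_charpoly m
      rw [h1, map_pow, Polynomial.aeval_X] at h3
      obtain ⟨j, hj⟩ := Nat.exists_eq_add_of_le hUdim
      rw [hj, pow_add, h3, zero_mul]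
    intro x hx
    have h1 := LinearMap.congr_fun hm2 ⟨x, hx⟩
    rw [pow_two] at h1
    exact congrArg Subtype.val h1
  have horth : ∀ x ∈ U, ∀ y ∈ U, B (n x) (n y) = 0 := by
    intro x hx y hy
    have h1 := hn x (n y)
    rw [hnil y hy, map_zero, map_zero, add_zero, add_zero] at h1
    exact (mul_eq_zero.1 h1).resolve_left hβ0
  have hself : ∀ x ∈ U, B x (n x) = 0 := by
    intro x hx
    have h1 := hn x x
    rw [horth x hx x hx, add_zero, hs (n x) x, ← two_mul] at h1
    exact (mul_eq_zero.1 ((mul_eq_zero.1 h1).resolve_left hβ0)).resolve_left h2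
  -- `n = 0` on `U`
  have hzero : ∀ x ∈ U, n x = 0 := by
    intro x hx
    by_contra hne
    -- `x` and `n x` span `U`
    have hli : LinearIndependent E ![x, n x] := by
      rw [LinearIndependent.pair_iff]
      intro s t hst
      have h1 := congrArg n hst
      rw [map_add, map_smul, map_smul, hnil x hx, smul_zero, add_zero, map_zero] at h1
      have hs0 : s = 0 := (smul_eq_zero.1 h1).resolve_right hne
      rw [hs0, zero_smul, zero_add] at hst
      exact ⟨hs0, (smul_eq_zero.1 hst).resolve_right hne⟩
    have hspan : U ≤ Submodule.span E {x, n x} := by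
      have h1 : Submodule.span E {x, n x} ≤ U := by
        rw [Submodule.span_le]
        rintro z (rfl | rfl)
        · exact hx
        · exact hnU x hx
      have h3 : finrank E (Submodule.span E {x, n x}) = 2 := by
        have h4 := finrank_span_eq_card hli
        have h5 : Set.range ![x, n x] = {x, n x} := by
          simp [Matrix.range_cons, Matrix.range_empty, Set.pair_comm]
        rw [Fintype.card_fin, h5] at h4
        exact h4
      exact (Submodule.eq_of_le_of_finrank_le h1 (by omega)).ge
    apply hne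
    -- `n x` is orthogonal to everything
    refine eq_zero_of_orth hB hnd hβ hβ0 (hnV x hx.1) fun y hy => ?_
    obtain ⟨z, hz, hyz⟩ := hsplit y
    have hyU : y - z ∈ U := ⟨V.sub_mem hy (hNV hz), hyz⟩
    have h1 : B (n x) z = 0 := hnP x hx.2 z hz
    have h3 := hspan hyU
    rw [Submodule.mem_span_pair] at h3
    obtain ⟨s, t, hst⟩ := h3
    have h4 : y = s • x + t • n x + z := by rw [hst]; abel
    rw [h4, map_add, map_add, map_smul, map_smul, h1, hs (n x) x, hself x hx, horth x hx x hx]
    simp
  intro x hx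
  obtain ⟨y, hy, hxy⟩ := hsplit x
  have h1 := hzero (x - y) ⟨V.sub_mem hx (hNV hy), hxy⟩
  rw [map_sub, hnN y hy, sub_zero] at h1
  rw [hΦ x, h1, add_zero]

end

end Pool.Agent.R942.ES
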