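import Pool.Agent.R942.ES.Core
import Pool.Agent.R942.ES.Orth

/-!
# Multiplicities of eigenvalues from traces modulo a prime number
-/

set_option autoImplicit false

namespace Pool.Agent.R942.ES

open Polynomial Pool.Agent.W111.HS.EC Module

/-- A polynomial with constant coefficient one is the product of factors `1 - x X`. -/
lemma exists_recip_mult {ℓ : ℕ} [Fact ℓ.Prime] {k : Type} [Field k] [IsAlgClosed k]
    [DecidableEq k] [Algebra (ZMod ℓ) k] (R : (ZMod ℓ)[X]) (h0 : R.coeff 0 = 1) :
    ∃ B : Multiset k, (0 : k) ∉ B ∧ B.card = R.natDegree ∧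
      PowerSeries.map (algebraMap (ZMod ℓ) k) (R : PowerSeries (ZMod ℓ)) = gs B ∧
      ∀ y, B.count y = (R.map (algebraMap (ZMod ℓ) k)).rootMultiplicity y⁻¹ := by
  set Q : k[X] := R.map (algebraMap (ZMod ℓ) k) with hQ
  have hQ0 : Q.coeff 0 = 1 := by rw [hQ, coeff_map, h0, map_one]
  have hQne : Q ≠ 0 := by
    intro h
    rw [h, coeff_zero] at hQ0
    exact zero_ne_one hQ0
  have hdeg : Q.natDegree = R.natDegree := natDegree_map _
  have hsplit := (IsAlgClosed.splits Q).natDegree_eq_card_roots
  have hrne : ∀ r ∈ Q.roots, r ≠ 0 := by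
    intro r hr h
    rw [mem_roots hQne, IsRoot.def, h, ← coeff_zero_eq_eval_zero, hQ0] at hr
    exact one_ne_zero hr
  have hprod : Q = (Q.roots.map fun r => 1 - C r⁻¹ * X).prod := by
    have h1 := (IsAlgClosed.splits Q).eq_prod_roots
    have h2 : (Q.roots.map fun r => (X - C r : k[X])) =
        Q.roots.map fun r => C (-r) * (1 - C r⁻¹ * X) := by
      refine Multiset.map_congr rfl fun r hr => ?_
      rw [mul_sub, mul_one, ← mul_assoc, ← C_mul, neg_mul, mul_inv_cancel₀ (hrne r hr), C_neg,
        C_neg, C_1]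
      ring
    rw [h2, Multiset.prod_map_mul, ← mul_assoc] at h1
    have h3 : (Q.roots.map fun r => (C (-r) : k[X])).prod = C (Q.roots.map fun r => -r).prod := by
      rw [map_multiset_prod, Multiset.map_map]
      rfl
    rw [h3, ← C_mul] at h1
    have h4 := congrArg (fun P : k[X] => P.coeff 0) h1
    have h5 : ((Q.roots.map fun r => (1 - C r⁻¹ * X : k[X])).prod).coeff 0 = 1 := by
      rw [coeff_zero_eq_eval_zero, eval_multiset_prod, Multiset.map_map]
      apply Multiset.prod_eq_one
      intro x hx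
      rw [Multiset.mem_map] at hx
      obtain ⟨r, _, rfl⟩ := hx
      simp
    simp only [coeff_C_mul, h5, hQ0, mul_one] at h4
    rw [← h4, C_1, one_mul] at h1
    exact h1
  refine ⟨Q.roots.map fun r => r⁻¹, ?_, ?_, ?_, ?_⟩
  · intro h1
    rw [Multiset.mem_map] at h1
    obtain ⟨r, hr, hr'⟩ := h1
    exact hrne r hr (inv_eq_zero.1 hr')
  · rw [← hdeg, hsplit]
    exact Multiset.card_map _ _
  · have h1 : PowerSeries.map (algebraMap (ZMod ℓ) k) (R : PowerSeries (ZMod ℓ)) =
        (Q : PowerSeries k) := by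
      ext n
      rw [PowerSeries.coeff_map, Polynomial.coeff_coe, Polynomial.coeff_coe, hQ, coeff_map]
    rw [h1]
    conv_lhs => rw [hprod]
    rw [gs]
    have h2 := map_multiset_prod (Polynomial.coeToPowerSeries.ringHom (R := k))
      (Q.roots.map fun r => 1 - C r⁻¹ * X)
    rw [Multiset.map_map] at h2
    refine Eq.trans h2 ?_
    congr 1
    change _ = Multiset.map _ (Q.roots.map fun r => r⁻¹)
    rw [Multiset.map_map]
    refine Multiset.map_congr rfl fun r _ => ?_
    simp
  · intro y
    have h1 := Multiset.count_map_eq_count' (fun r : k => r⁻¹) Q.roots inv_injective y⁻¹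
    rw [inv_inv] at h1
    rw [h1, count_roots]

/-- Two multisets with the same power sums in a field of positive characteristic. -/
lemma eq_of_sums {k : Type} [Field k] [DecidableEq k] {ℓ : ℕ} [Fact ℓ.Prime] [CharP k ℓ]
    (A B : Multiset k) (h0 : (0 : k) ∉ B) (hlt : ∀ x, B.count x < ℓ) (hcard : A.card = B.card)
    (h : ∀ n : ℕ, 1 ≤ n → (A.map fun x => x ^ n).sum = (B.map fun x => x ^ n).sum) : A = B := by
  let T := A.toFinset ∪ B.toFinset
  have hA : ∀ x ∈ A, x ∈ T := fun x hx =>
    Finset.mem_union_left _ (Multiset.mem_toFinset.2 hx)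
  have hB : ∀ x ∈ B, x ∈ T := fun x hx =>
    Finset.mem_union_right _ (Multiset.mem_toFinset.2 hx)
  have h1 : ∀ n : ℕ, ∑ x ∈ T, (((A.count x : k) - (B.count x : k)) * x) * x ^ n = 0 := by
    intro n
    have h2 : ∀ x, (((A.count x : k) - (B.count x : k)) * x) * x ^ n =
        (A.count x : k) * x ^ (n + 1) - (B.count x : k) * x ^ (n + 1) := by
      intro x
      ring
    rw [Finset.sum_congr rfl fun x _ => h2 x, Finset.sum_sub_distrib,
      ← sum_count A T hA fun x => x ^ (n + 1), ← sum_count B T hB fun x => x ^ (n + 1),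
      h (n + 1) (by omega), sub_self]
  have h2 := indep T _ h1
  have h3 : B ≤ A := by
    rw [Multiset.le_iff_count]
    intro x
    by_cases hx : x ∈ B
    · have hx0 : x ≠ 0 := fun h => h0 (h ▸ hx)
      have h4 := (mul_eq_zero.1 (h2 x (hB x hx))).resolve_right hx0
      rw [sub_eq_zero] at h4
      have h5 := (CharP.natCast_eq_natCast k ℓ).1 h4
      have h6 : B.count x = A.count x % ℓ := by
        rw [← Nat.mod_eq_of_lt (hlt x)]
        exact h5.symm
      rw [h6]
      exact Nat.mod_le _ _
    · rw [Multiset.count_eq_zero_of_notMem hx]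
      exact Nat.zero_le _
  exact (Multiset.eq_of_le_of_card_le h3 (by rw [hcard])).symm

/-- The roots of a polynomial over the prime field. -/
lemma mult_transfer {ℓ : ℕ} [Fact ℓ.Prime] {k : Type} [Field k]
    [Algebra (ZMod ℓ) k] (j : AlgebraicClosure (ZMod ℓ) →ₐ[ZMod ℓ] k) (R : (ZMod ℓ)[X])
    (hR : R ≠ 0) (z : k) (hz : 0 < (R.map (algebraMap (ZMod ℓ) k)).rootMultiplicity z) :
    ∃ y : AlgebraicClosure (ZMod ℓ), j y = z ∧
      (R.map (algebraMap (ZMod ℓ) (AlgebraicClosure (ZMod ℓ)))).rootMultiplicity y =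
        (R.map (algebraMap (ZMod ℓ) k)).rootMultiplicity z := by
  classical
  have hmap : R.map (algebraMap (ZMod ℓ) k) =
      (R.map (algebraMap (ZMod ℓ) (AlgebraicClosure (ZMod ℓ)))).map (j : _ →+* k) := by
    rw [Polynomial.map_map]
    congr 1
    ext x
    simp
  have hR1 : R.map (algebraMap (ZMod ℓ) (AlgebraicClosure (ZMod ℓ))) ≠ 0 :=
    (Polynomial.map_ne_zero_iff
      (algebraMap (ZMod ℓ) (AlgebraicClosure (ZMod ℓ))).injective).2 hR
  have hroots := (IsAlgClosed.splits
    (R.map (algebraMap (ZMod ℓ) (AlgebraicClosure (ZMod ℓ))))).roots_map (j : _ →+* k)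
  rw [← hmap] at hroots
  have hz' : z ∈ (R.map (algebraMap (ZMod ℓ) k)).roots := by
    rw [← Multiset.count_pos, count_roots]
    exact hz
  rw [hroots, Multiset.mem_map] at hz'
  obtain ⟨y, hy, hyz⟩ := hz'
  refine ⟨y, hyz, ?_⟩
  rw [hmap, ← hyz]
  exact eq_rootMultiplicity_map (f := (j : AlgebraicClosure (ZMod ℓ) →+* k)) j.injective y

/-- **Reduction of the eigenvalues.** -/
theorem exists_red {ℓ : ℕ} [hℓ : Fact ℓ.Prime] {E : Type} [Field E] [CharZero E]
    [IsAlgClosed E] {W : Type} [AddCommGroup W] [Module E W] [FiniteDimensional E W]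
    (Φ : Module.End E W) (T : ℕ → ℤ)
    (hT : ∀ n, 1 ≤ n → LinearMap.trace E W (Φ ^ n) = T n)
    (R : (ZMod ℓ)[X]) (h0 : R.coeff 0 = 1)
    (hdim : R.natDegree = Module.finrank E W) (S : PowerSeries (ZMod ℓ))
    (hS : IsLog (R : PowerSeries (ZMod ℓ)) S)
    (hTS : ∀ n, 1 ≤ n → PowerSeries.coeff n S = T n)
    (hmult : ∀ y : AlgebraicClosure (ZMod ℓ),
      (R.map (algebraMap (ZMod ℓ) (AlgebraicClosure (ZMod ℓ)))).rootMultiplicity y < ℓ) :
    ∃ (k : Type) (_ : Field k) (_ : Algebra (ZMod ℓ) k)
      (j : AlgebraicClosure (ZMod ℓ) →ₐ[ZMod ℓ] k) (red : E → k),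
      (∀ x ∈ Φ.charpoly.roots, ∀ y ∈ Φ.charpoly.roots, ∀ c : ℕ, x * y = c →
        red x * red y = c) ∧
      (∀ c : ℕ, red c = c) ∧
      ∀ x ∈ Φ.charpoly.roots, ∃ z : AlgebraicClosure (ZMod ℓ), j z * red x = 1 ∧
        ∀ s : Multiset E, s ≤ Φ.charpoly.roots → (∀ y ∈ s, red y = red x) →
          s.card ≤ (R.map (algebraMap (ZMod ℓ) (AlgebraicClosure (ZMod ℓ)))).rootMultiplicity z := by
  classical
  have hA : ∀ n, 1 ≤ n → (Φ.charpoly.roots.map fun x => x ^ n).sum = (T n : E) := fun n hn => by
    rw [← Pool.Agent.W63.HS.TR.main E W Φ n, hT n hn]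
  have hint := integral_of_sums Φ.charpoly.roots fun n hn => ⟨T n, hA n hn⟩
  obtain ⟨k₀, _, _, ⟨θ₀⟩⟩ := Pool.Agent.W804.HS.RD.main E ℓ hℓ.out
  let k := AlgebraicClosure k₀
  haveI : CharP k ℓ := charP_of_injective_algebraMap (algebraMap k₀ k).injective ℓ
  letI : Algebra (ZMod ℓ) k := ZMod.algebra k ℓ
  let θ : (integralClosure ℤ E).toSubring →+* k := (algebraMap k₀ k).comp θ₀
  let j : AlgebraicClosure (ZMod ℓ) →ₐ[ZMod ℓ] k := IsAlgClosed.lift
  let red : E → k := fun x => if h : x ∈ (integralClosure ℤ E).toSubring then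
    θ (⟨x, h⟩ : (integralClosure ℤ E).toSubring) else 0
  have hred : ∀ x : (integralClosure ℤ E).toSubring, red x = θ x := fun x => by
    change (if h : (x : E) ∈ (integralClosure ℤ E).toSubring then
      θ (⟨x, h⟩ : (integralClosure ℤ E).toSubring) else 0) = _
    rw [dif_pos x.2]
  let A' : Multiset (integralClosure ℤ E).toSubring :=
    Φ.charpoly.roots.pmap (fun x hx => (⟨x, hx⟩ : (integralClosure ℤ E).toSubring)) hint
  have hA' : A'.map Subtype.val = Φ.charpoly.roots := by
    rw [Multiset.map_pmap, Multiset.pmap_eq_map, Multiset.map_id']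
  have hAred : A'.map θ = Φ.charpoly.roots.map red := by
    rw [← hA', Multiset.map_map]
    exact Multiset.map_congr rfl fun x _ => (hred x).symm
  have hsum : ∀ n, 1 ≤ n → ((A'.map θ).map fun x => x ^ n).sum = ((T n : ℤ) : k) := by
    intro n hn
    have h1 : (A'.map fun x => x ^ n).sum = ((T n : ℤ) : (integralClosure ℤ E).toSubring) := by
      apply Subtype.ext
      have h2 := map_multiset_sum (integralClosure ℤ E).toSubring.subtype (A'.map fun x => x ^ n)
      rw [Multiset.map_map] at h2
      have h3 : (A'.map ((integralClosure ℤ E).toSubring.subtype ∘ fun x => x ^ n)) =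
          (Φ.charpoly.roots.map fun x => x ^ n) := by
        rw [← hA', Multiset.map_map]
        rfl
      rw [h3, hA n hn] at h2
      change (integralClosure ℤ E).toSubring.subtype _ = _
      rw [h2]
      simp
    have h4 := congrArg θ h1
    rw [map_multiset_sum, Multiset.map_map, map_intCast] at h4
    rw [Multiset.map_map, ← h4]
    congr 1
    refine Multiset.map_congr rfl fun x _ => ?_
    simp
  have hRne : R ≠ 0 := by
    intro h
    rw [h, coeff_zero] at h0
    exact zero_ne_one h0
  obtain ⟨B, hB0, hBc, hBR, hcount⟩ := exists_recip_mult (k := k) R h0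
  have hlog1 : IsLog (gs B) (PowerSeries.map (algebraMap (ZMod ℓ) k) S) := by
    rw [← hBR]
    exact isLog_map _ hS
  have hgs0 : gs B ≠ 0 := by
    intro h
    have h1 := coeff_zero_gs B
    rw [h, map_zero] at h1
    exact zero_ne_one h1
  have hSB := isLog_inj hgs0 hlog1 (isLog_gs B)
  have hsumB : ∀ n, 1 ≤ n → (B.map fun x => x ^ n).sum = ((T n : ℤ) : k) := by
    intro n hn
    have h1 := congrArg (PowerSeries.coeff n) hSB
    rw [coeff_gs B n hn, PowerSeries.coeff_map, hTS n hn, map_intCast] at h1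
    rw [h1]
  have hcard : (A'.map θ).card = B.card := by
    rw [Multiset.card_map, hBc, hdim, ← Φ.charpoly_natDegree,
      (IsAlgClosed.splits Φ.charpoly).natDegree_eq_card_roots, ← hA', Multiset.card_map]
  have hlt : ∀ x, B.count x < ℓ := by
    intro x
    rw [hcount]
    rcases Nat.eq_zero_or_pos
      ((R.map (algebraMap (ZMod ℓ) k)).rootMultiplicity x⁻¹) with h | h
    · rw [h]
      exact hℓ.out.pos
    · obtain ⟨y, _, hy⟩ := mult_transfer j R hRne x⁻¹ h
      rw [← hy]
      exact hmult y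
  have hmain := eq_of_sums (A'.map θ) B hB0 hlt hcard fun n hn => by rw [hsum n hn, hsumB n hn]
  rw [hAred] at hmain
  refine ⟨k, inferInstance, inferInstance, j, red, ?_, ?_, ?_⟩
  · intro x hx y hy c hxy
    have h1 : (⟨x, hint x hx⟩ : (integralClosure ℤ E).toSubring) * ⟨y, hint y hy⟩ =
        ((c : ℕ) : (integralClosure ℤ E).toSubring) := by
      apply Subtype.ext
      change x * y = _
      rw [hxy]
      simp
    have h2 := congrArg θ h1
    rw [map_mul, map_natCast] at h2
    rw [← h2, ← hred, ← hred]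
  · intro c
    have h1 := hred ((c : ℕ) : (integralClosure ℤ E).toSubring)
    rw [map_natCast] at h1
    rw [← h1]
    simp
  · intro x hx
    have hxB : red x ∈ B := by
      rw [← hmain]
      exact Multiset.mem_map_of_mem red hx
    have hx0 : red x ≠ 0 := fun h => hB0 (h ▸ hxB)
    have hpos : 0 < (R.map (algebraMap (ZMod ℓ) k)).rootMultiplicity (red x)⁻¹ := by
      rw [← hcount]
      exact Multiset.count_pos.2 hxB
    obtain ⟨z, hz, hz'⟩ := mult_transfer j R hRne _ hpos
    refine ⟨z, ?_, ?_⟩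
    · rw [hz]
      exact inv_mul_cancel₀ hx0
    · intro s hs hs'
      rw [hz', ← hcount, ← hmain]
      have h1 : Multiset.replicate s.card (red x) ≤ Φ.charpoly.roots.map red := by
        have h2 : s.map red = Multiset.replicate s.card (red x) := by
          rw [Multiset.eq_replicate]
          refine ⟨Multiset.card_map _ _, fun b hb => ?_⟩
          rw [Multiset.mem_map] at hb
          obtain ⟨y, hy, rfl⟩ := hb
          exact hs' y hy
        rw [← h2]
        exact Multiset.map_le_map hs
      exact Multiset.le_count_iff_replicate_le.2 h1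

/-- Semisimplicity from the generalized eigenspaces. -/
lemma isSemisimple_of_eigen {E W : Type} [Field E] [IsAlgClosed E] [AddCommGroup W] [Module E W]
    [FiniteDimensional E W] (Φ : Module.End E W)
    (h : ∀ β, ∀ x ∈ Φ.maxGenEigenspace β, Φ x = β • x) : Φ.IsSemisimple := by
  classical
  set p : E[X] := ∏ β ∈ Φ.charpoly.roots.toFinset, (X - C β) with hp
  have hsq : Squarefree p := by
    have h1 : p.Separable := separable_prod_X_sub_C_iff'.2 fun x _ y _ hxy => hxy
    exact h1.squarefree
  refine Module.End.isSemisimple_of_squarefree_aeval_eq_zero hsq ?_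
  ext x
  have hx : x ∈ (⊤ : Submodule E W) := Submodule.mem_top
  rw [← Module.End.iSup_maxGenEigenspace_eq_top Φ] at hx
  rw [LinearMap.zero_apply]
  induction hx using Submodule.iSup_induction' with
  | mem β z hz =>
    by_cases hz0 : z = 0
    · rw [hz0, map_zero]
    have hz1 := h β z hz
    have hβ : β ∈ Φ.charpoly.roots.toFinset := by
      rw [Multiset.mem_toFinset, mem_roots (LinearMap.charpoly_monic Φ).ne_zero,
        ← Module.End.hasEigenvalue_iff_isRoot_charpoly]
      exact Module.End.hasEigenvalue_of_hasEigenvector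
        (x := z) ⟨Module.End.mem_eigenspace_iff.2 hz1, hz0⟩
    have h2 : (aeval Φ p) z = p.eval β • z :=
      Module.End.aeval_apply_of_hasEigenvector ⟨Module.End.mem_eigenspace_iff.2 hz1, hz0⟩
    rw [h2, hp, eval_prod, Finset.prod_eq_zero hβ, zero_smul]
    rw [eval_sub, eval_X, eval_C, sub_self]
  | zero => rw [map_zero]
  | add y z _ _ h1 h2 => rw [map_add, h1, h2, add_zero]

/-- Eigenvalues of multiplicity one. -/
lemma eigen_of_one {E W : Type} [Field E] [AddCommGroup W] [Module E W]
    [FiniteDimensional E W] (Φ : Module.End E W) (β : E)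
    (h : finrank E (Φ.maxGenEigenspace β) ≤ 1) : ∀ x ∈ Φ.maxGenEigenspace β, Φ x = β • x := by
  intro x hx
  by_cases hx0 : x = 0
  · rw [hx0, map_zero, smul_zero]
  have h1 : Φ.HasEigenvalue β := by
    rw [Module.End.mem_maxGenEigenspace] at hx
    obtain ⟨k, hk⟩ := hx
    have h2 : Φ.HasUnifEigenvalue β k := by
      intro h3
      apply hx0
      have h4 : x ∈ Φ.genEigenspace β k := by
        rw [Module.End.mem_genEigenspace_nat, LinearMap.mem_ker, ← hk]
      rw [h3] at h4
      exact (Submodule.mem_bot E).1 h4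
    exact Module.End.hasEigenvalue_of_hasGenEigenvalue h2
  obtain ⟨v, hv⟩ := h1.exists_hasEigenvector
  have hv1 : v ∈ Φ.maxGenEigenspace β := by
    rw [Module.End.mem_maxGenEigenspace]
    refine ⟨1, ?_⟩
    rw [pow_one, LinearMap.sub_apply, Module.End.mem_eigenspace_iff.1 hv.1]
    simp
  have h3 : Φ.maxGenEigenspace β = E ∙ v := by
    symm
    apply Submodule.eq_of_le_of_finrank_le
    · rw [Submodule.span_singleton_le_iff_mem]
      exact hv1
    · rw [finrank_span_singleton hv.2]
      exact h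
  rw [h3, Submodule.mem_span_singleton] at hx
  obtain ⟨a, rfl⟩ := hx
  rw [map_smul, Module.End.mem_eigenspace_iff.1 hv.1, smul_comm]

end Pool.Agent.R942.ES
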