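import Mathlib

/-!
# Zeros of forms on the projective line over a finite field
-/

set_option autoImplicit false

namespace Pool.Agent.R942.ES

open Polynomial UniqueFactorizationMonoid Module

section Forms

variable {κ : Type} [Field κ]

/-- The value of the form `F` in two variables of degree `N`, written as a polynomial `F` of degree at
most `N` in one variable `t`, at the point `t` of the projective line over `L`; the point `none` is
the point at infinity. -/
noncomputable def value (N : ℕ) (F : κ[X]) (L : Type) [Field L] [Algebra κ L] : Option L → L
  | some t => aeval t F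
  | none => algebraMap κ L (F.coeff N)

open Classical in
/-- The degrees of the closed points of the projective line over `κ` in which the form `F` of degree
`N` vanishes: the degrees of the irreducible factors of the polynomial `F`, and `1` for the point at
infinity if the coefficient of `t ^ N` is zero. -/
noncomputable def places (N : ℕ) (F : κ[X]) : Multiset ℕ :=
  (normalizedFactors F).toFinset.val.map natDegree + if F.coeff N = 0 then {1} else 0

variable {L : Type} [Field L] [Algebra κ L]

lemma value_mul {N M : ℕ} {F G : κ[X]} (hF : F.natDegree ≤ N) (hG : G.natDegree ≤ M)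
    (t : Option L) : value (N + M) (F * G) L t = value N F L t * value M G L t := by
  cases t with
  | some t => exact map_mul _ _ _
  | none =>
    change algebraMap κ L _ = algebraMap κ L _ * algebraMap κ L _
    rw [coeff_mul_add_eq_of_natDegree_le hF hG, map_mul]

lemma value_pow {N : ℕ} {F : κ[X]} (hF : F.natDegree ≤ N) (k : ℕ)
    (t : Option L) : value (k * N) (F ^ k) L t = value N F L t ^ k := by
  cases t with
  | some t => exact map_pow _ _ _
  | none =>
    change algebraMap κ L _ = algebraMap κ L _ ^ _
    rw [coeff_pow_of_natDegree_le hF, map_pow]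

lemma value_add {N : ℕ} (F G : κ[X]) (t : Option L) :
    value N (F + G) L t = value N F L t + value N G L t := by
  cases t with
  | some t => exact map_add _ _ _
  | none =>
    change algebraMap κ L _ = algebraMap κ L _ + algebraMap κ L _
    rw [coeff_add, map_add]

lemma value_sub {N : ℕ} (F G : κ[X]) (t : Option L) :
    value N (F - G) L t = value N F L t - value N G L t := by
  cases t with
  | some t => exact map_sub _ _ _
  | none =>
    change algebraMap κ L _ = algebraMap κ L _ - algebraMap κ L _
    rw [coeff_sub, map_sub]

lemma value_natCast_mul {N : ℕ} (n : ℕ) (F : κ[X]) (t : Option L) :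
    value N ((n : κ[X]) * F) L t = n * value N F L t := by
  cases t with
  | some t =>
    change aeval t _ = n * aeval t F
    rw [map_mul, map_natCast]
  | none =>
    change algebraMap κ L _ = n * algebraMap κ L _
    rw [← nsmul_eq_mul, coeff_smul, nsmul_eq_mul, map_mul, map_natCast]

/-- Two forms without common zeros. -/
lemma no_common {N M : ℕ} {F G : κ[X]} (h : IsCoprime F G) (h' : F.coeff N ≠ 0 ∨ G.coeff M ≠ 0)
    (t : Option L) : value N F L t ≠ 0 ∨ value M G L t ≠ 0 := by
  cases t with
  | some t =>
    by_contra hcon
    push_neg at hcon
    obtain ⟨a, b, hab⟩ := h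
    have h1 := congrArg (aeval t) hab
    rw [map_add, map_mul, map_mul, map_one] at h1
    change aeval t F = 0 ∧ aeval t G = 0 at hcon
    rw [hcon.1, hcon.2, mul_zero, mul_zero, add_zero] at h1
    exact zero_ne_one h1
  | none =>
    rcases h' with h' | h'
    · exact Or.inl ((map_ne_zero_iff _ (algebraMap κ L).injective).2 h')
    · exact Or.inr ((map_ne_zero_iff _ (algebraMap κ L).injective).2 h')

/-- The roots of `F` are the roots of its irreducible factors. -/
lemma card_roots_factors [DecidableEq κ] [DecidableEq L] {F : κ[X]} (hF : F ≠ 0) :
    (F.aroots L).toFinset.card =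
      ∑ g ∈ (normalizedFactors F).toFinset, (g.aroots L).toFinset.card := by
  classical
  have hirr : ∀ g ∈ (normalizedFactors F).toFinset, Irreducible g := fun g hg =>
    irreducible_of_normalized_factor g (Multiset.mem_toFinset.1 hg)
  have h1 : (F.aroots L).toFinset =
      (normalizedFactors F).toFinset.biUnion fun g => (g.aroots L).toFinset := by
    ext t
    rw [Finset.mem_biUnion, Multiset.mem_toFinset, mem_aroots]
    constructor
    · rintro ⟨-, ht⟩
      have h2 : (normalizedFactors F).prod = F * ↑((prod_normalizedFactors hF).choose⁻¹) ∨ True :=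
        Or.inr trivial
      clear h2
      obtain ⟨w, hw⟩ := prod_normalizedFactors hF
      have h3 : aeval t (normalizedFactors F).prod = 0 := by
        have h4 := congrArg (aeval t) hw
        rw [map_mul, ht] at h4
        have h5 : IsUnit (aeval t (w : κ[X])) := w.isUnit.map (aeval t)
        exact (mul_eq_zero.1 h4).resolve_right h5.ne_zero
      rw [map_multiset_prod, Multiset.prod_eq_zero_iff, Multiset.mem_map] at h3
      obtain ⟨g, hg, hg'⟩ := h3
      refine ⟨g, Multiset.mem_toFinset.2 hg, ?_⟩
      rw [Multiset.mem_toFinset, mem_aroots]
      exact ⟨(hirr g (Multiset.mem_toFinset.2 hg)).ne_zero, hg'⟩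
    · rintro ⟨g, hg, ht⟩
      rw [Multiset.mem_toFinset, mem_aroots] at ht
      refine ⟨hF, ?_⟩
      obtain ⟨w, hw⟩ := dvd_of_mem_normalizedFactors (Multiset.mem_toFinset.1 hg)
      rw [hw, map_mul, ht.2, zero_mul]
  rw [h1, Finset.card_biUnion]
  intro g hg g' hg' hne
  change Disjoint (g.aroots L).toFinset (g'.aroots L).toFinset
  rw [Finset.disjoint_left]
  intro t ht ht'
  rw [Multiset.mem_toFinset, mem_aroots] at ht ht'
  have h2 : IsCoprime g g' := by
    by_cases h : g ∣ g'
    rotate_left
    · exact (hirr g hg).coprime_iff_not_dvd.2 h
    · exfalso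
      apply hne
      have h3 : Associated g g' := (hirr g hg).associated_of_dvd (hirr g' hg') h
      rw [← normalize_normalized_factor g (Multiset.mem_toFinset.1 hg),
        ← normalize_normalized_factor g' (Multiset.mem_toFinset.1 hg')]
      exact normalize_eq_normalize_iff.2 ⟨h3.dvd, h3.symm.dvd⟩
  obtain ⟨a, b, hab⟩ := h2
  have h3 := congrArg (aeval t) hab
  rw [map_add, map_mul, map_mul, map_one, ht.2, ht'.2, mul_zero, mul_zero, add_zero] at h3
  exact zero_ne_one h3

/-- The roots of an irreducible polynomial in a finite field. -/
lemma card_roots_irred [Fintype κ] [Fintype L] [DecidableEq L] {g : κ[X]} (hg : Irreducible g) :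
    (g.aroots L).toFinset.card = if g.natDegree ∣ finrank κ L then g.natDegree else 0 := by
  have hfin : Module.Finite κ L := Module.Finite.of_finite
  split_ifs with h
  · rw [hg.natDegree_dvd_iff_dvd_X_pow_card_pow_sub_X, Nat.card_eq_fintype_card,
      ← card_eq_pow_finrank (K := κ) (V := L)] at h
    have h1 : (g.map (algebraMap κ L)) ∣ (X ^ Fintype.card L - X : L[X]) := by
      have h2 := map_dvd (algebraMap κ L) h
      rwa [Polynomial.map_sub, Polynomial.map_pow, map_X] at h2
    have hne : (X ^ Fintype.card L - X : L[X]) ≠ 0 :=
      FiniteField.X_pow_card_sub_X_ne_zero L Fintype.one_lt_card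
    have hroots := FiniteField.roots_X_pow_card_sub_X L
    have hsplit : (X ^ Fintype.card L - X : L[X]).Splits := by
      rw [splits_iff_card_roots, hroots, FiniteField.X_pow_card_sub_X_natDegree_eq L
        Fintype.one_lt_card]
      exact Finset.card_univ
    have h3 : (g.map (algebraMap κ L)).Splits := hsplit.of_dvd hne h1
    have h4 : (g.aroots L).Nodup := by
      apply Multiset.nodup_of_le (roots.le_of_dvd hne h1)
      rw [hroots]
      exact Finset.univ.nodup
    rw [Multiset.toFinset_card_of_nodup h4, ← h3.natDegree_eq_card_roots, natDegree_map]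
  · rw [Finset.card_eq_zero, Finset.eq_empty_iff_forall_notMem]
    intro t ht
    rw [Multiset.mem_toFinset, mem_aroots] at ht
    apply h
    have h1 := minpoly.Irreducible.eq_minpoly hg ht.2
    rw [h1, natDegree_C_mul (leadingCoeff_ne_zero.2 hg.ne_zero)]
    exact minpoly.degree_dvd (Algebra.IsIntegral.isIntegral t)

/-- The roots of an irreducible polynomial in an algebraic closure. -/
lemma card_roots_closure [Finite κ] [DecidableEq (AlgebraicClosure κ)] {g : κ[X]}
    (hg : Irreducible g) :
    (g.aroots (AlgebraicClosure κ)).toFinset.card = g.natDegree := by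
  have hsep : g.Separable := PerfectField.separable_of_irreducible hg
  rw [Multiset.toFinset_card_of_nodup (nodup_roots hsep.map),
    ← (IsAlgClosed.splits _).natDegree_eq_card_roots, natDegree_map]

open Classical in
/-- The number of zeros of a form on the projective line over a finite field. -/
theorem card_zeros [Fintype κ] [Fintype L] {N : ℕ} {F : κ[X]} (hF : F ≠ 0) :
    (∑ t : Option L, if value N F L t = 0 then 1 else 0) =
      ((places N F).map fun d => if d ∣ finrank κ L then d else 0).sum := by
  rw [Fintype.sum_option, places, Multiset.map_add, Multiset.sum_add, Multiset.map_map]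
  have h1 : (∑ t : L, if value N F L (some t) = 0 then 1 else 0) = (F.aroots L).toFinset.card := by
    rw [← Finset.card_filter]
    congr 1
    ext t
    rw [Finset.mem_filter, Multiset.mem_toFinset, mem_aroots]
    simp only [Finset.mem_univ, true_and]
    exact ⟨fun h => ⟨hF, h⟩, fun h => h.2⟩
  have h2 : (if value N F L none = 0 then 1 else 0) =
      (((if F.coeff N = 0 then {1} else 0 : Multiset ℕ)).map
        fun d => if d ∣ finrank κ L then d else 0).sum := by
    have h3 : value N F L none = 0 ↔ F.coeff N = 0 :=
      map_eq_zero_iff _ (algebraMap κ L).injective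
    by_cases h : F.coeff N = 0
    · rw [if_pos (h3.2 h), if_pos h]
      simp
    · rw [if_neg (fun h4 => h (h3.1 h4)), if_neg h]
      simp
  rw [h1, ← h2, card_roots_factors hF, add_comm]
  congr 1
  refine Finset.sum_congr rfl fun g hg => ?_
  exact card_roots_irred (irreducible_of_normalized_factor g (Multiset.mem_toFinset.1 hg))

open Classical in
/-- The number of geometric zeros of a form. -/
theorem ncard_zeros [Finite κ] {N : ℕ} {F : κ[X]} (hF : F ≠ 0) :
    {t : Option (AlgebraicClosure κ) | value N F (AlgebraicClosure κ) t = 0}.ncard =
      (places N F).sum := by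
  have h0 : {t : Option (AlgebraicClosure κ) | value N F (AlgebraicClosure κ) t = 0} =
      (((F.aroots (AlgebraicClosure κ)).toFinset.map Function.Embedding.some ∪
        if F.coeff N = 0 then {none} else ∅ : Finset (Option (AlgebraicClosure κ))) :
        Set (Option (AlgebraicClosure κ))) := by
    ext t
    rw [Set.mem_ofPred_eq, Finset.mem_coe, Finset.mem_union, Finset.mem_map]
    cases t with
    | some t =>
      constructor
      · intro h
        refine Or.inl ⟨t, ?_, rfl⟩
        rw [Multiset.mem_toFinset, mem_aroots]
        exact ⟨hF, h⟩
      · rintro (⟨s, hs, hst⟩ | h)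
        · rw [Multiset.mem_toFinset, mem_aroots] at hs
          rw [← hst]
          exact hs.2
        · exfalso
          split_ifs at h
          · rw [Finset.mem_singleton] at h
            exact Option.some_ne_none t h
          · exact Finset.notMem_empty _ h
    | none =>
      have h3 : value N F (AlgebraicClosure κ) none = 0 ↔ F.coeff N = 0 :=
        map_eq_zero_iff _ (algebraMap κ (AlgebraicClosure κ)).injective
      constructor
      · intro h
        right
        rw [if_pos (h3.1 h), Finset.mem_singleton]
      · rintro (⟨s, hs, hst⟩ | h)
        · exact absurd hst (Option.some_ne_none s)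
        · rw [h3]
          by_contra hcon
          rw [if_neg hcon] at h
          exact Finset.notMem_empty _ h
  rw [h0, Set.ncard_coe_finset, Finset.card_union_of_disjoint, Finset.card_map,
    card_roots_factors hF, places, Multiset.sum_add]
  · congr 1
    · refine Finset.sum_congr rfl fun g hg => ?_
      exact card_roots_closure
        (irreducible_of_normalized_factor g (Multiset.mem_toFinset.1 hg))
    · split_ifs <;> simp
  · rw [Finset.disjoint_left]
    intro t ht ht'
    rw [Finset.mem_map] at ht
    obtain ⟨s, _, rfl⟩ := ht
    split_ifs at ht'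
    · rw [Finset.mem_singleton] at ht'
      exact Option.some_ne_none s ht'
    · exact Finset.notMem_empty _ ht'

lemma places_pos {N : ℕ} {F : κ[X]} : ∀ d ∈ places N F, 1 ≤ d := by
  classical
  intro d hd
  rw [places, Multiset.mem_add, Multiset.mem_map] at hd
  rcases hd with ⟨g, hg, rfl⟩ | hd
  · exact (irreducible_of_normalized_factor g (Multiset.mem_toFinset.1 hg)).natDegree_pos
  · split_ifs at hd
    · rw [Multiset.mem_singleton.1 hd]
    · exact absurd hd (Multiset.notMem_zero _)

end Forms

end Pool.Agent.R942.ES
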