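import Pool.Agent.R942.ES.Final

/-!
# Elliptic surfaces with a section of prime order: the whole second cohomology
-/

set_option autoImplicit false

namespace Pool.Agent.R942.ES

open Polynomial Module

section

variable {E T W : Type} [Field E] [AddCommGroup T] [Module E T] [AddCommGroup W] [Module E W]

/-- `T` is the space spanned by the classes of the zero section and of the components of the fibres:
it is spanned by a finite family of elements, and `Ψ` is the product of a permutation of this family
and of the multiplication by `q`. -/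
def IsPermuted (q : ℕ) (Ψ : Module.End E T) : Prop :=
  ∃ (ι : Type) (_ : Fintype ι) (b : ι → T) (σ : Equiv.Perm ι),
    Submodule.span E (Set.range b) = ⊤ ∧ ∀ i, Ψ (b i) = (q : E) • b (σ i)

/-- A space of eigenvectors for the eigenvalue `q` on which the cup product is nondegenerate, for
example the space spanned by the classes of sections of the surface. -/
def IsEigenSpace (q : ℕ) (Φ : Module.End E W) (B : W →ₗ[E] W →ₗ[E] E) (N : Submodule E W) : Prop :=
  (∀ x ∈ N, Φ x = (q : E) • x) ∧ ∀ x ∈ N, (∀ y ∈ N, B x y = 0) → x = 0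

/-- The Frobenius on the whole second cohomology `T ⊕ W`. -/
def total (Ψ : Module.End E T) (Φ : Module.End E W) : Module.End E (T × W) :=
  LinearMap.prodMap Ψ Φ

variable [CharZero E] [FiniteDimensional E T] [FiniteDimensional E W]

lemma semisimple_permuted {q : ℕ} (hq : q ≠ 0) {Ψ : Module.End E T} (h : IsPermuted q Ψ) :
    Ψ.IsSemisimple := by
  obtain ⟨ι, _, b, σ, hb, hσ⟩ := h
  have hpow : ∀ (m : ℕ) (i : ι), (Ψ ^ m) (b i) = (q : E) ^ m • b ((σ ^ m) i) := by
    intro m
    induction m with
    | zero => intro i; simp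
    | succ m ih =>
      intro i
      rw [pow_succ, Module.End.mul_apply, hσ, map_smul, ih, smul_smul, pow_succ (q : E),
        mul_comm ((q : E) ^ m), pow_succ σ, Equiv.Perm.mul_apply]
  set m := orderOf σ with hm
  have hm0 : 0 < m := orderOf_pos σ
  have hqE : (q : E) ≠ 0 := Nat.cast_ne_zero.2 hq
  have h1 : aeval Ψ (X ^ m - C ((q : E) ^ m)) = 0 := by
    rw [map_sub, map_pow, aeval_X, aeval_C, sub_eq_zero]
    apply LinearMap.ext_on_range hb
    intro i
    rw [hpow, hm, pow_orderOf_eq_one, Module.algebraMap_end_apply]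
    rfl
  refine Module.End.isSemisimple_of_squarefree_aeval_eq_zero (p := X ^ m - C ((q : E) ^ m)) ?_ h1
  have h2 : (X ^ m - C ((q : E) ^ m)).Separable := by
    apply separable_X_pow_sub_C
    · exact Nat.cast_ne_zero.2 hm0.ne'
    · exact pow_ne_zero m hqE
  exact h2.squarefree

variable [IsAlgClosed E]

lemma mem_fst {Ψ : Module.End E T} {Φ : Module.End E W} {β : E} {v : T × W}
    (hv : v ∈ (total Ψ Φ).maxGenEigenspace β) :
    v.1 ∈ Ψ.maxGenEigenspace β ∧ v.2 ∈ Φ.maxGenEigenspace β := by
  rw [Module.End.mem_maxGenEigenspace] at hv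
  obtain ⟨k, hk⟩ := hv
  have h1 : ((total Ψ Φ) - β • (1 : Module.End E (T × W))) =
      total (Ψ - β • (1 : Module.End E T)) (Φ - β • (1 : Module.End E W)) := by
    apply LinearMap.ext
    intro x
    rfl
  have h2 : ∀ (k : ℕ) (v : T × W), ((total (Ψ - β • (1 : Module.End E T))
      (Φ - β • (1 : Module.End E W))) ^ k) v =
      (((Ψ - β • (1 : Module.End E T)) ^ k) v.1, ((Φ - β • (1 : Module.End E W)) ^ k) v.2) := by
    intro k
    induction k with
    | zero => intro v; rfl
    | succ k ih =>
      intro v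
      rw [pow_succ, Module.End.mul_apply, ih, pow_succ, pow_succ]
      rfl
  rw [h1, h2] at hk
  constructor
  · rw [Module.End.mem_maxGenEigenspace]
    exact ⟨k, congrArg Prod.fst hk⟩
  · rw [Module.End.mem_maxGenEigenspace]
    exact ⟨k, congrArg Prod.snd hk⟩

lemma eigen_of_semisimple {Φ : Module.End E W} (h : Φ.IsSemisimple) (β : E) :
    ∀ x ∈ Φ.maxGenEigenspace β, Φ x = β • x := by
  intro x hx
  rw [Module.End.IsFinitelySemisimple.maxGenEigenspace_eq_eigenspace h.isFinitelySemisimple] at hx
  exact Module.End.mem_eigenspace_iff.1 hx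

lemma semisimple_prod {Ψ : Module.End E T} {Φ : Module.End E W} (h : Ψ.IsSemisimple)
    (h' : Φ.IsSemisimple) : (total Ψ Φ).IsSemisimple := by
  apply isSemisimple_of_eigen
  intro β v hv
  obtain ⟨h1, h2⟩ := mem_fst hv
  exact Prod.ext (eigen_of_semisimple h β v.1 h1) (eigen_of_semisimple h' β v.2 h2)

lemma tate_prod {q : ℕ} {Ψ : Module.End E T} {Φ : Module.End E W} (h : Ψ.IsSemisimple)
    (h' : Φ.maxGenEigenspace q = Φ.eigenspace q) :
    (total Ψ Φ).maxGenEigenspace q =
      (total Ψ Φ).eigenspace q := by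
  apply le_antisymm
  · intro v hv
    obtain ⟨h1, h2⟩ := mem_fst hv
    rw [h', Module.End.mem_eigenspace_iff] at h2
    rw [Module.End.mem_eigenspace_iff]
    exact Prod.ext (eigen_of_semisimple h q v.1 h1) h2
  · exact Module.End.eigenspace_le_maxGenEigenspace

end

end Pool.Agent.R942.ES
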